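import Pool.Agent.Results.MP_430a41_an.HolSpanFails

set_option autoImplicit false

open Set Filter Topology
open scoped ContDiff

namespace Pool.Agent.H402Z.CROrbit

open Pool.Agent.Results.MP_430a41_an.HolSpanFails

/-- admissible size of a coefficient in front of the wide bump `j` at stage `i` -/
noncomputable def AA (j i : ℕ) : ℝ :=
  Classical.choose (coeff (fun t => wide j t) (wide j).contDiff (bdd_wide j) i)

lemma AA_pos (j i : ℕ) : 0 < AA j i :=
  (Classical.choose_spec (coeff (fun t => wide j t) (wide j).contDiff (bdd_wide j) i)).1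

lemma AA_spec (j i : ℕ) (c : ℝ) (hc : |c| ≤ AA j i) (k : ℕ) (hk : k ≤ i) (x : ℝ) :
    ‖iteratedFDeriv ℝ k (fun x => c * wide j x) x‖ ≤ (1 / 2) ^ i :=
  (Classical.choose_spec (coeff (fun t => wide j t) (wide j).contDiff (bdd_wide j) i)).2 c hc k hk x

lemma exists_next (N j i : ℕ) : ∃ M : ℕ, N + 1 ≤ M ∧ 2 * (1 / 4 : ℝ) ^ M ≤ AA j i := by
  have h := AA_pos j i
  obtain ⟨n, hn⟩ := exists_pow_lt_of_lt_one (show 0 < AA j i / 2 by linarith)
    (show (1 / 4 : ℝ) < 1 by norm_num)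
  refine ⟨max (N + 1) n, le_max_left _ _, ?_⟩
  have : (1 / 4 : ℝ) ^ (max (N + 1) n) ≤ (1 / 4) ^ n :=
    pow_le_pow_of_le_one (by norm_num) (by norm_num) (le_max_right _ _)
  linarith

/-- the pairs `(N i, φ i)` -/
noncomputable def sq : ℕ → ℕ × ℕ
  | 0 => (0, 0)
  | i + 1 =>
    (Classical.choose (exists_next (sq i).1 (sq i).2 i),
      (sq i).2 + 2 * Classical.choose (exists_next (sq i).1 (sq i).2 i) + i + 1)

noncomputable def NN (i : ℕ) : ℕ := (sq i).1
noncomputable def ph (i : ℕ) : ℕ := (sq i).2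

lemma NN_succ (i : ℕ) : NN i + 1 ≤ NN (i + 1) :=
  (Classical.choose_spec (exists_next (sq i).1 (sq i).2 i)).1

lemma NN_small (i : ℕ) : 2 * (1 / 4 : ℝ) ^ NN (i + 1) ≤ AA (ph i) i :=
  (Classical.choose_spec (exists_next (sq i).1 (sq i).2 i)).2

lemma ph_succ (i : ℕ) : ph (i + 1) = ph i + 2 * NN (i + 1) + i + 1 := rfl

lemma NN_mono : StrictMono NN := strictMono_nat_of_lt_succ fun i => NN_succ i

lemma ph_mono : StrictMono ph := strictMono_nat_of_lt_succ fun i => by rw [ph_succ]; omega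

lemma ph_ge (i : ℕ) : 2 * NN i + i ≤ ph i := by
  cases i with
  | zero => simp [NN, ph, sq]
  | succ i => rw [ph_succ]; omega

lemma tt_gap {i j : ℕ} (h : i < j) : tt (ph j) ≤ (1 / 2) ^ (j - 1) * tt (ph i) := by
  obtain ⟨l, rfl⟩ : ∃ l, j = l + 1 := ⟨j - 1, by omega⟩
  have h1 : ph i ≤ ph l := ph_mono.monotone (by omega)
  unfold tt
  rw [← pow_add]
  apply pow_le_pow_of_le_one (by norm_num) (by norm_num)
  rw [ph_succ]
  simp only [Nat.add_sub_cancel]
  omega

lemma tt_gap' {i j : ℕ} (h : i < j) : tt (ph j) ≤ (1 / 2) ^ i * tt (ph i) := by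
  refine (tt_gap h).trans ?_
  have := tt_pos (ph i)
  have h2 : (1 / 2 : ℝ) ^ (j - 1) ≤ (1 / 2) ^ i :=
    pow_le_pow_of_le_one (by norm_num) (by norm_num) (by omega)
  gcongr

lemma mt_small (i : ℕ) : (4 : ℝ) ^ NN i * tt (ph i) ≤ (1 / 2) ^ i := by
  unfold tt
  have h1 : (1 / 2 : ℝ) ^ ph i ≤ (1 / 2) ^ (2 * NN i + i) :=
    pow_le_pow_of_le_one (by norm_num) (by norm_num) (ph_ge i)
  have h2 : (4 : ℝ) ^ NN i * (1 / 2) ^ (2 * NN i + i) = (1 / 2) ^ i := by
    rw [pow_add, pow_mul, ← mul_assoc, ← mul_pow]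
    norm_num
  calc (4 : ℝ) ^ NN i * (1 / 2) ^ ph i ≤ (4 : ℝ) ^ NN i * (1 / 2) ^ (2 * NN i + i) := by gcongr
    _ = _ := h2

lemma ttph_tendsto : Tendsto (fun i => tt (ph i)) atTop (𝓝 0) :=
  tt_tendsto.comp ph_mono.tendsto_atTop

/-- The structure function. -/
theorem exists_psi2 : ∃ ψ : ℝ × ℝ → ℝ, ContDiff ℝ ∞ ψ ∧
    (∀ s t, t ≤ 0 → ψ (s, t) = 0) ∧
    (∀ s t, 0 < t → ψ (s, t) = 0 → ∃ i, t = tt (ph i) ∧ ∃ k : ℤ, s = k / 4 ^ NN i) ∧
    (∀ i, ψ (0, tt (ph i)) = 0) ∧
    (∀ δ : ℝ, (∀ i, ∃ k : ℤ, |(k : ℝ) / 4 ^ NN i - δ| ≤ AA (ph i) i) →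
      ∃ η : ℝ → ℝ, ContDiff ℝ ∞ η ∧ η 0 = δ ∧ ∀ s t, ψ (s + η t, t) = ψ (s, t)) := by
  set o : ℕ → ℝ × ℝ → ℝ := fun i => osc (fun _ => 4 ^ NN i) (ph i) with ho
  have hos : ∀ i, ContDiff ℝ ∞ (o i) := fun i => osc_smooth _ _
  have hon : ∀ i x, 0 ≤ o i x := fun i x => osc_nonneg _ _ _
  have hmpos : ∀ i, (0 : ℝ) < 4 ^ NN i := fun i => by positivity
  have hoe : ∀ i s t, o i (s, t) =
      narrow (ph i) t * Real.sin (Real.pi * (4 ^ NN i * s)) ^ 2 := by
    intro i s t
    simp [ho, osc]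
  choose b hb hbc using fun i => coeff (o i) (hos i) (bdd_osc _ _) i
  have hclosed : IsClosed (Iic (0:ℝ) ∪ insert 0 (range fun i => tt (ph i))) :=
    isClosed_Iic.union ttph_tendsto.isCompact_insert_range.isClosed
  obtain ⟨ρ, hρs, hρd, hρr⟩ := (hclosed.isOpen_compl).exists_contDiff_support_eq (n := ⊤)
  have hρ0 : ∀ t, t ∈ Iic (0:ℝ) ∪ insert 0 (range fun i => tt (ph i)) → ρ t = 0 := by
    intro t ht
    by_contra h
    have : t ∈ ρ.support := h
    rw [hρs] at this
    exact this ht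
  have hρnn : ∀ t, 0 ≤ ρ t := fun t => (hρr (mem_range_self t)).1
  have hsum : ∀ x, Summable (fun j => b j * o j x) := by
    intro x
    refine Summable.of_norm_bounded (g := fun j => (1 / 2 : ℝ) ^ j)
      (summable_geometric_of_lt_one (by norm_num) (by norm_num)) ?_
    intro j
    have := hbc j (b j) (by rw [abs_of_pos (hb j)]) 0 (Nat.zero_le _) x
    simpa only [norm_iteratedFDeriv_zero] using this
  have hnn : ∀ x j, 0 ≤ b j * o j x := fun x j => mul_nonneg (hb j).le (hon j x)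
  refine ⟨fun x => ρ x.2 + ∑' j, b j * o j x, ?_, ?_, ?_, ?_, ?_⟩
  · refine ContDiff.add ?_ ?_
    · exact (hρd.of_le (by simp)).comp contDiff_snd
    · exact smooth_sum _ hos b (fun j k hk x => hbc j (b j) (by rw [abs_of_pos (hb j)]) k hk x)
  · intro s t ht
    have h1 : ρ t = 0 := hρ0 t (Or.inl ht)
    have h2 : ∀ j, b j * o j (s, t) = 0 := by
      intro j
      have : narrow (ph j) t = 0 := by
        apply narrow_eq_zero
        have h1 := tt_pos (ph j)
        rw [abs_of_neg (by linarith)]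
        linarith
      simp [hoe, this]
    simp [h1, h2]
  · intro s t ht hψ
    have h1 : 0 ≤ ∑' j, b j * o j (s, t) := tsum_nonneg (hnn _)
    have h2 : ρ t = 0 := by
      have := hρnn t
      simp only at hψ
      linarith
    have h3 : ∑' j, b j * o j (s, t) = 0 := by
      simp only at hψ
      linarith
    have h4 : t ∈ Iic (0:ℝ) ∪ insert 0 (range fun i => tt (ph i)) := by
      by_contra hcon
      have : t ∈ ρ.support := by rw [hρs]; exact hcon
      exact this h2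
    rcases h4 with h4 | h4 | ⟨j, hj⟩
    · exact absurd ht (not_lt.2 h4)
    · exact absurd ht (by rw [h4]; exact lt_irrefl _)
    · simp only at hj
      refine ⟨j, hj.symm, ?_⟩
      have h5 : b j * o j (s, t) = 0 := by
        by_contra hne
        have hpos : 0 < b j * o j (s, t) := lt_of_le_of_ne (hnn _ j) (Ne.symm hne)
        have := (hsum (s, t)).tsum_pos (hnn _) j hpos
        linarith
      have h6 : o j (s, t) = 0 := by
        rcases mul_eq_zero.1 h5 with h | h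
        · exact absurd h (hb j).ne'
        · exact h
      rw [hoe, ← hj, narrow_self, one_mul] at h6
      have h7 : Real.sin (Real.pi * (4 ^ NN j * s)) = 0 :=
        pow_eq_zero_iff (two_ne_zero) |>.1 h6
      obtain ⟨k, hk⟩ := Real.sin_eq_zero_iff.1 h7
      refine ⟨k, ?_⟩
      rw [eq_div_iff (hmpos j).ne']
      have hpi := Real.pi_pos.ne'
      have : Real.pi * (k - 4 ^ NN j * s) = 0 := by linarith
      rcases mul_eq_zero.1 this with h | h
      · exact absurd h hpi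
      · linarith
  · intro j
    have h1 : ρ (tt (ph j)) = 0 := hρ0 _ (Or.inr (Or.inr ⟨j, rfl⟩))
    have h2 : ∀ i, b i * o i (0, tt (ph j)) = 0 := by
      intro i
      simp [hoe]
    simp [h1, h2]
  · intro δ hδ
    choose k hk using hδ
    set c : ℕ → ℝ := fun j => (k j : ℝ) / 4 ^ NN j - δ with hc
    refine ⟨fun t => δ + ∑' j, c j * wide (ph j) t, ?_, ?_, ?_⟩
    · refine contDiff_const.add ?_
      exact smooth_sum (fun j t => wide (ph j) t) (fun j => (wide (ph j)).contDiff) c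
        (fun j l hl x => AA_spec (ph j) j (c j) (hk j) l hl x)
    · have : ∀ j, c j * wide (ph j) 0 = 0 := by
        intro j
        have h1 := tt_pos (ph j)
        rw [wide_eq_zero, mul_zero]
        rw [abs_of_neg (by linarith)]
        linarith
      simp [this]
    · intro s t
      have key : ∀ j, o j (s + (δ + ∑' j, c j * wide (ph j) t), t) = o j (s, t) := by
        intro j
        by_cases hj : |t - tt (ph j)| < tt (ph j) / 8
        · have h1 : ∑' i, c i * wide (ph i) t = c j * wide (ph j) t := by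
            apply tsum_eq_single
            intro i hij
            rw [wide_eq_zero, mul_zero]
            exact sep (fun h => hij (ph_mono.injective h))
              (by have := tt_pos (ph j); linarith)
          have h2 : wide (ph j) t = 1 := wide_eq_one hj.le
          rw [hoe, hoe, h1, h2, mul_one]
          congr 1
          have h3 : Real.pi * (4 ^ NN j * (s + (δ + c j))) =
              Real.pi * (4 ^ NN j * s) + (k j : ℝ) * Real.pi := by
            have := (hmpos j).ne'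
            rw [hc]
            field_simp
            ring
          rw [h3, sin_shift]
        · have : narrow (ph j) t = 0 := narrow_eq_zero (not_lt.1 hj)
          simp [hoe, this]
      simp only [key]

section
variable {ψ : ℝ × ℝ → ℝ}

lemma neg_pres (hψ : ContDiff ℝ ∞ ψ) (hneg : ∀ s t, t ≤ 0 → ψ (s, t) = 0)
    (hzero : ∀ s t, 0 < t → ψ (s, t) = 0 → ∃ i, t = tt (ph i) ∧ ∃ k : ℤ, s = k / 4 ^ NN i)
    {U V : Set (Fin 5 → ℝ)} {h g : (Fin 5 → ℝ) → (Fin 5 → ℝ)}
    (H : IsCRDiffeo (SS hψ) U V h g) {x : Fin 5 → ℝ} (hx : x ∈ U) (hxneg : x 1 < 0) :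
    h x 1 ≤ 0 := by
  by_contra hj1
  push Not at hj1
  set y : Fin 5 → ℝ := h x with hy
  have hyV : y ∈ V := H.mapsTo x hx
  have hgy : g y = x := H.left_inv x hx
  have hcg : ContinuousAt g y := (H.differentiableAt' hyV).continuousAt
  have ev3 : ∀ᶠ z in 𝓝 y, g z 1 < 0 := by
    have h1 : ContinuousAt (fun z => g z 1) y := (continuous_apply 1).continuousAt.comp hcg
    refine h1.eventually (gt_mem_nhds ?_)
    change g y 1 < 0
    rw [hgy]; exact hxneg
  have ev4 : ∀ᶠ z in 𝓝 y, z ∈ V := H.openV.mem_nhds hyV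
  have hyz : ψ (y 0, y 1) = 0 := by
    rw [hy, levi_iff hψ H hx]
    exact hneg _ _ hxneg.le
  obtain ⟨i, hi, -⟩ := hzero _ _ hj1 hyz
  have hti := tt_pos (ph i)
  have ht2 : Tendsto (fun n : ℕ => y + ![0, tt n, 0, 0, 0]) atTop (𝓝 y) := by
    rw [tendsto_pi_nhds]
    intro l
    fin_cases l
    · simp
    · simpa using tt_tendsto.const_add (y 1)
    · simp
    · simp
    · simp
  have ev5 : ∀ᶠ n in atTop, tt n < tt (ph i) / 4 :=
    tt_tendsto.eventually (gt_mem_nhds (by linarith))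
  obtain ⟨n, ⟨hn1, hn2⟩, hn3⟩ := ((ht2.eventually (ev3.and ev4)).and ev5).exists
  set z : Fin 5 → ℝ := y + ![0, tt n, 0, 0, 0] with hz
  have hz1 : z 1 = tt (ph i) + tt n := by
    change y 1 + tt n = tt (ph i) + tt n
    rw [hi]
  have hψz : ψ (z 0, z 1) = 0 := by
    have h1 := hneg (g z 0) _ hn1.le
    rwa [levi_iff hψ H.symm hn2] at h1
  have htn := tt_pos n
  obtain ⟨l, hl, -⟩ := hzero _ _ (by rw [hz1]; linarith) hψz
  by_cases hli : ph l = ph i
  · rw [hz1, hli] at hl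
    linarith
  · have h1 : |z 1 - tt (ph i)| < tt (ph i) / 4 := by
      rw [hz1]; simp; rw [abs_of_pos htn]; exact hn3
    have h2 := sep hli h1
    rw [hl] at h2
    have h3 := tt_pos (ph l)
    simp at h2
    linarith

lemma nonpos_pres (hψ : ContDiff ℝ ∞ ψ) (hneg : ∀ s t, t ≤ 0 → ψ (s, t) = 0)
    (hzero : ∀ s t, 0 < t → ψ (s, t) = 0 → ∃ i, t = tt (ph i) ∧ ∃ k : ℤ, s = k / 4 ^ NN i)
    {U V : Set (Fin 5 → ℝ)} {h g : (Fin 5 → ℝ) → (Fin 5 → ℝ)}
    (H : IsCRDiffeo (SS hψ) U V h g) {x : Fin 5 → ℝ} (hx : x ∈ U) (hxneg : x 1 ≤ 0) :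
    h x 1 ≤ 0 := by
  have hcont : ContinuousAt h x := (H.differentiableAt hx).continuousAt
  have ht : Tendsto (fun n : ℕ => x + ![0, - tt n, 0, 0, 0]) atTop (𝓝 x) := by
    rw [tendsto_pi_nhds]
    intro l
    fin_cases l
    · simp
    · simpa using tt_tendsto.neg.const_add (x 1)
    · simp
    · simp
    · simp
  have h1 : Tendsto (fun n : ℕ => h (x + ![0, - tt n, 0, 0, 0]) 1) atTop (𝓝 (h x 1)) :=
    ((continuous_apply 1).continuousAt.comp hcont).tendsto.comp ht
  refine le_of_tendsto h1 ?_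
  filter_upwards [ht.eventually (H.openU.mem_nhds hx)] with n hn
  refine neg_pres hψ hneg hzero H hn ?_
  have := tt_pos n
  change x 1 + - tt n < 0
  linarith

lemma orbit_approx (hψ : ContDiff ℝ ∞ ψ) (hneg : ∀ s t, t ≤ 0 → ψ (s, t) = 0)
    (hzero : ∀ s t, 0 < t → ψ (s, t) = 0 → ∃ i, t = tt (ph i) ∧ ∃ k : ℤ, s = k / 4 ^ NN i)
    (hlat : ∀ i, ψ (0, tt (ph i)) = 0) {q : Fin 5 → ℝ} (hq : q ∈ (SS hψ).orbit 0) :
    ∀ᶠ i in atTop, ∃ k : ℤ, |4 ^ NN i * q 0 - k| < 1 / 3 := by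
  obtain ⟨U, V, h, g, H, hU, rfl⟩ := hq
  have hV : h 0 ∈ V := H.mapsTo 0 hU
  have hcd : ContDiffAt ℝ 1 h 0 :=
    (H.smooth.contDiffAt (H.openU.mem_nhds hU)).of_le (by exact_mod_cast le_top)
  have hcdg : ContDiffAt ℝ 1 g (h 0) :=
    (H.smooth'.contDiffAt (H.openV.mem_nhds hV)).of_le (by exact_mod_cast le_top)
  obtain ⟨K, W, hW, hK⟩ := hcd.exists_lipschitzOnWith
  obtain ⟨K', W', hW', hK'⟩ := hcdg.exists_lipschitzOnWith
  set xx : ℕ → Fin 5 → ℝ := fun j => ![0, tt (ph j), 0, 0, 0] with hxx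
  have hxt : Tendsto xx atTop (𝓝 0) := by
    rw [tendsto_pi_nhds]
    intro i
    fin_cases i
    · simp [hxx]
    · simpa [hxx] using ttph_tendsto
    · simp [hxx]
    · simp [hxx]
    · simp [hxx]
  have hyt : Tendsto (fun j => h (xx j)) atTop (𝓝 (h 0)) := hcd.continuousAt.tendsto.comp hxt
  have hq1 : h 0 1 ≤ 0 := nonpos_pres hψ hneg hzero H hU (by simp)
  have hpos : ∀ j, xx j ∈ U → 0 < h (xx j) 1 := by
    intro j hj
    by_contra hcon
    push Not at hcon
    have := nonpos_pres hψ hneg hzero H.symm (H.mapsTo _ hj) hcon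
    rw [H.left_inv _ hj] at this
    have h2 := tt_pos (ph j)
    simp [hxx] at this
    linarith
  have evU : ∀ᶠ j in atTop, xx j ∈ U := hxt.eventually (H.openU.mem_nhds hU)
  have hq0 : h 0 1 = 0 := by
    refine le_antisymm hq1 ?_
    have h1 : Tendsto (fun j => h (xx j) 1) atTop (𝓝 (h 0 1)) :=
      (continuous_apply 1).continuousAt.tendsto.comp hyt
    exact ge_of_tendsto h1 (evU.mono fun j hj => (hpos j hj).le)
  set yy : ℕ → Fin 5 → ℝ := fun j => Function.update (h (xx j)) 1 0 with hyy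
  have hyt' : Tendsto yy atTop (𝓝 (h 0)) := by
    have h1 : Tendsto yy atTop (𝓝 (Function.update (h 0) 1 0)) :=
      hyt.update 1 tendsto_const_nhds
    rwa [← hq0, Function.update_eq_self] at h1
  have hgeo : Tendsto (fun j : ℕ => (1 / 2 : ℝ) ^ j) atTop (𝓝 0) :=
    tendsto_pow_atTop_nhds_zero_of_lt_one (by norm_num) (by norm_num)
  have ev1 : ∀ᶠ j : ℕ in atTop, (K : ℝ) * (1 / 2) ^ j < 1 / 6 := by
    have := hgeo.const_mul (K : ℝ)
    rw [mul_zero] at this
    exact this.eventually (gt_mem_nhds (by norm_num))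
  have ev2 : ∀ᶠ j : ℕ in atTop, (K' : ℝ) * (1 / 2) ^ j < 1 := by
    have := hgeo.const_mul (K' : ℝ)
    rw [mul_zero] at this
    exact this.eventually (gt_mem_nhds (by norm_num))
  filter_upwards [evU, hxt.eventually hW, hyt.eventually hW', hyt'.eventually hW',
    hyt'.eventually (H.openV.mem_nhds hV), ev1, ev2, eventually_ge_atTop 1]
    with j hjU hjW hjW' hjW'' hjV hj1 hj2 hj3
  have htj := tt_pos (ph j)
  have hd0 : dist (xx j) 0 ≤ tt (ph j) := by
    rw [dist_pi_le_iff htj.le]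
    intro i
    fin_cases i <;> simp [hxx, htj.le, abs_of_pos htj]
  have hd1 : dist (h (xx j)) (h 0) ≤ K * tt (ph j) :=
    (hK.dist_le_mul _ hjW _ (mem_of_mem_nhds hW)).trans (by gcongr)
  have hz : ψ (h (xx j) 0, h (xx j) 1) = 0 := by
    rw [levi_iff hψ H hjU]
    simpa [hxx] using hlat j
  obtain ⟨i, hi, k, hk⟩ := hzero _ _ (hpos j hjU) hz
  have hti := tt_pos (ph i)
  have hup : tt (ph i) ≤ K * tt (ph j) := by
    have := (dist_le_pi_dist (h (xx j)) (h 0) 1).trans hd1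
    rw [Real.dist_eq, hq0, sub_zero, hi, abs_of_pos hti] at this
    exact this
  have hlow : tt (ph j) ≤ K' * tt (ph i) := by
    have h1 : dist (h (xx j)) (yy j) ≤ tt (ph i) := by
      rw [dist_pi_le_iff hti.le]
      intro l
      by_cases hl : l = 1
      · subst hl
        simp [hyy, hi, abs_of_pos hti]
      · simp [hyy, Function.update_of_ne hl, hti.le]
    have h2 : dist (g (h (xx j))) (g (yy j)) ≤ K' * tt (ph i) :=
      (hK'.dist_le_mul _ hjW' _ hjW'').trans (by gcongr)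
    have h3 := (dist_le_pi_dist (g (h (xx j))) (g (yy j)) 1).trans h2
    have h4 : g (yy j) 1 ≤ 0 := nonpos_pres hψ hneg hzero H.symm hjV (by simp [hyy])
    rw [H.left_inv _ hjU, Real.dist_eq] at h3
    have h5 : xx j 1 = tt (ph j) := by simp [hxx]
    rw [h5] at h3
    have := le_abs_self (tt (ph j) - g (yy j) 1)
    linarith
  have hK0 : (0 : ℝ) ≤ K := K.2
  have hK0' : (0 : ℝ) ≤ K' := K'.2
  have hij : i = j := by
    rcases lt_trichotomy i j with hlt | heq | hgt
    · exfalso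
      have h1 := tt_gap hlt
      have h2 : (1 / 2 : ℝ) ^ (j - 1) = 2 * (1 / 2) ^ j := by
        obtain ⟨l, rfl⟩ : ∃ l, j = l + 1 := ⟨j - 1, by omega⟩
        simp [pow_succ]
        ring
      rw [h2] at h1
      have h3 : tt (ph i) ≤ K * (2 * (1 / 2) ^ j * tt (ph i)) := hup.trans (by gcongr)
      nlinarith
    · exact heq
    · exfalso
      have h1 := tt_gap' hgt
      have h3 : tt (ph j) ≤ K' * ((1 / 2) ^ j * tt (ph j)) := hlow.trans (by gcongr)
      nlinarith
  subst hij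
  refine ⟨k, ?_⟩
  have h1 := (dist_le_pi_dist (h (xx i)) (h 0) 0).trans hd1
  rw [Real.dist_eq, hk] at h1
  have hm : (0 : ℝ) < 4 ^ NN i := by positivity
  have h2 : 4 ^ NN i * h 0 0 - k = - (4 ^ NN i * ((k : ℝ) / 4 ^ NN i - h 0 0)) := by
    field_simp
    ring
  rw [h2, abs_neg, abs_mul, abs_of_pos hm]
  have h3 := mt_small i
  calc 4 ^ NN i * |(k : ℝ) / 4 ^ NN i - h 0 0| ≤ 4 ^ NN i * (K * tt (ph i)) := by gcongr
    _ = K * (4 ^ NN i * tt (ph i)) := by ring
    _ ≤ K * (1 / 2) ^ i := by gcongr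
    _ < 1 / 3 := by linarith

end

/-- the set of real numbers well approximable along the sequence -/
def GG : Set ℝ := {δ | ∀ᶠ i in atTop, ∃ k : ℤ, |4 ^ NN i * δ - k| < 1 / 3}

lemma not_mem_GG (N : ℕ) (l : ℤ) : ((3 * l + 1 : ℤ) : ℝ) / (3 * 4 ^ N) ∉ GG := by
  intro h
  obtain ⟨i, ⟨k, hk⟩, hi⟩ := (h.and (eventually_ge_atTop N)).exists
  have h1 : N ≤ NN i := hi.trans (NN_mono.id_le i)
  obtain ⟨e, he⟩ := Nat.exists_eq_add_of_le h1
  have h2 : (4 : ℝ) ^ NN i * (((3 * l + 1 : ℤ) : ℝ) / (3 * 4 ^ N)) - k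
      = (((4 ^ e * (3 * l + 1) - 3 * k : ℤ)) : ℝ) / 3 := by
    rw [he, pow_add]
    push_cast
    field_simp
  rw [h2, abs_div, abs_of_pos (show (0 : ℝ) < 3 by norm_num),
    div_lt_div_iff_of_pos_right (by norm_num)] at hk
  have h3 : |(4 ^ e * (3 * l + 1) - 3 * k : ℤ)| < 1 := by exact_mod_cast hk
  have h4 : (4 ^ e * (3 * l + 1) - 3 * k : ℤ) = 0 := Int.abs_lt_one_iff.1 h3
  have h6 : ∀ e : ℕ, ∃ u : ℤ, (4 ^ e : ℤ) = 3 * u + 1 := by
    intro e
    induction e with
    | zero => exact ⟨0, by norm_num⟩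
    | succ e ih =>
      obtain ⟨u, hu⟩ := ih
      exact ⟨4 * u + 1, by rw [pow_succ, hu]; ring⟩
  obtain ⟨u, hu⟩ := h6 e
  rw [hu] at h4
  have h7 : (3 * (3 * u * l + u + l - k) + 1 : ℤ) = 0 := by linear_combination h4
  omega

lemma exists_not_mem_GG {a b : ℝ} (hab : a < b) : ∃ c, a < c ∧ c < b ∧ c ∉ GG := by
  obtain ⟨N, hN⟩ := exists_pow_lt_of_lt_one (show 0 < (b - a) / 2 by linarith)
    (show (1 / 4 : ℝ) < 1 by norm_num)
  have hm : (0 : ℝ) < 4 ^ N := by positivity
  set l : ℤ := ⌈a * 4 ^ N⌉ with hl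
  have h1 := Int.le_ceil (a * 4 ^ N)
  have h2 := Int.ceil_lt_add_one (a * 4 ^ N)
  rw [← hl] at h1 h2
  have h3 : 2 < (b - a) * 4 ^ N := by
    rw [one_div, inv_pow, inv_eq_one_div, div_lt_div_iff₀ hm (by norm_num)] at hN
    linarith
  refine ⟨_, ?_, ?_, not_mem_GG N l⟩
  · rw [lt_div_iff₀ (by positivity)]
    push_cast
    nlinarith
  · rw [div_lt_iff₀ (by positivity)]
    push_cast
    nlinarith

lemma countable_of_GG {N : Type*} [TopologicalSpace N] [LocallyConnectedSpace N]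
    [TopologicalSpace.SeparableSpace N] (f : N → ℝ) (hf : Continuous f) (hG : ∀ y, f y ∈ GG) :
    (range f).Countable := by
  have hlc : ∀ y z, z ∈ connectedComponent y → f z = f y := by
    intro y z hz
    have h1 : IsPreconnected (f '' connectedComponent y) :=
      isPreconnected_connectedComponent.image f hf.continuousOn
    have h2 := h1.ordConnected
    have hy : f y ∈ f '' connectedComponent y := mem_image_of_mem f mem_connectedComponent
    have hz' : f z ∈ f '' connectedComponent y := mem_image_of_mem f hz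
    rcases lt_trichotomy (f z) (f y) with h | h | h
    · obtain ⟨c, h3, h4, h5⟩ := exists_not_mem_GG h
      obtain ⟨w, -, hw⟩ := h2.out hz' hy ⟨h3.le, h4.le⟩
      exact absurd (hw ▸ hG w) h5
    · exact h
    · obtain ⟨c, h3, h4, h5⟩ := exists_not_mem_GG h
      obtain ⟨w, -, hw⟩ := h2.out hy hz' ⟨h3.le, h4.le⟩
      exact absurd (hw ▸ hG w) h5
  obtain ⟨D, hDc, hDd⟩ := TopologicalSpace.exists_countable_dense N
  refine (hDc.image f).mono ?_
  rintro _ ⟨y, rfl⟩
  obtain ⟨z, hz, hzD⟩ := hDd.inter_open_nonempty (connectedComponent y)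
    isOpen_connectedComponent ⟨y, mem_connectedComponent⟩
  exact ⟨z, hzD, hlc y z hz⟩

open Classical in
/-- spread a binary sequence over the places `N i` -/
noncomputable def spread (ε : ℕ → Bool) (n : ℕ) : Bool :=
  if h : ∃ i, NN i = n then ε (Classical.choose h) else false

lemma spread_NN (ε : ℕ → Bool) (i : ℕ) : spread ε (NN i) = ε i := by
  have h : ∃ j, NN j = NN i := ⟨i, rfl⟩
  unfold spread
  rw [dif_pos h]
  congr 1
  exact NN_mono.injective (Classical.choose_spec h)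

lemma spread_gap (ε : ℕ → Bool) (i n : ℕ) (h1 : NN i < n) (h2 : n < NN (i + 1)) :
    spread ε n = false := by
  unfold spread
  rw [dif_neg]
  rintro ⟨j, rfl⟩
  have h3 := NN_mono.lt_iff_lt.1 h1
  have h4 := NN_mono.lt_iff_lt.1 h2
  omega

noncomputable def del (ε : ℕ → Bool) : ℝ := Cardinal.cantorFunction (1 / 4) (spread ε)

lemma del_injective : Function.Injective del := by
  intro ε ε' h
  have h1 := Cardinal.cantorFunction_injective (c := 1 / 4) (by norm_num) (by norm_num) h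
  funext i
  rw [← spread_NN ε i, ← spread_NN ε' i, h1]

lemma del_approx (ε : ℕ → Bool) (i : ℕ) :
    ∃ k : ℤ, |(k : ℝ) / 4 ^ NN i - del ε| ≤ AA (ph i) i := by
  set f := spread ε with hf
  set a : ℕ → ℝ := Cardinal.cantorFunctionAux (1 / 4) f with ha
  have hs : Summable a := Cardinal.summable_cantor_function f (by norm_num) (by norm_num)
  have ha0 : ∀ n, 0 ≤ a n := fun n => Cardinal.cantorFunctionAux_nonneg (by norm_num)
  have ha1 : ∀ n, a n ≤ (1 / 4) ^ n := by
    intro n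
    rw [ha]
    unfold Cardinal.cantorFunctionAux
    cases f n
    · simp
    · simp
  have hd : del ε = ∑ n ∈ Finset.range (NN (i + 1)), a n + ∑' n, a (n + NN (i + 1)) :=
    (hs.sum_add_tsum_nat_add _).symm
  have hint : ∀ n, ∃ z : ℤ, n < NN (i + 1) → a n = z / 4 ^ NN i := by
    intro n
    by_cases hn : n ≤ NN i
    · obtain ⟨e, he⟩ := Nat.exists_eq_add_of_le hn
      by_cases hfn : f n = true
      · refine ⟨4 ^ e, fun _ => ?_⟩
        rw [ha, Cardinal.cantorFunctionAux_true hfn, he, pow_add]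
        push_cast
        field_simp
        rw [← mul_pow]
        norm_num
      · refine ⟨0, fun _ => ?_⟩
        rw [ha, Cardinal.cantorFunctionAux_false (by simpa using hfn)]
        simp
    · refine ⟨0, fun h => ?_⟩
      rw [ha, Cardinal.cantorFunctionAux_false (spread_gap ε i n (by omega) h)]
      simp
  choose z hz using hint
  refine ⟨∑ n ∈ Finset.range (NN (i + 1)), z n, ?_⟩
  have h1 : ∑ n ∈ Finset.range (NN (i + 1)), a n
      = ((∑ n ∈ Finset.range (NN (i + 1)), z n : ℤ) : ℝ) / 4 ^ NN i := by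
    push_cast
    rw [Finset.sum_div]
    exact Finset.sum_congr rfl fun n hn => hz n (Finset.mem_range.1 hn)
  rw [hd, h1]
  have h2 : 0 ≤ ∑' n, a (n + NN (i + 1)) := tsum_nonneg fun n => ha0 _
  have hg : Summable fun n : ℕ => (1 / 4 : ℝ) ^ n :=
    summable_geometric_of_lt_one (by norm_num) (by norm_num)
  have h3 : ∑' n, a (n + NN (i + 1)) ≤ ∑' n : ℕ, (1 / 4 : ℝ) ^ n * (1 / 4) ^ NN (i + 1) := by
    refine Summable.tsum_le_tsum (fun n => ?_) ((summable_nat_add_iff _).2 hs) (hg.mul_right _)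
    rw [← pow_add]
    exact ha1 _
  rw [tsum_mul_right, tsum_geometric_of_lt_one (by norm_num) (by norm_num)] at h3
  have h4 := NN_small i
  have h5 : (0 : ℝ) ≤ (1 / 4) ^ NN (i + 1) := by positivity
  rw [sub_add_cancel_left, abs_neg, abs_of_nonneg h2]
  norm_num at h3 h4 h5 ⊢
  linarith

universe u

theorem main : ∃ (S : CRStructure 5 1) (p : Fin 5 → ℝ),
    ∀ (N : Type u) [TopologicalSpace N] [LocallyConnectedSpace N]
      [TopologicalSpace.SeparableSpace N] (ι : N → (Fin 5 → ℝ)),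
      Continuous ι → Set.range ι ≠ S.orbit p := by
  obtain ⟨ψ, hψ, hneg, hzero, hlat, hsh⟩ := exists_psi2
  refine ⟨SS hψ, 0, fun N _ _ _ ι hι hr => ?_⟩
  have hc := countable_of_GG (fun y => ι y 0) ((continuous_apply 0).comp hι) (fun y =>
    orbit_approx hψ hneg hzero hlat (hr ▸ mem_range_self y))
  have hsub : range del ⊆ range fun y => ι y 0 := by
    rintro _ ⟨ε, rfl⟩
    obtain ⟨η, hη, hη0, hinv⟩ := hsh (del ε) (del_approx ε)
    have h1 : Phi ψ η 0 0 0 0 ∈ (SS hψ).orbit 0 :=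
      ⟨univ, univ, _, _, Phi_isCR hψ hη hinv 0 0 0, mem_univ _, rfl⟩
    rw [← hr] at h1
    obtain ⟨y, hy⟩ := h1
    refine ⟨y, ?_⟩
    simp [hy, Phi, hη0]
  have h2 : (range del).Countable := hc.mono hsub
  have h3 : (univ : Set (ℕ → Bool)).Countable := by
    refine Set.countable_of_injective_of_countable_image (f := del) del_injective.injOn ?_
    rwa [image_univ]
  obtain ⟨F, hF⟩ := h3.exists_eq_range univ_nonempty
  have h4 : (fun n => !(F n n)) ∈ range F := hF ▸ mem_univ _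
  obtain ⟨n, hn⟩ := h4
  have h5 := congrFun hn n
  simp at h5

end Pool.Agent.H402Z.CROrbit
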