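import Mathlib

/-!
Star-finite coverings of Banach spaces by closed balls: local structure near a generic singular
point.
-/

set_option autoImplicit false

open Metric Set

namespace Pool.Agent.H402Z.StarFinite

variable {E : Type*} [NormedAddCommGroup E] [NormedSpace ℝ E] {ι : Type*}

/-- A star-finite covering by closed balls of positive radius. -/
structure Cover (c : ι → E) (r : ι → ℝ) : Prop where
  pos : ∀ i, 0 < r i
  cov : ∀ p, ∃ i, p ∈ closedBall (c i) (r i)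
  star : ∀ i, {j | (closedBall (c i) (r i) ∩ closedBall (c j) (r j)).Nonempty}.Finite

/-- Singular points. -/
def Sing (c : ι → E) (r : ι → ℝ) : Set E :=
  {p | ∀ ε > 0, {i | (closedBall (c i) (r i) ∩ ball p ε).Nonempty}.Infinite}

variable {c : ι → E} {r : ι → ℝ}

omit [NormedSpace ℝ E] in
theorem Cover.pt_finite (h : Cover c r) (p : E) : {i | p ∈ closedBall (c i) (r i)}.Finite := by
  obtain ⟨i, hi⟩ := h.cov p
  exact (h.star i).subset fun j hj => ⟨p, hi, hj⟩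

omit [NormedSpace ℝ E] in
theorem Cover.countable [TopologicalSpace.SeparableSpace E] (h : Cover c r) : Countable ι := by
  obtain ⟨S, hSc, hSd⟩ := TopologicalSpace.exists_countable_dense E
  have : (⋃ p ∈ S, {i | p ∈ closedBall (c i) (r i)}) = univ := by
    apply eq_univ_of_forall
    intro i
    obtain ⟨p, hp, hpS⟩ := hSd.inter_open_nonempty (ball (c i) (r i)) isOpen_ball
      ⟨c i, mem_ball_self (h.pos i)⟩
    exact mem_biUnion hpS (ball_subset_closedBall hp)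
  have hc : (univ : Set ι).Countable := by
    rw [← this]
    exact hSc.biUnion fun p _ => (h.pt_finite p).countable
  exact countable_univ_iff.mp hc

omit [NormedSpace ℝ E] in
theorem isClosed_sing (c : ι → E) (r : ι → ℝ) : IsClosed (Sing c r) := by
  rw [← isOpen_compl_iff, Metric.isOpen_iff]
  intro p hp
  simp only [Sing, mem_compl_iff, mem_ofPred_eq, not_forall] at hp
  obtain ⟨ε, hε, hfin⟩ := hp
  refine ⟨ε / 2, by linarith, fun q hq hqs => hfin ?_⟩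
  refine (hqs (ε / 2) (by linarith)).mono ?_
  rintro i ⟨y, hy1, hy2⟩
  refine ⟨y, hy1, ?_⟩
  rw [mem_ball] at *
  linarith [dist_triangle y q p]

omit [NormedSpace ℝ E] in
/-- A point outside finitely many closed balls has a neighbourhood missing them. -/
theorem exists_ball_avoid (T : Set ι) (hT : T.Finite) (p : E) :
    ∃ ε > 0, ∀ j ∈ T, (closedBall (c j) (r j) ∩ ball p ε).Nonempty →
      p ∈ closedBall (c j) (r j) := by
  have hcl : IsClosed (⋃ j ∈ {j ∈ T | p ∉ closedBall (c j) (r j)}, closedBall (c j) (r j)) :=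
    (hT.subset fun j hj => hj.1).isClosed_biUnion fun j _ => isClosed_closedBall
  have hp : p ∈ (⋃ j ∈ {j ∈ T | p ∉ closedBall (c j) (r j)}, closedBall (c j) (r j))ᶜ := by
    simp only [mem_compl_iff, mem_iUnion, not_exists]
    intro j hj hpj
    exact hj.2 hpj
  obtain ⟨ε, hε, hsub⟩ := Metric.isOpen_iff.mp hcl.isOpen_compl p hp
  refine ⟨ε, hε, fun j hj ⟨y, hy1, hy2⟩ => ?_⟩
  by_contra hpj
  exact hsub hy2 (mem_biUnion (show j ∈ {j ∈ T | p ∉ closedBall (c j) (r j)} from ⟨hj, hpj⟩) hy1)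

omit [NormedSpace ℝ E] in
theorem Cover.local_nhds (h : Cover c r) {p : E} (hp : p ∉ Sing c r) :
    ∃ ε > 0, ∀ q ∈ ball p ε, ∃ j, p ∈ closedBall (c j) (r j) ∧ q ∈ closedBall (c j) (r j) := by
  simp only [Sing, mem_ofPred_eq, not_forall] at hp
  obtain ⟨ε, hε, hfin⟩ := hp
  rw [not_infinite] at hfin
  obtain ⟨ε', hε', hav⟩ := exists_ball_avoid (c := c) (r := r) _ hfin p
  refine ⟨min ε ε', lt_min hε hε', fun q hq => ?_⟩
  obtain ⟨j, hj⟩ := h.cov q
  refine ⟨j, hav j ⟨q, hj, ball_subset_ball (min_le_left _ _) hq⟩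
    ⟨q, hj, ball_subset_ball (min_le_right _ _) hq⟩, hj⟩

omit [NormedSpace ℝ E] in
/-- Clopen argument. -/
theorem clopen_arg {A C : Set E} (hA : IsPreconnected A) (hC : IsClosed C)
    (hop : ∀ p ∈ A, p ∈ C → p ∈ interior C) (hne : (A ∩ C).Nonempty) : A ⊆ C := by
  have := IsPreconnected.subset_left_of_subset_union (s := A) (u := interior C) (v := Cᶜ)
    isOpen_interior hC.isOpen_compl
    (disjoint_compl_right.mono_left interior_subset)
    (fun p hp => by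
      by_cases hpC : p ∈ C
      · exact Or.inl (hop p hp hpC)
      · exact Or.inr hpC)
    (by
      obtain ⟨p, hp, hpC⟩ := hne
      exact ⟨p, hp, hop p hp hpC⟩) hA
  exact this.trans interior_subset

/-- Lemma W: a weak neighbourhood of `z` inside `U` is covered by the balls through `z`. -/
theorem Cover.weak_nhds (h : Cover c r) {U : Set E} (hU : Convex ℝ U) {z : E} (hz : z ∈ U)
    (hns : ∀ i, z ∈ closedBall (c i) (r i) → ∀ p ∈ closedBall (c i) (r i), p ∈ U →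
      p ∉ Sing c r) :
    ∃ (F : Finset (E →L[ℝ] ℝ)) (μ : ℝ), 0 < μ ∧ ∀ p ∈ U, (∀ f ∈ F, |f (p - z)| < μ) →
      ∃ i, z ∈ closedBall (c i) (r i) ∧ p ∈ closedBall (c i) (r i) := by
  classical
  set N : Set ι := ⋃ i ∈ {i | z ∈ closedBall (c i) (r i)},
    {j | (closedBall (c i) (r i) ∩ closedBall (c j) (r j)).Nonempty} with hN
  have hNf : N.Finite := (h.pt_finite z).biUnion fun i _ => h.star i
  obtain ⟨μ, hμ, hav⟩ := exists_ball_avoid (c := c) (r := r) N hNf z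
  choose f hf1 hf2 using fun j : ι => exists_dual_vector'' ℝ (c j - z)
  -- margin
  have hmar : ∀ j ∈ N, z ∉ closedBall (c j) (r j) → r j + μ ≤ ‖c j - z‖ := by
    intro j hj hzj
    have hd : Disjoint (closedBall (c j) (r j)) (ball z μ) := by
      rw [Set.disjoint_iff_inter_eq_empty]
      by_contra hne
      exact hzj (hav j hj (nonempty_iff_ne_empty.mpr hne))
    have := (disjoint_closedBall_ball_iff (h.pos j).le hμ).mp hd
    rwa [dist_eq_norm] at this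
  refine ⟨hNf.toFinset.image f, μ, hμ, ?_⟩
  set A : Set E := {p ∈ U | ∀ j ∈ N, |f j (p - z)| < μ} with hA
  have hAc : Convex ℝ A := by
    have : A = U ∩ ⋂ j ∈ N, (fun p => f j (p - z)) ⁻¹' Ioo (-μ) μ := by
      ext p
      simp only [hA, mem_ofPred_eq, mem_inter_iff, mem_iInter, mem_preimage, mem_Ioo, abs_lt]
    rw [this]
    refine hU.inter (convex_iInter₂ fun j _ => ?_)
    intro x hx y hy a b ha hb hab
    simp only [mem_preimage] at hx hy ⊢
    have e : f j (a • x + b • y - z) = a • f j (x - z) + b • f j (y - z) := by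
      have : a • x + b • y - z = a • (x - z) + b • (y - z) := by
        have hz' : z = (a + b) • z := by rw [hab, one_smul]
        rw [smul_sub, smul_sub]
        nth_rewrite 1 [hz']
        rw [add_smul]; abel
      rw [this, map_add, map_smul, map_smul]
    rw [e]
    exact convex_Ioo _ _ hx hy ha hb hab
  set C : Set E := ⋃ i ∈ {i | z ∈ closedBall (c i) (r i)}, closedBall (c i) (r i) with hC
  have hCc : IsClosed C := (h.pt_finite z).isClosed_biUnion fun j _ => isClosed_closedBall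
  have hzA : z ∈ A := ⟨hz, fun j _ => by simpa using hμ⟩
  have hAC : A ⊆ C := by
    refine clopen_arg hAc.isPreconnected hCc ?_ ?_
    · intro p hp hpC
      obtain ⟨i, hi, hpi⟩ := mem_iUnion₂.mp hpC
      obtain ⟨ε, hε, hloc⟩ := h.local_nhds (hns i hi p hpi hp.1)
      refine mem_interior.mpr ⟨ball p ε, fun q hq => ?_, isOpen_ball, mem_ball_self hε⟩
      obtain ⟨j, hpj, hqj⟩ := hloc q hq
      have hjN : j ∈ N := mem_biUnion hi ⟨p, hpi, hpj⟩
      refine mem_biUnion (show j ∈ {i | z ∈ closedBall (c i) (r i)} from ?_) hqj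
      by_contra hzj
      have h1 := hmar j hjN hzj
      have h2 := hp.2 j hjN
      have h3 : f j (c j - p) ≤ r j := by
        have : f j (c j - p) ≤ ‖f j‖ * ‖c j - p‖ := (le_abs_self _).trans ((f j).le_opNorm _)
        have h4 : ‖c j - p‖ ≤ r j := by
          rw [mem_closedBall, dist_comm, dist_eq_norm] at hpj; exact hpj
        nlinarith [hf1 j, norm_nonneg (c j - p), norm_nonneg (f j)]
      have h5 : f j (c j - z) = f j (c j - p) + f j (p - z) := by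
        rw [← map_add]; congr 1; abel
      have h6 : f j (c j - z) = ‖c j - z‖ := by simpa using hf2 j
      have := (abs_lt.mp h2).2
      linarith
    · obtain ⟨i, hi⟩ := h.cov z
      exact ⟨z, hzA, mem_biUnion hi hi⟩
  intro p hp hF
  have hpA : p ∈ A := ⟨hp, fun j hj => hF _ (Finset.mem_image_of_mem _ (hNf.mem_toFinset.mpr hj))⟩
  obtain ⟨i, hi, hpi⟩ := mem_iUnion₂.mp (hAC hpA)
  exact ⟨i, hi, hpi⟩

theorem ker_infinite (hinf : ¬ FiniteDimensional ℝ E) (F : Finset (E →L[ℝ] ℝ)) :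
    ¬ FiniteDimensional ℝ
      (LinearMap.ker (LinearMap.pi fun f : F => ((f : E →L[ℝ] ℝ) : E →ₗ[ℝ] ℝ))) := by
  intro hfin
  apply hinf
  set L := (LinearMap.pi fun f : F => ((f : E →L[ℝ] ℝ) : E →ₗ[ℝ] ℝ)) with hL
  have h1 : FiniteDimensional ℝ (E ⧸ LinearMap.ker L) :=
    LinearEquiv.finiteDimensional (L.quotKerEquivRange).symm
  exact Module.Finite.of_submodule_quotient (LinearMap.ker L)

/-- A finite family of balls covering a finite-codimensional disc contains a large ball. -/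
theorem exists_big (hinf : ¬ FiniteDimensional ℝ E) (F : Finset (E →L[ℝ] ℝ)) {z : E} {t : ℝ}
    (ht : 0 < t) {J : Set ι} (hJ : J.Finite)
    (hcov : ∀ p ∈ ball z t, (∀ f ∈ F, f (p - z) = 0) → ∃ i ∈ J, p ∈ closedBall (c i) (r i)) :
    ∃ i ∈ J, t / 6 ≤ r i := by
  obtain ⟨y, hy1, hy2⟩ := exists_seq_norm_le_one_le_norm_sub' (𝕜 := ℝ) (c := (3 / 2 : ℝ))
    (by rw [Real.norm_eq_abs, abs_of_pos (by norm_num)]; norm_num) (R := 2)
    (by rw [Real.norm_eq_abs, abs_of_pos (by norm_num)]; norm_num) (ker_infinite hinf F)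
  have key : ∀ n, ∃ i ∈ J, z + (t / 3) • (y n : E) ∈ closedBall (c i) (r i) := by
    intro n
    apply hcov
    · rw [mem_ball, dist_eq_norm, add_sub_cancel_left, norm_smul, Real.norm_eq_abs,
        abs_of_pos (by linarith)]
      have : ‖(y n : E)‖ ≤ 2 := hy1 n
      nlinarith
    · intro f hf
      have := (y n).2
      rw [LinearMap.mem_ker] at this
      have h2 := congrFun this ⟨f, hf⟩
      simp only [LinearMap.pi_apply, ContinuousLinearMap.coe_coe, Pi.zero_apply] at h2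
      rw [add_sub_cancel_left, map_smul, h2, smul_zero]
  choose g hgJ hg using key
  have : Finite J := hJ
  obtain ⟨m, n, hmn, hg'⟩ := Finite.exists_ne_map_eq_of_infinite
    (fun n => (⟨g n, hgJ n⟩ : J))
  have hgmn : g m = g n := congrArg Subtype.val hg'
  refine ⟨g m, hgJ m, ?_⟩
  have h1 := hg m
  have h2 := hg n
  rw [← hgmn] at h2
  have h3 : dist (z + (t / 3) • (y m : E)) (z + (t / 3) • (y n : E)) ≤ r (g m) + r (g m) := by
    rw [mem_closedBall] at h1 h2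
    linarith [dist_triangle_right (z + (t / 3) • (y m : E)) (z + (t / 3) • (y n : E)) (c (g m))]
  rw [dist_eq_norm, add_sub_add_left_eq_sub, ← smul_sub, norm_smul, Real.norm_eq_abs,
    abs_of_pos (by linarith)] at h3
  have h4 : 1 ≤ ‖(y m : E) - (y n : E)‖ := by
    have := hy2 hmn
    simpa using this
  nlinarith

theorem Cover.sing_nonempty (h : Cover c r) (hinf : ¬ FiniteDimensional ℝ E) :
    (Sing c r).Nonempty := by
  by_contra hne
  rw [not_nonempty_iff_eq_empty] at hne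
  obtain ⟨F, μ, hμ, hF⟩ := h.weak_nhds (U := univ) convex_univ (z := 0) (mem_univ _)
    (fun i _ p _ _ => by rw [hne]; exact notMem_empty p)
  obtain ⟨M, hM⟩ := ((h.pt_finite 0).image r).bddAbove
  obtain ⟨i, hi, hir⟩ := exists_big (c := c) (r := r) hinf F (z := 0) (t := 6 * (|M| + 1))
    (by positivity) (h.pt_finite 0) (fun p _ hp => by
      obtain ⟨i, h1, h2⟩ := hF p (mem_univ _) (fun f hf => by rw [hp f hf]; simpa using hμ)
      exact ⟨i, h1, h2⟩)
  have := hM (mem_image_of_mem r hi)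
  linarith [le_abs_self M]

/-- Baire category: a singular point near which all singular points lie in one ball. -/
theorem Cover.generic [CompleteSpace E] [TopologicalSpace.SeparableSpace E] (h : Cover c r)
    (hinf : ¬ FiniteDimensional ℝ E) :
    ∃ i x ρ, 0 < ρ ∧ x ∈ Sing c r ∧ ∀ p ∈ ball x ρ, p ∈ Sing c r →
      p ∈ closedBall (c i) (r i) := by
  have := h.countable
  have : CompleteSpace (Sing c r) := (isClosed_sing c r).completeSpace_coe
  have : Nonempty (Sing c r) := (h.sing_nonempty hinf).to_subtype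
  obtain ⟨i, x, hx⟩ := nonempty_interior_of_iUnion_of_closed
    (f := fun i : ι => ((↑) : Sing c r → E) ⁻¹' closedBall (c i) (r i))
    (fun i => isClosed_closedBall.preimage continuous_subtype_val)
    (eq_univ_of_forall fun p => by
      obtain ⟨i, hi⟩ := h.cov p
      exact mem_iUnion.mpr ⟨i, hi⟩)
  obtain ⟨ρ, hρ, hsub⟩ := Metric.mem_nhds_iff.mp (mem_interior_iff_mem_nhds.mp hx)
  exact ⟨i, x, ρ, hρ, x.2, fun p hp hps => hsub (show (⟨p, hps⟩ : Sing c r) ∈ ball x ρ from hp)⟩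

/-- Local structure: on a radial cone over a small ball, outside the ball `K = B (c i₀) (r i₀)`,
all balls miss `K` and the balls through a point cover a weak neighbourhood of fixed size. -/
theorem Cover.local_structure [CompleteSpace E] [TopologicalSpace.SeparableSpace E]
    (h : Cover c r) (hinf : ¬ FiniteDimensional ℝ E) :
    ∃ (i₀ : ι) (w₀ : E) (ν δ : ℝ), 0 < ν ∧ 0 < δ ∧ ∀ w ∈ ball w₀ ν, r i₀ < ‖w‖ ∧
      ∀ t : ℝ, t ≤ 1 → r i₀ < t * ‖w‖ →
        (∀ i, c i₀ + t • w ∈ closedBall (c i) (r i) → r i + r i₀ < ‖c i - c i₀‖) ∧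
        ∃ (F : Finset (E →L[ℝ] ℝ)) (μ : ℝ), 0 < μ ∧ ∀ p ∈ ball (c i₀ + t • w) δ,
          (∀ f ∈ F, |f (p - (c i₀ + t • w))| < μ) →
            ∃ i, c i₀ + t • w ∈ closedBall (c i) (r i) ∧ p ∈ closedBall (c i) (r i) := by
  obtain ⟨i₀, x, ρ₀, hρ₀, hx, hgen⟩ := h.generic hinf
  have hxK : x ∈ closedBall (c i₀) (r i₀) := hgen x (mem_ball_self hρ₀) hx
  set N : Set ι := ⋃ i ∈ {j | (closedBall (c i₀) (r i₀) ∩ closedBall (c j) (r j)).Nonempty},
    {j | (closedBall (c i) (r i) ∩ closedBall (c j) (r j)).Nonempty} with hN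
  have hNf : N.Finite := (h.star i₀).biUnion fun i _ => h.star i
  obtain ⟨ρ₁, hρ₁, hav⟩ := exists_ball_avoid (c := c) (r := r) N hNf x
  set ρ := min ρ₀ ρ₁ with hρdef
  have hρ : 0 < ρ := lt_min hρ₀ hρ₁
  have hU0 : ball x ρ ⊆ ball x ρ₀ := ball_subset_ball (min_le_left _ _)
  have hU1 : ball x ρ ⊆ ball x ρ₁ := ball_subset_ball (min_le_right _ _)
  set C : Set E := ⋃ i ∈ {i | x ∈ closedBall (c i) (r i)}, closedBall (c i) (r i) with hC
  have hCc : IsClosed C := (h.pt_finite x).isClosed_biUnion fun j _ => isClosed_closedBall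
  have hKC : closedBall (c i₀) (r i₀) ⊆ C := fun p hp => mem_biUnion hxK hp
  -- balls meeting `C` are in `N`
  have hCN : ∀ j p, p ∈ C → p ∈ closedBall (c j) (r j) → j ∈ N := by
    intro j p hp hpj
    obtain ⟨i, hi, hpi⟩ := mem_iUnion₂.mp hp
    exact mem_biUnion (show i ∈ {j | (closedBall (c i₀) (r i₀) ∩ closedBall (c j) (r j)).Nonempty}
      from ⟨x, hxK, hi⟩) ⟨p, hpi, hpj⟩
  have hint : ∀ p ∈ ball x ρ, p ∉ closedBall (c i₀) (r i₀) → p ∈ C → p ∈ interior C := by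
    intro p hp hpK hpC
    obtain ⟨ε, hε, hloc⟩ := h.local_nhds (fun hs => hpK (hgen p (hU0 hp) hs))
    refine mem_interior.mpr ⟨ball p ε, fun q hq => ?_, isOpen_ball, mem_ball_self hε⟩
    obtain ⟨j, hpj, hqj⟩ := hloc q hq
    exact mem_biUnion (show j ∈ {i | x ∈ closedBall (c i) (r i)} from
      hav j (hCN j p hpC hpj) ⟨p, hpj, hU1 hp⟩) hqj
  -- a point outside `C` near `x`
  have hne : ∃ p₀ ∈ ball x (ρ / 8), p₀ ∉ C := by
    by_contra hcon
    push Not at hcon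
    refine hx (ρ / 8) (by linarith) (hNf.subset ?_)
    rintro j ⟨p, hpj, hp⟩
    exact hCN j p (hcon p hp) hpj
  obtain ⟨p₀, hp₀, hp₀C⟩ := hne
  obtain ⟨ν, hν, hνsub⟩ := Metric.isOpen_iff.mp (isOpen_ball.inter hCc.isOpen_compl) p₀
    ⟨hp₀, hp₀C⟩
  refine ⟨i₀, p₀ - c i₀, ν, ρ / 2, hν, by linarith, fun w hw => ?_⟩
  have hw' : c i₀ + w ∈ ball p₀ ν := by
    rw [mem_ball, dist_eq_norm] at hw ⊢
    convert hw using 2; abel
  obtain ⟨hw1, hw2⟩ := hνsub hw'
  have hrw : r i₀ < ‖w‖ := by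
    by_contra hle
    apply hw2
    apply hKC
    rw [mem_closedBall, dist_eq_norm, add_sub_cancel_left]
    linarith
  have hwle : ‖w‖ < r i₀ + ρ / 8 := by
    rw [mem_ball, dist_eq_norm] at hw1
    rw [mem_closedBall, dist_eq_norm] at hxK
    have : w = (c i₀ + w - x) + (x - c i₀) := by abel
    have h2 := norm_add_le (c i₀ + w - x) (x - c i₀)
    rw [← this] at h2
    linarith
  have hri := h.pos i₀
  -- points on the radial segment
  have hseg : ∀ t : ℝ, t ≤ 1 → r i₀ < t * ‖w‖ →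
      c i₀ + t • w ∈ ball x (ρ / 4) ∧ c i₀ + t • w ∉ closedBall (c i₀) (r i₀) := by
    intro t ht1 ht2
    have ht0 : 0 < t := by
      by_contra hn
      nlinarith [norm_nonneg w]
    constructor
    · rw [mem_ball, dist_eq_norm] at hw1 ⊢
      have : c i₀ + t • w - x = (c i₀ + w - x) - (1 - t) • w := by
        rw [sub_smul, one_smul]; abel
      have h2 := norm_sub_le (c i₀ + w - x) ((1 - t) • w)
      rw [← this, norm_smul, Real.norm_eq_abs, abs_of_nonneg (by linarith)] at h2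
      nlinarith
    · rw [mem_closedBall, dist_eq_norm, add_sub_cancel_left, norm_smul, Real.norm_eq_abs,
        abs_of_pos ht0]
      linarith
  refine ⟨hrw, fun t ht1 ht2 => ?_⟩
  have hzC : c i₀ + t • w ∉ C := by
    intro hzC
    have hA : IsPreconnected ((fun s : ℝ => c i₀ + s • w) '' Icc t 1) :=
      isPreconnected_Icc.image _ (by fun_prop)
    have := clopen_arg hA hCc (by
      rintro p ⟨s, hs, rfl⟩ hpC
      have := hseg s hs.2 (by nlinarith [hs.1, norm_nonneg w])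
      exact hint _ (ball_subset_ball (by linarith) this.1) this.2 hpC)
      ⟨_, ⟨t, ⟨le_rfl, ht1⟩, rfl⟩, hzC⟩
    apply hw2
    have h1 := this ⟨1, ⟨ht1, le_rfl⟩, rfl⟩
    simpa using h1
  obtain ⟨hz1, hz2⟩ := hseg t ht1 ht2
  have hzU : c i₀ + t • w ∈ ball x ρ := ball_subset_ball (by linarith) hz1
  have hdis : ∀ i, c i₀ + t • w ∈ closedBall (c i) (r i) →
      Disjoint (closedBall (c i) (r i)) (closedBall (c i₀) (r i₀)) := by
    intro i hi
    rw [Set.disjoint_left]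
    intro p hpi hpK
    apply hzC
    exact mem_biUnion (show i ∈ {i | x ∈ closedBall (c i) (r i)} from
      hav i (hCN i p (hKC hpK) hpi) ⟨_, hi, hU1 hzU⟩) hi
  refine ⟨fun i hi => ?_, ?_⟩
  · have := (disjoint_closedBall_closedBall_iff (h.pos i).le hri.le).mp (hdis i hi)
    rwa [dist_eq_norm] at this
  · obtain ⟨F, μ, hμ, hF⟩ := h.weak_nhds (U := ball x ρ) (convex_ball _ _) hzU
      (fun i hi p hpi hpU hps => Set.disjoint_left.mp (hdis i hi) hpi (hgen p (hU0 hpU) hps))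
    refine ⟨F, μ, hμ, fun p hp => hF p ?_⟩
    rw [mem_ball] at *
    linarith [dist_triangle p (c i₀ + t • w) x]

/-- A small ball inside a big one, touching a given point. -/
theorem small_ball {a y : E} {R s : ℝ} (hR : 0 < R) (hsR : s ≤ R)
    (hy : y ∈ closedBall a R) :
    closedBall (y + s • (R⁻¹ • (a - y))) s ⊆ closedBall a R := by
  intro q hq
  rw [mem_closedBall, dist_eq_norm] at *
  have e : q - a = (q - (y + s • (R⁻¹ • (a - y)))) + (1 - s * R⁻¹) • (y - a) := by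
    rw [smul_smul, sub_smul, one_smul, smul_sub, smul_sub]; abel
  have h1 : 0 ≤ 1 - s * R⁻¹ := by
    rw [← div_eq_mul_inv, sub_nonneg, div_le_one hR]; exact hsR
  have h2 := norm_add_le (q - (y + s • (R⁻¹ • (a - y)))) ((1 - s * R⁻¹) • (y - a))
  rw [← e, norm_smul, Real.norm_eq_abs, abs_of_nonneg h1] at h2
  have h3 : (1 - s * R⁻¹) * ‖y - a‖ ≤ (1 - s * R⁻¹) * R := mul_le_mul_of_nonneg_left hy h1
  have h4 : (1 - s * R⁻¹) * R = R - s := by field_simp
  linarith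

theorem unit_dir {a y : E} {R : ℝ} (hR : 0 < R) (hy : y ∈ closedBall a R) :
    ‖R⁻¹ • (a - y)‖ ≤ 1 := by
  rw [mem_closedBall, dist_comm, dist_eq_norm] at hy
  rw [norm_smul, Real.norm_eq_abs, abs_of_pos (inv_pos.mpr hR), inv_mul_le_iff₀ hR]
  linarith

theorem exists_pos_lt_finite {T : Set ι} (hT : T.Finite) (d : ι → ℝ) (hd : ∀ j ∈ T, 0 < d j) :
    ∃ ε > 0, ∀ j ∈ T, ε < d j := by
  induction T, hT using Set.Finite.induction_on with
  | empty => exact ⟨1, one_pos, by simp⟩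
  | @insert a s _ _ ih =>
    obtain ⟨ε, hε, h⟩ := ih fun j hj => hd j (mem_insert_of_mem _ hj)
    have ha := hd a (mem_insert _ _)
    refine ⟨min ε (d a / 2), lt_min hε (by linarith), fun j hj => ?_⟩
    rcases hj with rfl | hj
    · exact (min_le_right _ _).trans_lt (by linarith)
    · exact (min_le_left _ _).trans_lt (h j hj)

theorem plus_bound {w u : E} {t σ r₀ ε : ℝ} (hu : ‖u‖ ≤ 1) (ht0 : 0 < t) (ht1 : t ≤ 1)
    (hσ : 0 < σ) (htw : t * ‖w‖ = r₀ + ε) (hplus : σ + r₀ < ‖t • w + σ • u‖) :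
    t * (‖w‖ + σ) - ε ≤ t * ‖w + σ • u‖ := by
  have e : t • w + σ • u = t • (w + σ • u) + ((1 - t) * σ) • u := by
    rw [smul_add, smul_smul, sub_mul, one_mul, sub_smul]; abel
  have h2 := norm_add_le (t • (w + σ • u)) (((1 - t) * σ) • u)
  have h3 : 0 ≤ (1 - t) * σ := mul_nonneg (by linarith) hσ.le
  rw [← e, norm_smul, norm_smul, Real.norm_eq_abs, Real.norm_eq_abs, abs_of_pos ht0,
    abs_of_nonneg h3] at h2
  have h4 := mul_le_mul_of_nonneg_left hu h3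
  linarith

theorem minus_bound {w u : E} {κ σ s τ : ℝ} (hu : ‖u‖ ≤ 1) (hκ0 : 0 < κ) (hκσ : κ * σ ≤ s)
    (hκw : κ * ‖w‖ ≤ s + τ) (hminus : s + s < ‖κ • w - s • u‖) :
    κ * (‖w‖ + σ) - τ ≤ κ * ‖w - σ • u‖ := by
  have e : κ • w - s • u = κ • (w - σ • u) - (s - κ * σ) • u := by
    rw [smul_sub, smul_smul, sub_smul]; abel
  have h2 := norm_sub_le (κ • (w - σ • u)) ((s - κ * σ) • u)
  have h3 : 0 ≤ s - κ * σ := by linarith
  rw [← e, norm_smul, norm_smul, Real.norm_eq_abs, Real.norm_eq_abs, abs_of_pos hκ0,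
    abs_of_nonneg h3] at h2
  have h4 := mul_le_mul_of_nonneg_left hu h3
  linarith

theorem cancel_bound {t A B e k M a : ℝ} (ht : 0 < t) (h : t * A - e ≤ t * B)
    (he : e * M ≤ a * k) (ha : a ≤ t * M) (hk : 0 ≤ k) (hM : 0 < M) : A - k ≤ B := by
  have h0 := mul_le_mul_of_nonneg_right ha hk
  have h1 : e ≤ t * k := le_of_mul_le_mul_right (by linarith) hM
  exact le_of_mul_le_mul_left (by linarith) ht

omit [NormedSpace ℝ E] in
theorem final_contra {w w₁ v : E} {σ γ γ₀ : ℝ} (hσ : 0 < σ) (hγ0 : 0 ≤ γ) (hγ : γ < 2)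
    (hγ₀ : γ₀ ≤ γ) (hv : ‖v‖ ≤ σ) (hp : ‖w‖ + σ - (2 - γ) * σ / 4 ≤ ‖w + v‖)
    (hm : ‖w‖ + σ - (2 - γ) * σ / 4 ≤ ‖w - v‖) (hc : ‖w - w₁‖ ≤ (2 - γ) * σ / 16)
    (hup : ‖w₁ + v‖ + ‖w₁ - v‖ - 2 * ‖w₁‖ ≤ γ₀ * ‖v‖) : False := by
  have h1 : γ₀ * ‖v‖ ≤ γ * ‖v‖ := mul_le_mul_of_nonneg_right hγ₀ (norm_nonneg _)
  have h2 : γ * ‖v‖ ≤ γ * σ := mul_le_mul_of_nonneg_left hv hγ0
  have a1 := norm_add_le (w₁ + v) (w - w₁)
  have a2 := norm_add_le (w₁ - v) (w - w₁)
  have a3 := norm_sub_le w (w - w₁)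
  rw [show w₁ + v + (w - w₁) = w + v by abel] at a1
  rw [show w₁ - v + (w - w₁) = w - v by abel] at a2
  rw [show w - (w - w₁) = w₁ by abel] at a3
  have : 0 < (2 - γ) * σ := mul_pos (by linarith) hσ
  linarith

/-- The geometric core, with the covering abstracted away. -/
theorem core_contra (hpos : ∀ i, 0 < r i)
    (hstar : ∀ i, {j | (closedBall (c i) (r i) ∩ closedBall (c j) (r j)).Nonempty}.Finite)
    {c₀ w₀ w₁ : E} {r₀ ν δ γ₀ η : ℝ} (hr₀ : 0 < r₀) (hν : 0 < ν) (hδ : 0 < δ)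
    (hlow : ∀ w ∈ ball w₀ ν, r₀ < ‖w‖)
    (big : ∀ w ∈ ball w₀ ν, ∀ t : ℝ, t ≤ 1 → r₀ < t * ‖w‖ →
      ∃ i, c₀ + t • w ∈ closedBall (c i) (r i) ∧ δ ≤ r i ∧ r i + r₀ < ‖c i - c₀‖)
    (hw₁ : w₁ ∈ ball w₀ (ν / 2)) (hγ₀ : γ₀ < 2) (hη : 0 < η)
    (hsm : ∀ v : E, ‖v‖ ≤ η → ‖w₁ + v‖ + ‖w₁ - v‖ - 2 * ‖w₁‖ ≤ γ₀ * ‖v‖) : False := by
  obtain ⟨γ, hγ0, hγ2, hγ₀γ⟩ : ∃ γ : ℝ, 0 ≤ γ ∧ γ < 2 ∧ γ₀ ≤ γ :=
    ⟨max γ₀ 0, le_max_right _ _, max_lt hγ₀ (by norm_num), le_max_left _ _⟩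
  obtain ⟨M, hM⟩ : ∃ M : ℝ, ∀ w ∈ ball w₀ ν, ‖w‖ < M := by
    refine ⟨‖w₀‖ + ν, fun w hw => ?_⟩
    rw [mem_ball, dist_eq_norm] at hw
    have := norm_add_le (w - w₀) w₀
    rw [sub_add_cancel] at this
    linarith
  have hw₁' : w₁ ∈ ball w₀ ν := ball_subset_ball (by linarith) hw₁
  have hrw₁ : r₀ < ‖w₁‖ := hlow w₁ hw₁'
  have hw₁M := hM w₁ hw₁'
  have hM0 : 0 < M := by linarith
  obtain ⟨σ, hσ, hση, hσδ, hσr⟩ : ∃ σ > (0 : ℝ), σ ≤ η ∧ σ ≤ δ ∧ σ ≤ r₀ / 2 :=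
    ⟨min (min η δ) (r₀ / 2), by positivity, (min_le_left _ _).trans (min_le_left _ _),
      (min_le_left _ _).trans (min_le_right _ _), min_le_right _ _⟩
  obtain ⟨k, hkdef⟩ : ∃ k, k = (2 - γ) * σ := ⟨_, rfl⟩
  have hk : 0 < k := hkdef ▸ mul_pos (by linarith) hσ
  obtain ⟨s, hs, hsδ, hsν, hsg⟩ : ∃ s > (0 : ℝ), s ≤ δ ∧ s * M ≤ ν / 4 * r₀ ∧
      s * M ≤ k / 16 * r₀ := by
    refine ⟨min (min δ (ν / 4 * r₀ / M)) (k / 16 * r₀ / M), by positivity,
      (min_le_left _ _).trans (min_le_left _ _), ?_, ?_⟩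
    · rw [← le_div_iff₀ hM0]; exact (min_le_left _ _).trans (min_le_right _ _)
    · rw [← le_div_iff₀ hM0]; exact min_le_right _ _
  obtain ⟨τ, hτ, hτs, hτw, hτg⟩ : ∃ τ > (0 : ℝ), τ ≤ s ∧ τ ≤ ‖w₁‖ - r₀ ∧
      τ * M ≤ s / 2 * (k / 4) := by
    have : 0 < ‖w₁‖ - r₀ := by linarith
    refine ⟨min (min s (‖w₁‖ - r₀)) (s / 2 * (k / 4) / M), by positivity,
      (min_le_left _ _).trans (min_le_left _ _), (min_le_left _ _).trans (min_le_right _ _), ?_⟩
    rw [← le_div_iff₀ hM0]; exact min_le_right _ _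
  have hw₁0 : 0 < ‖w₁‖ := by linarith
  obtain ⟨t₁, ht₁w, ht₁0, ht₁1⟩ : ∃ t₁ : ℝ, t₁ * ‖w₁‖ = r₀ + τ ∧ 0 < t₁ ∧ t₁ ≤ 1 :=
    ⟨(r₀ + τ) / ‖w₁‖, by field_simp, by positivity, by rw [div_le_one hw₁0]; linarith⟩
  have ht₁M : r₀ ≤ t₁ * M := by
    have := mul_le_mul_of_nonneg_left hw₁M.le ht₁0.le
    linarith
  obtain ⟨m, hm1, hm2, hm3⟩ := big w₁ hw₁' t₁ ht₁1 (by linarith)
  obtain ⟨um, hum, hzm⟩ : ∃ um : E, ‖um‖ ≤ 1 ∧
      closedBall (c₀ + t₁ • w₁ + s • um) s ⊆ closedBall (c m) (r m) :=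
    ⟨_, unit_dir (hpos m) hm1, small_ball (hpos m) (by linarith) hm1⟩
  obtain ⟨w, hwdef⟩ : ∃ w : E, w = w₁ + (s / t₁) • um := ⟨_, rfl⟩
  have hz : c₀ + t₁ • w₁ + s • um = c₀ + t₁ • w := by
    rw [hwdef, smul_add, smul_smul, mul_div_cancel₀ _ ht₁0.ne', add_assoc]
  rw [hz] at hzm
  have hww₁ : ‖w - w₁‖ * r₀ ≤ s * M := by
    rw [hwdef, add_sub_cancel_left, norm_smul, Real.norm_eq_abs, abs_of_pos (by positivity)]
    have h1 : s / t₁ * ‖um‖ ≤ s / t₁ * 1 := mul_le_mul_of_nonneg_left hum (by positivity)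
    have h2 : s / t₁ * r₀ ≤ s * M := by
      rw [div_mul_eq_mul_div, div_le_iff₀ ht₁0]
      have := mul_le_mul_of_nonneg_left ht₁M hs.le
      linarith
    have := mul_le_mul_of_nonneg_right h1 hr₀.le
    linarith
  have hw : w ∈ ball w₀ ν := by
    have h1 : ‖w - w₁‖ ≤ ν / 4 := le_of_mul_le_mul_right (hww₁.trans hsν) hr₀
    rw [mem_ball, dist_eq_norm] at hw₁ ⊢
    have := norm_add_le (w - w₁) (w₁ - w₀)
    rw [sub_add_sub_cancel] at this
    linarith
  have hclose : ‖w - w₁‖ ≤ k / 16 := le_of_mul_le_mul_right (hww₁.trans hsg) hr₀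
  have hrw : r₀ < ‖w‖ := hlow w hw
  have hw0 : 0 < ‖w‖ := by linarith
  have hwM := hM w hw
  have hKm : Disjoint (closedBall (c m) (r m)) (closedBall c₀ r₀) :=
    closedBall_disjoint_closedBall (by rw [dist_eq_norm]; exact hm3)
  have hR1 : s + r₀ < t₁ * ‖w‖ := by
    have := (disjoint_closedBall_closedBall_iff hs.le hr₀.le).mp (hKm.mono_left hzm)
    rwa [dist_eq_norm, add_sub_cancel_left, norm_smul, Real.norm_eq_abs, abs_of_pos ht₁0] at this
  have hR2 : t₁ * ‖w‖ ≤ r₀ + τ + s := by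
    have h1 : t₁ • w = t₁ • w₁ + s • um := by
      have := hz; rw [add_assoc] at this; exact (add_left_cancel this).symm
    have h2 := norm_add_le (t₁ • w₁) (s • um)
    rw [← h1, norm_smul, norm_smul, norm_smul, Real.norm_eq_abs, Real.norm_eq_abs,
      abs_of_pos ht₁0, abs_of_pos hs] at h2
    have := mul_le_mul_of_nonneg_left hum hs.le
    linarith
  obtain ⟨ε₀, hε₀, hgap⟩ := exists_pos_lt_finite
    (T := {j ∈ {j | (closedBall (c m) (r m) ∩ closedBall (c j) (r j)).Nonempty} |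
      r j + r₀ < ‖c j - c₀‖}) ((hstar m).subset fun j hj => hj.1)
    (fun j => ‖c j - c₀‖ - r j - r₀) (fun j hj => by have := hj.2; linarith)
  obtain ⟨ε, hε, hε1, hεs, hεg⟩ : ∃ ε > (0 : ℝ), ε ≤ ε₀ ∧ ε ≤ s / 2 ∧
      ε * M ≤ r₀ * (k / 4) := by
    refine ⟨min (min ε₀ (s / 2)) (r₀ * (k / 4) / M), by positivity,
      (min_le_left _ _).trans (min_le_left _ _), (min_le_left _ _).trans (min_le_right _ _), ?_⟩
    rw [← le_div_iff₀ hM0]; exact min_le_right _ _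
  obtain ⟨t, htw, ht0⟩ : ∃ t : ℝ, t * ‖w‖ = r₀ + ε ∧ 0 < t :=
    ⟨(r₀ + ε) / ‖w‖, by field_simp, by positivity⟩
  have htt₁ : t < t₁ := lt_of_mul_lt_mul_right (by linarith) hw0.le
  have htM : r₀ ≤ t * M := by
    have := mul_le_mul_of_nonneg_left hwM.le ht0.le
    linarith
  obtain ⟨l, hl1, hl2, hl3⟩ := big w hw t (by linarith) (by linarith)
  have hlm : Disjoint (closedBall (c m) (r m)) (closedBall (c l) (r l)) := by
    rw [Set.disjoint_iff_inter_eq_empty]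
    by_contra hne
    have h1 : ε₀ < ‖c l - c₀‖ - r l - r₀ := hgap l ⟨nonempty_iff_ne_empty.mpr hne, hl3⟩
    have h2 := norm_add_le (c l - (c₀ + t • w)) (t • w)
    have h3 : c l - (c₀ + t • w) + t • w = c l - c₀ := by abel
    rw [h3, norm_smul, Real.norm_eq_abs, abs_of_pos ht0] at h2
    rw [mem_closedBall, dist_comm, dist_eq_norm] at hl1
    linarith
  obtain ⟨u, hu, hb1, hb2⟩ : ∃ u : E, ‖u‖ ≤ 1 ∧
      closedBall (c₀ + t • w + s • u) s ⊆ closedBall (c l) (r l) ∧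
      closedBall (c₀ + t • w + σ • u) σ ⊆ closedBall (c l) (r l) :=
    ⟨_, unit_dir (hpos l) hl1, small_ball (hpos l) (by linarith) hl1,
      small_ball (hpos l) (by linarith) hl1⟩
  have hKl : Disjoint (closedBall (c l) (r l)) (closedBall c₀ r₀) :=
    closedBall_disjoint_closedBall (by rw [dist_eq_norm]; exact hl3)
  have hplus : σ + r₀ < ‖t • w + σ • u‖ := by
    have := (disjoint_closedBall_closedBall_iff hσ.le hr₀.le).mp (hKl.mono_left hb2)
    rwa [dist_eq_norm, add_assoc, add_sub_cancel_left] at this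
  obtain ⟨κ, hκdef⟩ : ∃ κ, κ = t₁ - t := ⟨_, rfl⟩
  have hminus : s + s < ‖κ • w - s • u‖ := by
    have := (disjoint_closedBall_closedBall_iff hs.le hs.le).mp (hlm.mono hzm hb1)
    rwa [dist_eq_norm, show c₀ + t₁ • w - (c₀ + t • w + s • u) = κ • w - s • u by
      rw [hκdef, sub_smul]; abel] at this
  have hκ0 : 0 < κ := by linarith
  have hκw : κ * ‖w‖ = t₁ * ‖w‖ - (r₀ + ε) := by rw [hκdef, sub_mul, htw]
  have hκσ : κ * σ ≤ s := by
    have h1 := mul_le_mul_of_nonneg_left hrw.le hκ0.le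
    have h2 := mul_le_mul_of_nonneg_left hσr hκ0.le
    linarith
  have hκM : s / 2 ≤ κ * M := by
    have := mul_le_mul_of_nonneg_left hwM.le hκ0.le
    linarith
  have hp := plus_bound hu ht0 (by linarith) hσ htw hplus
  have hm' := minus_bound hu hκ0 hκσ (τ := τ) (by linarith) hminus
  have hp' := cancel_bound ht0 hp hεg htM (by linarith) hM0
  have hm'' := cancel_bound hκ0 hm' hτg hκM (by linarith) hM0
  have hnu : ‖σ • u‖ ≤ σ := by
    rw [norm_smul, Real.norm_eq_abs, abs_of_pos hσ]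
    have := mul_le_mul_of_nonneg_left hu hσ.le
    linarith
  rw [hkdef] at hp' hm'' hclose
  exact final_contra hσ hγ0 hγ2 hγ₀γ hnu hp' hm'' hclose (hsm _ (hnu.trans hση))

/-- The case of a norm that is not 2-rough at a dense set of points. -/
theorem Cover.false_of_nonrough [CompleteSpace E] [TopologicalSpace.SeparableSpace E]
    (h : Cover c r) (hinf : ¬ FiniteDimensional ℝ E)
    (hd : Dense {w : E | ∃ γ < (2 : ℝ), ∃ η > (0 : ℝ), ∀ v : E, ‖v‖ ≤ η →
      ‖w + v‖ + ‖w - v‖ - 2 * ‖w‖ ≤ γ * ‖v‖}) : False := by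
  obtain ⟨i₀, w₀, ν, δ, hν, hδ, H⟩ := h.local_structure hinf
  obtain ⟨w₁, hw₁, γ₀, hγ₀, η, hη, hsm⟩ := hd.inter_open_nonempty (ball w₀ (ν / 2)) isOpen_ball
    ⟨w₀, mem_ball_self (by linarith)⟩
  refine core_contra h.pos h.star (c₀ := c i₀) (δ := δ / 6) (h.pos i₀) hν (by linarith)
    (fun w hw => (H w hw).1) ?_ hw₁ hγ₀ hη hsm
  intro w hw t ht1 ht2
  obtain ⟨h1, F, μ, hμ, hF⟩ := (H w hw).2 t ht1 ht2
  obtain ⟨i, hi, hir⟩ := exists_big (c := c) (r := r) hinf F hδ (h.pt_finite (c i₀ + t • w))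
    (fun p hp hf => by
      obtain ⟨i, h1, h2⟩ := hF p hp (fun f hf' => by rw [hf f hf']; simpa using hμ)
      exact ⟨i, h1, h2⟩)
  exact ⟨i, hi, hir, h1 i hi⟩

/-- A Banach space with separable dual has a dense set of points where the norm is not 2-rough. -/
theorem dense_nonrough_of_separable_dual [CompleteSpace E]
    [TopologicalSpace.SeparableSpace (StrongDual ℝ E)] :
    Dense {w : E | ∃ γ < (2 : ℝ), ∃ η > (0 : ℝ), ∀ v : E, ‖v‖ ≤ η →
      ‖w + v‖ + ‖w - v‖ - 2 * ‖w‖ ≤ γ * ‖v‖} := by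
  obtain ⟨S, hSc, hSd⟩ := TopologicalSpace.exists_countable_dense (StrongDual ℝ E)
  have := hSc.to_subtype
  set A : S → Set E := fun ψ =>
    {w | ∃ φ : StrongDual ℝ E, ‖φ‖ ≤ 1 ∧ φ w = ‖w‖ ∧ ‖φ - ψ‖ ≤ 1 / 2} with hA
  have hden := dense_iUnion_interior_of_closed (f := fun ψ => closure (A ψ))
    (fun _ => isClosed_closure) (eq_univ_of_forall fun w => by
      obtain ⟨φ, h1, h2⟩ := exists_dual_vector'' ℝ w
      obtain ⟨ψ, hψ, hψS⟩ := hSd.inter_open_nonempty (ball φ (1 / 2)) isOpen_ball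
        ⟨φ, mem_ball_self (by norm_num)⟩
      refine mem_iUnion.mpr ⟨⟨ψ, hψS⟩, subset_closure ⟨φ, h1, by simpa using h2, ?_⟩⟩
      rw [mem_ball, dist_comm, dist_eq_norm] at hψ
      exact hψ.le)
  refine hden.mono ?_
  intro w hw
  obtain ⟨ψ, hψ⟩ := mem_iUnion.mp hw
  obtain ⟨ρ, hρ, hsub⟩ := Metric.mem_nhds_iff.mp (mem_interior_iff_mem_nhds.mp hψ)
  refine ⟨1, by norm_num, ρ / 2, by linarith, fun v hv => ?_⟩
  have key : ∀ v : E, ‖v‖ ≤ ρ / 2 → ∀ ζ > 0, ∃ φ : StrongDual ℝ E, ‖φ - ψ‖ ≤ 1 / 2 ∧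
      ‖w + v‖ ≤ ‖w‖ + φ v + 2 * ζ := by
    intro v hv ζ hζ
    have hm : w + v ∈ closure (A ψ) := hsub (by
      rw [mem_ball, dist_eq_norm, add_sub_cancel_left]; linarith)
    obtain ⟨a, ⟨φ, h1, h2, h3⟩, ha⟩ := Metric.mem_closure_iff.mp hm ζ hζ
    rw [dist_eq_norm] at ha
    refine ⟨φ, h3, ?_⟩
    have hb : ∀ x : E, |φ x| ≤ ‖x‖ := fun x => by
      have := φ.le_opNorm x
      rw [Real.norm_eq_abs] at this
      have h4 := mul_le_mul_of_nonneg_right h1 (norm_nonneg x)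
      linarith
    have e1 := norm_add_le a (w + v - a)
    rw [add_sub_cancel] at e1
    have e2 : φ a = φ w + φ v - φ (w + v - a) := by rw [map_sub, map_add]; ring
    have e3 := (abs_le.mp (hb w)).2
    have e4 := (abs_le.mp (hb (w + v - a))).1
    linarith
  refine le_of_forall_pos_le_add fun ζ hζ => ?_
  obtain ⟨φ₁, h1, h1'⟩ := key v hv (ζ / 4) (by linarith)
  obtain ⟨φ₂, h2, h2'⟩ := key (-v) (by rwa [norm_neg]) (ζ / 4) (by linarith)
  rw [← sub_eq_add_neg, map_neg] at h2'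
  have e1 : ‖φ₁ - φ₂‖ ≤ 1 := by
    have := norm_sub_le (φ₁ - ψ) (φ₂ - ψ)
    rw [sub_sub_sub_cancel_right] at this
    linarith
  have e2 := (φ₁ - φ₂).le_opNorm v
  rw [Real.norm_eq_abs, sub_apply] at e2
  have e3 := (abs_le.mp (e2.trans (mul_le_mul_of_nonneg_right e1 (norm_nonneg v)))).2
  linarith

theorem two_dir_bound {x y : E} {a b ε : ℝ} (hx : ‖x‖ = 1) (hy : ‖y‖ = 1) (ha : 0 ≤ a)
    (hb : 0 ≤ b) (_hε : 0 ≤ ε) (h : 2 - ε ≤ ‖x + y‖) :
    a + b - ε * (a + b) ≤ ‖a • x + b • y‖ := by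
  have e : (a + b) • (x + y) = (a • x + b • y) + (b • x + a • y) := by
    rw [smul_add, add_smul, add_smul]; abel
  have h1 := norm_add_le (a • x + b • y) (b • x + a • y)
  have h2 := norm_add_le (b • x) (a • y)
  rw [← e, norm_smul, Real.norm_eq_abs, abs_of_nonneg (by linarith)] at h1
  rw [norm_smul, norm_smul, Real.norm_eq_abs, Real.norm_eq_abs, abs_of_nonneg ha,
    abs_of_nonneg hb, hx, hy] at h2
  have h3 := mul_le_mul_of_nonneg_left h (by linarith : 0 ≤ a + b)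
  linarith

/-- One octahedral step. -/
theorem octa_step
    (ho : ∀ s : Finset E, (∀ x ∈ s, ‖x‖ = 1) → ∀ ε > (0 : ℝ), ∃ y : E, ‖y‖ = 1 ∧
      ∀ x ∈ s, 2 - ε ≤ ‖x + y‖) (V : Finset E) {η ε : ℝ} (hη : 0 < η) (hε : 0 < ε) :
    ∃ y : E, ‖y‖ = η ∧ ∀ v ∈ V, ‖v‖ + η - ε ≤ ‖v + y‖ ∧ ‖v‖ + η - ε ≤ ‖v - y‖ := by
  classical
  obtain ⟨B, hB⟩ := (V.finite_toSet.image fun v => ‖v‖).bddAbove
  have hB' : ∀ v ∈ V, ‖v‖ ≤ |B| := fun v hv =>
    (hB (mem_image_of_mem _ (Finset.mem_coe.mpr hv))).trans (le_abs_self _)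
  set V' := V.filter (· ≠ 0) with hV'
  obtain ⟨y, hy, hs⟩ := ho (V'.image (fun v => ‖v‖⁻¹ • v) ∪ V'.image (fun v => -(‖v‖⁻¹ • v)))
    (by
      intro x hx
      rcases Finset.mem_union.mp hx with hx | hx <;>
      · obtain ⟨v, hv, rfl⟩ := Finset.mem_image.mp hx
        have hv0 : ‖v‖ ≠ 0 := norm_ne_zero_iff.mpr (Finset.mem_filter.mp hv).2
        simp [norm_smul, hv0]) (ε / (|B| + η)) (by positivity)
  have hny : ‖η • y‖ = η := by rw [norm_smul, hy, Real.norm_eq_abs, abs_of_pos hη, mul_one]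
  refine ⟨η • y, hny, fun v hv => ?_⟩
  by_cases hv0 : v = 0
  · subst hv0
    simp only [norm_zero, zero_add, zero_sub, norm_neg, hny]
    constructor <;> linarith
  have hvV : v ∈ V' := Finset.mem_filter.mpr ⟨hv, hv0⟩
  have hvn : 0 < ‖v‖ := norm_pos_iff.mpr hv0
  have hu : ‖‖v‖⁻¹ • v‖ = 1 := by simp [norm_smul, hvn.ne']
  have herr : ε / (|B| + η) * (‖v‖ + η) ≤ ε := by
    rw [div_mul_eq_mul_div, div_le_iff₀ (by positivity)]
    exact mul_le_mul_of_nonneg_left (by linarith [hB' v hv]) hε.le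
  constructor
  · have := two_dir_bound hu hy hvn.le hη.le (by positivity)
      (hs _ (Finset.mem_union_left _ (Finset.mem_image_of_mem _ hvV)))
    rw [smul_smul, mul_inv_cancel₀ hvn.ne', one_smul] at this
    linarith
  · have := two_dir_bound (by rw [norm_neg]; exact hu) hy hvn.le hη.le (by positivity)
      (hs _ (Finset.mem_union_right _ (Finset.mem_image_of_mem _ hvV)))
    rw [smul_neg, smul_smul, mul_inv_cancel₀ hvn.ne', one_smul] at this
    rw [← norm_neg (v - η • y), show -(v - η • y) = -v + η • y by abel]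
    linarith

/-- Many octahedral steps, with signs chosen to keep finitely many functionals small. -/
theorem octa_walk
    (ho : ∀ s : Finset E, (∀ x ∈ s, ‖x‖ = 1) → ∀ ε > (0 : ℝ), ∃ y : E, ‖y‖ = 1 ∧
      ∀ x ∈ s, 2 - ε ≤ ‖x + y‖) (V : Finset E) (F : Finset (E →L[ℝ] ℝ)) {η ε : ℝ}
    (hη : 0 < η) (hε : 0 < ε) (N : ℕ) :
    ∃ S : E, ‖S‖ ≤ N * η ∧ ∑ f ∈ F, (f S) ^ 2 ≤ N * (η ^ 2 * ∑ f ∈ F, ‖f‖ ^ 2) ∧
      ∀ v ∈ V, ‖v‖ + N * (η - ε) ≤ ‖v - S‖ := by
  classical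
  induction N with
  | zero => exact ⟨0, by simp, by simp, by simp⟩
  | succ N ih =>
    obtain ⟨S, h1, h2, h3⟩ := ih
    obtain ⟨y, hy, hs⟩ := octa_step ho (V.image fun v => v - S) hη hε
    have hq : ∑ f ∈ F, (f y) ^ 2 ≤ η ^ 2 * ∑ f ∈ F, ‖f‖ ^ 2 := by
      rw [Finset.mul_sum]
      refine Finset.sum_le_sum fun f _ => ?_
      have := f.le_opNorm y
      rw [hy, Real.norm_eq_abs] at this
      rw [← sq_abs, ← mul_pow, mul_comm]
      exact pow_le_pow_left₀ (abs_nonneg _) this 2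
    have hpar : ∑ f ∈ F, (f (S + y)) ^ 2 + ∑ f ∈ F, (f (S - y)) ^ 2 =
        2 * ∑ f ∈ F, (f S) ^ 2 + 2 * ∑ f ∈ F, (f y) ^ 2 := by
      rw [Finset.mul_sum, Finset.mul_sum, ← Finset.sum_add_distrib, ← Finset.sum_add_distrib]
      refine Finset.sum_congr rfl fun f _ => ?_
      rw [map_add, map_sub]; ring
    push_cast
    rcases le_total (∑ f ∈ F, (f (S + y)) ^ 2) (∑ f ∈ F, (f (S - y)) ^ 2) with hle | hle
    · refine ⟨S + y, by linarith [norm_add_le S y], by linarith, fun v hv => ?_⟩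
      have := (hs _ (Finset.mem_image_of_mem _ hv)).2
      rw [← sub_sub]
      linarith [h3 v hv]
    · refine ⟨S - y, by linarith [norm_sub_le S y], by linarith, fun v hv => ?_⟩
      have := (hs _ (Finset.mem_image_of_mem _ hv)).1
      rw [show v - (S - y) = v - S + y by abel]
      linarith [h3 v hv]

/-- The case of an octahedral norm. -/
theorem Cover.false_of_octahedral [CompleteSpace E] [TopologicalSpace.SeparableSpace E]
    (h : Cover c r) (hinf : ¬ FiniteDimensional ℝ E)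
    (ho : ∀ s : Finset E, (∀ x ∈ s, ‖x‖ = 1) → ∀ ε > (0 : ℝ), ∃ y : E, ‖y‖ = 1 ∧
      ∀ x ∈ s, 2 - ε ≤ ‖x + y‖) : False := by
  classical
  obtain ⟨i₀, w, ν, δ, hν, hδ, H⟩ := h.local_structure hinf
  obtain ⟨hrw, H⟩ := H w (mem_ball_self hν)
  have hr₀ := h.pos i₀
  have hw0 : 0 < ‖w‖ := by linarith
  obtain ⟨τ, hτ, hτδ, hτw⟩ : ∃ τ > (0 : ℝ), τ ≤ δ / 8 ∧ τ ≤ ‖w‖ - r i₀ :=
    ⟨min (δ / 8) (‖w‖ - r i₀), lt_min (by linarith) (by linarith), min_le_left _ _,
      min_le_right _ _⟩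
  obtain ⟨t, htw, ht0, ht1⟩ : ∃ t : ℝ, t * ‖w‖ = r i₀ + τ ∧ 0 < t ∧ t ≤ 1 :=
    ⟨(r i₀ + τ) / ‖w‖, by field_simp, by positivity, by rw [div_le_one hw0]; linarith⟩
  obtain ⟨hlate, F, μ, hμ, hF⟩ := H t ht1 (by linarith)
  obtain ⟨Q, hQ⟩ : ∃ Q, Q = ∑ f ∈ F, ‖f‖ ^ 2 := ⟨_, rfl⟩
  obtain ⟨N, hN⟩ := exists_nat_gt (max 1 ((δ / 2) ^ 2 * Q / μ ^ 2))
  have hN1 : (1 : ℝ) < N := (le_max_left _ _).trans_lt hN
  have hN0 : (0 : ℝ) < N := by linarith
  have hN2 : (δ / 2) ^ 2 * Q < N * μ ^ 2 := by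
    have := (le_max_right _ _).trans_lt hN
    rwa [div_lt_iff₀ (by positivity)] at this
  obtain ⟨S, h1, h2, h3⟩ := octa_walk ho
    ((h.pt_finite (c i₀ + t • w)).toFinset.image fun i => c i - (c i₀ + t • w)) F
    (η := δ / 2 / N) (ε := δ / 8 / N) (by positivity) (by positivity) N
  have e1 : (N : ℝ) * (δ / 2 / N) = δ / 2 := by field_simp
  have e2 : (N : ℝ) * (δ / 2 / N - δ / 8 / N) = 3 * δ / 8 := by field_simp; ring
  have e3 : (N : ℝ) * ((δ / 2 / N) ^ 2 * Q) < μ ^ 2 := by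
    have : (N : ℝ) * ((δ / 2 / N) ^ 2 * Q) = (δ / 2) ^ 2 * Q / N := by field_simp
    rw [this, div_lt_iff₀ hN0]; linarith
  rw [e1] at h1
  rw [e2] at h3
  rw [← hQ] at h2
  obtain ⟨i, hi1, hi2⟩ := hF (c i₀ + t • w + S)
    (by rw [mem_ball, dist_eq_norm, add_sub_cancel_left]; linarith)
    (fun f hf => by
      rw [add_sub_cancel_left]
      have := Finset.single_le_sum (f := fun f : E →L[ℝ] ℝ => (f S) ^ 2)
        (fun f _ => sq_nonneg _) hf
      exact abs_lt_of_sq_lt_sq (by linarith) hμ.le)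
  have a1 := h3 _ (Finset.mem_image_of_mem _ ((h.pt_finite _).mem_toFinset.mpr hi1))
  have a2 := hlate i hi1
  rw [mem_closedBall, dist_comm, dist_eq_norm, ← sub_sub] at hi2
  have a3 := norm_add_le (c i - (c i₀ + t • w)) (t • w)
  rw [show c i - (c i₀ + t • w) + t • w = c i - c i₀ by abel, norm_smul, Real.norm_eq_abs,
    abs_of_pos ht0] at a3
  linarith

end Pool.Agent.H402Z.StarFinite
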