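import Pool.Agent.H402Z.WkDefs

/-!
Basic tools: a normed space isometrically identified with the compact operators on `H`.
-/

set_option autoImplicit false

open scoped ENNReal InnerProductSpace
open Metric Set Filter Topology InnerProductSpace

namespace Pool.Agent.H402Z.Wk

section General

variable {X : Type*} [NormedAddCommGroup X] [NormedSpace ℂ X]

theorem canon_isometry : Isometry (canon : X → StrongDual ℂ (StrongDual ℂ X)) :=
  (NormedSpace.inclusionInDoubleDualLi (E := X) ℂ).isometry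

@[simp] theorem canon_apply (x : X) (φ : StrongDual ℂ X) : canon x φ = φ x := rfl

theorem exists_ultrafilter_of_mem_wstarClosure {I : Type*} {x : I → X}
    {F : StrongDual ℂ (StrongDual ℂ X)} (hF : F ∈ wstarClosure (range x)) :
    ∃ U : Ultrafilter I, ∀ φ : StrongDual ℂ X, Tendsto (fun a => φ (x a)) U (𝓝 (F φ)) := by
  have h1 : StrongDual.toWeakDual F ∈
      closure (range fun a => StrongDual.toWeakDual (canon (x a))) := by
    have := hF
    simp only [wstarClosure, mem_ofPred_eq, ← range_comp] at this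
    exact this
  have h2 : NeBot (comap (fun a => StrongDual.toWeakDual (canon (x a)))
      (𝓝 (StrongDual.toWeakDual F))) := by
    rw [comap_neBot_iff]
    intro t ht
    obtain ⟨_, hy, a, rfl⟩ := mem_closure_iff_nhds.mp h1 t ht
    exact ⟨a, hy⟩
  refine ⟨Ultrafilter.of (comap (fun a => StrongDual.toWeakDual (canon (x a)))
      (𝓝 (StrongDual.toWeakDual F))), fun φ => ?_⟩
  have h3 : Tendsto (fun a => StrongDual.toWeakDual (canon (x a)))
      (Ultrafilter.of (comap (fun a => StrongDual.toWeakDual (canon (x a)))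
      (𝓝 (StrongDual.toWeakDual F)))) (𝓝 (StrongDual.toWeakDual F)) :=
    tendsto_iff_comap.mpr (Ultrafilter.of_le _)
  exact ((WeakDual.eval_continuous φ).tendsto _).comp h3

theorem infEDist_le_of_forall (F : StrongDual ℂ (StrongDual ℂ X)) (x : X) {c : ℝ} (hc : 0 ≤ c)
    (h : ∀ φ : StrongDual ℂ X, ‖F φ - φ x‖ ≤ c * ‖φ‖) :
    infEDist F (range canon) ≤ ENNReal.ofReal c := by
  refine (infEDist_le_edist_of_mem (mem_range_self x)).trans ?_
  rw [edist_dist, dist_eq_norm]
  exact ENNReal.ofReal_le_ofReal (ContinuousLinearMap.opNorm_le_bound _ hc h)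

theorem continuous_weak (φ : StrongDual ℂ X) :
    Continuous fun y : WeakSpace ℂ X => φ ((toWeakSpace ℂ X).symm y) :=
  WeakBilin.eval_continuous (topDualPairing ℂ X).flip φ

end General

variable {H : Type*} [NormedAddCommGroup H] [InnerProductSpace ℂ H]

theorem isCompactOperator_rankOne (a b : H) : IsCompactOperator (rankOne ℂ a b) := by
  have : IsCompactOperator (innerSL ℂ b) := isCompactOperator_of_locallyCompactSpace_dom _
  exact this.clm_comp (ContinuousLinearMap.toSpanSingleton ℂ a)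

theorem norm_sq_sum_orthonormal {ι : Type*} {e : ι → H} (he : Orthonormal ℂ e) (l : ι → ℂ)
    (s : Finset ι) : ‖∑ i ∈ s, l i • e i‖ ^ 2 = ∑ i ∈ s, ‖l i‖ ^ 2 := by
  have h := he.inner_sum l l s
  rw [inner_self_eq_norm_sq_to_K] at h
  have h2 : ∀ i, (starRingEnd ℂ) (l i) * l i = ((‖l i‖ ^ 2 : ℝ) : ℂ) := fun i => by
    rw [Complex.conj_mul']; push_cast; rfl
  simp_rw [h2] at h
  have h3 : ((‖∑ i ∈ s, l i • e i‖ ^ 2 : ℝ) : ℂ) = ((∑ i ∈ s, ‖l i‖ ^ 2 : ℝ) : ℂ) := by
    push_cast at h ⊢; exact h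
  exact Complex.ofReal_injective h3

theorem tendsto_inner_orthonormal {e : ℕ → H} (he : Orthonormal ℂ e) (v : H) :
    Tendsto (fun j => ‖⟪e j, v⟫_ℂ‖) atTop (𝓝 0) := by
  have h := (he.inner_products_summable v).tendsto_atTop_zero
  have h2 := (Real.continuous_sqrt.tendsto 0).comp h
  simp only [Real.sqrt_zero] at h2
  refine h2.congr fun j => ?_
  simp

/-- A compact operator has small matrix entries along orthonormal sequences. -/
theorem compact_entry_tendsto {e f : ℕ → H} (he : Orthonormal ℂ e) (hf : ∀ j, ‖f j‖ ≤ 1)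
    (y : H →L[ℂ] H) (hy : IsCompactOperator y) :
    Tendsto (fun j => ‖⟪e j, y (f j)⟫_ℂ‖) atTop (𝓝 0) := by
  obtain ⟨Q, hQ, hsub⟩ := IsCompactOperator.image_closedBall_subset_compact
    (f := (y : H →ₗ[ℂ] H)) hy 1
  rw [Metric.tendsto_atTop]
  intro ε hε
  obtain ⟨t, -, htf, hcov⟩ := finite_cover_balls_of_compact hQ (half_pos hε)
  have hev : ∀ᶠ j in atTop, ∀ v ∈ t, ‖⟪e j, v⟫_ℂ‖ < ε / 2 :=
    (eventually_all_finite htf).mpr fun v _ =>
      (tendsto_inner_orthonormal he v).eventually (gt_mem_nhds (half_pos hε))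
  obtain ⟨N, hN⟩ := eventually_atTop.mp hev
  refine ⟨N, fun j hj => ?_⟩
  obtain ⟨v, hv, hd⟩ := mem_iUnion₂.mp (hcov (hsub ⟨f j, by simpa using hf j, rfl⟩))
  rw [mem_ball, dist_eq_norm] at hd
  rw [Real.dist_eq, sub_zero, abs_of_nonneg (norm_nonneg _)]
  have e1 : ⟪e j, y (f j)⟫_ℂ = ⟪e j, y (f j) - v⟫_ℂ + ⟪e j, v⟫_ℂ := by
    rw [inner_sub_right]; ring
  have e2 := norm_inner_le_norm (𝕜 := ℂ) (e j) (y (f j) - v)
  rw [he.1 j, one_mul] at e2
  rw [e1]
  have := norm_add_le ⟪e j, y (f j) - v⟫_ℂ ⟪e j, v⟫_ℂ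
  have hd' : ‖y (f j) - v‖ < ε / 2 := hd
  linarith [hN j hj v hv]

/-- A normed space identified with the compact operators on `H`. -/
structure Model (X : Type*) [NormedAddCommGroup X] [NormedSpace ℂ X] (H : Type*)
    [NormedAddCommGroup H] [InnerProductSpace ℂ H] where
  J : X →ₗᵢ[ℂ] (H →L[ℂ] H)
  compact : ∀ x, IsCompactOperator (J x)
  surj : ∀ T : H →L[ℂ] H, IsCompactOperator T → ∃ x, J x = T

/-- The model `K(H)`. -/
noncomputable def stdModel (H : Type*) [NormedAddCommGroup H] [InnerProductSpace ℂ H] :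
    Model (KH H) H where
  J := (compactOperator (RingHom.id ℂ) H H).subtypeₗᵢ
  compact x := x.2
  surj T hT := ⟨⟨T, hT⟩, rfl⟩

variable {X : Type*} [NormedAddCommGroup X] [NormedSpace ℂ X] (M : Model X H)

namespace Model

/-- The element of `X` given by a compact operator. -/
noncomputable def mk' (T : H →L[ℂ] H) (hT : IsCompactOperator T) : X := (M.surj T hT).choose

@[simp] theorem J_mk' (T : H →L[ℂ] H) (hT : IsCompactOperator T) : M.J (M.mk' T hT) = T :=
  (M.surj T hT).choose_spec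

/-- Rank-one operators. -/
noncomputable def rk (a b : H) : X := M.mk' (rankOne ℂ a b) (isCompactOperator_rankOne a b)

@[simp] theorem J_rk (a b : H) : M.J (M.rk a b) = rankOne ℂ a b := M.J_mk' _ _

/-- Vector functionals. -/
noncomputable def vf (a b : H) : StrongDual ℂ X :=
  (innerSL ℂ a).comp (((ContinuousLinearMap.apply ℂ H) b).comp M.J.toContinuousLinearMap)

@[simp] theorem vf_apply (a b : H) (y : X) : M.vf a b y = ⟪a, M.J y b⟫_ℂ := rfl

end Model

end Pool.Agent.H402Z.Wk
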