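import Mathlib

/-!
Three measures of weak non-compactness in a complex normed space, with values in `ℝ≥0∞`.
-/

set_option autoImplicit false

open scoped ENNReal

namespace Pool.Agent.H402Z.Wk

/-- `d̂(A,B) = sup {dist(a,B) : a ∈ A}`. -/
noncomputable def dhat {Y : Type*} [PseudoEMetricSpace Y] (A B : Set Y) : ℝ≥0∞ :=
  ⨆ a ∈ A, Metric.infEDist a B

variable {X : Type*} [NormedAddCommGroup X] [NormedSpace ℂ X]

/-- The canonical embedding of `X` into its bidual. -/
noncomputable def canon (x : X) : StrongDual ℂ (StrongDual ℂ X) :=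
  NormedSpace.inclusionInDoubleDual ℂ X x

/-- Weakly compact subsets of `X`. -/
def IsWeaklyCompact (K : Set X) : Prop := IsCompact (toWeakSpace ℂ X '' K)

/-- The weak* closure of `A ⊆ X` in the bidual. -/
def wstarClosure (A : Set X) : Set (StrongDual ℂ (StrongDual ℂ X)) :=
  {F | StrongDual.toWeakDual F ∈ closure ((fun x => StrongDual.toWeakDual (canon x)) '' A)}

/-- The weak* cluster points in the bidual of a sequence in `X`. -/
def clust (x : ℕ → X) : Set (StrongDual ℂ (StrongDual ℂ X)) :=
  {F | MapClusterPt (StrongDual.toWeakDual F) Filter.atTop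
    (fun n => StrongDual.toWeakDual (canon (x n)))}

/-- The De Blasi measure `ω`. -/
noncomputable def omega (A : Set X) : ℝ≥0∞ :=
  ⨅ (K : Set X) (_ : IsWeaklyCompact K), dhat (canon '' A) (canon '' K)

/-- The measure `wk`. -/
noncomputable def wk (A : Set X) : ℝ≥0∞ :=
  dhat (wstarClosure A) (Set.range canon)

/-- The measure `wck`. -/
noncomputable def wck (A : Set X) : ℝ≥0∞ :=
  ⨆ (x : ℕ → X) (_ : ∀ n, x n ∈ A), ⨅ F ∈ clust x, Metric.infEDist F (Set.range canon)

/-- The Banach space `K(H)` of compact operators on `H` with the operator norm. -/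
abbrev KH (H : Type*) [NormedAddCommGroup H] [InnerProductSpace ℂ H] : Type _ :=
  compactOperator (RingHom.id ℂ) H H

end Pool.Agent.H402Z.Wk
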