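import Pool.Agent.H402Z.WkBasic

/-!
`ω` and `wk` are not equivalent on `K(H)` for nonseparable `H`.
-/

set_option autoImplicit false

open scoped ENNReal InnerProductSpace
open Metric Set Filter Topology InnerProductSpace

namespace Pool.Agent.H402Z.Wk

variable {H : Type*} [NormedAddCommGroup H] [InnerProductSpace ℂ H]
variable {X : Type*} [NormedAddCommGroup X] [NormedSpace ℂ X] (M : Model X H)

namespace Model

variable {Γ : Type*} (e : Γ → ℕ → H) (f : ℕ → H)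

/-- The partial isometry `f j ↦ e γ j` (`j < n`). -/
noncomputable def uu (γ : Γ) (n : ℕ) : X := ∑ j ∈ Finset.range n, M.rk (e γ j) (f j)

variable {e f}

theorem uu_apply (γ : Γ) (n : ℕ) (v : H) :
    M.J (M.uu e f γ n) v = ∑ j ∈ Finset.range n, ⟪f j, v⟫_ℂ • e γ j := by
  simp [uu]

theorem norm_sum_uu_le (he : Orthonormal ℂ fun p : (Σ _ : Γ, ℕ) => e p.1 p.2)
    (hf : Orthonormal ℂ f) (T : Finset Γ) (n : Γ → ℕ) (θ : Γ → ℂ) (hθ : ∀ γ, ‖θ γ‖ ≤ 1) :
    ‖∑ γ ∈ T, θ γ • M.uu e f γ (n γ)‖ ≤ √(T.card) := by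
  rw [← M.J.norm_map]
  refine ContinuousLinearMap.opNorm_le_bound _ (Real.sqrt_nonneg _) fun v => ?_
  have e1 : M.J (∑ γ ∈ T, θ γ • M.uu e f γ (n γ)) v =
      ∑ p ∈ T.sigma (fun γ => Finset.range (n γ)), (θ p.1 * ⟪f p.2, v⟫_ℂ) • e p.1 p.2 := by
    rw [Finset.sum_sigma]
    simp only [map_sum, map_smul, sum_apply, smul_apply, uu_apply, Finset.smul_sum, mul_smul]
  rw [e1]
  have e2 := norm_sq_sum_orthonormal he (fun p => θ p.1 * ⟪f p.2, v⟫_ℂ)
    (T.sigma (fun γ => Finset.range (n γ)))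
  have e3 : ∑ p ∈ T.sigma (fun γ => Finset.range (n γ)), ‖θ p.1 * ⟪f p.2, v⟫_ℂ‖ ^ 2 ≤
      T.card * ‖v‖ ^ 2 := by
    rw [Finset.sum_sigma, ← nsmul_eq_mul]
    refine Finset.sum_le_card_nsmul _ _ _ fun γ _ => ?_
    refine le_trans (Finset.sum_le_sum fun j _ => ?_) (hf.sum_inner_products_le v)
    rw [norm_mul]
    exact pow_le_pow_left₀ (by positivity) (mul_le_of_le_one_left (norm_nonneg _) (hθ γ)) 2
  refine le_of_sq_le_sq ?_ (by positivity)
  rw [mul_pow, Real.sq_sqrt (by positivity), e2]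
  exact e3

theorem finite_big (he : Orthonormal ℂ fun p : (Σ _ : Γ, ℕ) => e p.1 p.2)
    (hf : Orthonormal ℂ f) (φ : StrongDual ℂ X) {ε : ℝ} (hε : 0 < ε) :
    {γ | ∃ n, ε < ‖φ (M.uu e f γ n)‖}.Finite := by
  classical
  by_contra hinf
  obtain ⟨N, hN⟩ := exists_nat_gt ((‖φ‖ / ε) ^ 2)
  obtain ⟨T, hT, hcard⟩ := Set.Infinite.exists_subset_card_eq hinf N
  have : ∀ γ, ∃ n, γ ∈ T → ε < ‖φ (M.uu e f γ n)‖ := fun γ => by
    by_cases h : γ ∈ T
    · obtain ⟨n, hn⟩ := hT h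
      exact ⟨n, fun _ => hn⟩
    · exact ⟨0, fun h' => absurd h' h⟩
  choose n hn using this
  choose θ hθ1 hθ2 using fun γ => Complex.exists_norm_eq_mul_self (φ (M.uu e f γ (n γ)))
  have h1 := M.norm_sum_uu_le he hf T n θ fun γ => (hθ1 γ).le
  have h2 : φ (∑ γ ∈ T, θ γ • M.uu e f γ (n γ)) =
      ((∑ γ ∈ T, ‖φ (M.uu e f γ (n γ))‖ : ℝ) : ℂ) := by
    rw [map_sum]; push_cast
    exact Finset.sum_congr rfl fun γ _ => by rw [map_smul, hθ2, smul_eq_mul]
  have h3 := φ.le_opNorm (∑ γ ∈ T, θ γ • M.uu e f γ (n γ))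
  rw [h2, Complex.norm_real, Real.norm_eq_abs,
    abs_of_nonneg (Finset.sum_nonneg fun _ _ => norm_nonneg _)] at h3
  have h4 : T.card • ε ≤ ∑ γ ∈ T, ‖φ (M.uu e f γ (n γ))‖ :=
    Finset.card_nsmul_le_sum _ _ _ fun γ hγ => (hn γ hγ).le
  rw [hcard, nsmul_eq_mul] at h4
  rw [hcard] at h1
  have h5 : (N : ℝ) * ε ≤ ‖φ‖ * √N := h4.trans (h3.trans (by gcongr))
  have hN0 : (0 : ℝ) < N := lt_of_le_of_lt (by positivity) hN
  have h6 : ‖φ‖ / ε < √N := Real.lt_sqrt_of_sq_lt hN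
  rw [div_lt_iff₀ hε] at h6
  have h7 : √N * √N = (N : ℝ) := Real.mul_self_sqrt hN0.le
  have h8 : 0 < √(N : ℝ) := Real.sqrt_pos.mpr hN0
  nlinarith

/-- Index set of the example. -/
def Idx (τ : Γ → ℕ → Bool) (m : ℕ) : Type _ :=
  {p : Finset Γ × ℕ // p.1.card ≤ m ∧ ∀ γ ∈ p.1, ∀ γ' ∈ p.1, ∀ j < p.2, τ γ j = τ γ' j}

variable (e f) in
/-- The operators of the example. -/
noncomputable def xx {τ : Γ → ℕ → Bool} {m : ℕ} (a : Idx τ m) : X :=
  ∑ γ ∈ a.1.1, M.uu e f γ a.1.2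

theorem norm_xx_le (he : Orthonormal ℂ fun p : (Σ _ : Γ, ℕ) => e p.1 p.2)
    (hf : Orthonormal ℂ f) {τ : Γ → ℕ → Bool} {m : ℕ} (a : Idx τ m) :
    ‖M.xx e f a‖ ≤ √m := by
  have := M.norm_sum_uu_le he hf a.1.1 (fun _ => a.1.2) (fun _ => 1) (fun _ => by simp)
  simp only [one_smul] at this
  exact this.trans (Real.sqrt_le_sqrt (by exact_mod_cast a.2.1))

theorem wk_le_one (he : Orthonormal ℂ fun p : (Σ _ : Γ, ℕ) => e p.1 p.2)
    (hf : Orthonormal ℂ f) {τ : Γ → ℕ → Bool} (hτ : Function.Injective τ) (m : ℕ) :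
    wk (range (M.xx e f : Idx τ m → X)) ≤ 1 := by
  classical
  refine iSup₂_le fun F hF => ?_
  obtain ⟨U, hU⟩ := exists_ultrafilter_of_mem_wstarClosure hF
  have hSf : {γ | ∀ᶠ a in (U : Filter (Idx τ m)), γ ∈ a.1.1}.Finite := by
    by_contra hinf
    obtain ⟨T, hT, hcard⟩ := Set.Infinite.exists_subset_card_eq hinf (m + 1)
    have : ∀ᶠ a in (U : Filter (Idx τ m)), ∀ γ ∈ T, γ ∈ a.1.1 :=
      (eventually_all_finset T).mpr fun γ hγ => hT hγ
    obtain ⟨a, ha⟩ := this.exists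
    have := Finset.card_le_card (show T ⊆ a.1.1 from ha)
    have := a.2.1
    omega
  set S := hSf.toFinset with hS
  have hSmem : ∀ γ, γ ∈ S ↔ ∀ᶠ a in (U : Filter (Idx τ m)), γ ∈ a.1.1 := fun γ =>
    hSf.mem_toFinset
  have hSsub : ∀ᶠ a in (U : Filter (Idx τ m)), ∀ γ ∈ S, γ ∈ a.1.1 :=
    (eventually_all_finset S).mpr fun γ hγ => (hSmem γ).mp hγ
  have key : ∀ φ : StrongDual ℂ X, Tendsto (fun a : Idx τ m => φ (∑ γ ∈ S, M.uu e f γ a.1.2))
      U (𝓝 (F φ)) := by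
    intro φ
    have hd : Tendsto (fun a : Idx τ m => φ (M.xx e f a) - φ (∑ γ ∈ S, M.uu e f γ a.1.2))
        U (𝓝 0) := by
      rw [NormedAddGroup.tendsto_nhds_zero]
      intro ε hε
      have hε' : 0 < ε / (m + 1) := by positivity
      have hE := M.finite_big he hf φ hε'
      have h2 : ∀ᶠ a in (U : Filter (Idx τ m)), ∀ γ ∈ {γ | ∃ n, ε / (m + 1) <
          ‖φ (M.uu e f γ n)‖}, γ ∉ S → γ ∉ a.1.1 := by
        refine (eventually_all_finite hE).mpr fun γ _ => ?_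
        by_cases hγ : γ ∈ S
        · exact Eventually.of_forall fun a h => absurd hγ h
        · have := Ultrafilter.eventually_not.mpr (mt (hSmem γ).mpr hγ)
          exact this.mono fun a ha _ => ha
      filter_upwards [hSsub, h2] with a ha1 ha2
      have e1 : φ (M.xx e f a) - φ (∑ γ ∈ S, M.uu e f γ a.1.2) =
          ∑ γ ∈ a.1.1 \ S, φ (M.uu e f γ a.1.2) := by
        rw [xx, ← map_sub, ← Finset.sum_sdiff_eq_sub (show S ⊆ a.1.1 from ha1), map_sum]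
      rw [e1]
      have e2 : ∑ γ ∈ a.1.1 \ S, ‖φ (M.uu e f γ a.1.2)‖ ≤ (a.1.1 \ S).card • (ε / (m + 1)) :=
        Finset.sum_le_card_nsmul _ _ _ fun γ hγ => by
          rw [Finset.mem_sdiff] at hγ
          by_contra hlt
          exact ha2 γ ⟨_, lt_of_not_ge hlt⟩ hγ.2 hγ.1
      have e3 : ((a.1.1 \ S).card : ℝ) ≤ m := by
        exact_mod_cast (Finset.card_le_card Finset.sdiff_subset).trans a.2.1
      rw [nsmul_eq_mul] at e2
      have e4 : (m : ℝ) * (ε / (m + 1)) < ε := by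
        rw [← mul_div_assoc, div_lt_iff₀ (by positivity)]; nlinarith
      exact (norm_sum_le _ _).trans_lt (e2.trans_lt
        ((mul_le_mul_of_nonneg_right e3 hε'.le).trans_lt e4))
    have := (hU φ).sub hd
    simpa using this
  by_cases hb : ∃ N, ∀ᶠ a in (U : Filter (Idx τ m)), a.1.2 ≤ N
  · obtain ⟨N, hN⟩ := hb
    have : ∃ n ∈ Finset.range (N + 1), ∀ᶠ a in (U : Filter (Idx τ m)), a.1.2 = n := by
      have h1 : ∀ᶠ a in (U : Filter (Idx τ m)), ∃ n ∈ (Finset.range (N + 1) : Set ℕ),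
          a.1.2 = n := hN.mono fun a ha => ⟨_, by simpa [Nat.lt_succ_iff] using ha, rfl⟩
      simpa using (Ultrafilter.eventually_exists_mem_iff (Finset.finite_toSet _)).mp h1
    obtain ⟨n, -, hn⟩ := this
    have hF' : F = canon (∑ γ ∈ S, M.uu e f γ n) := by
      ext φ
      refine tendsto_nhds_unique (key φ) (tendsto_const_nhds.congr' ?_)
      filter_upwards [hn] with a ha
      rw [ha, canon_apply]
    rw [infEDist_zero_of_mem (hF' ▸ mem_range_self _)]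
    exact zero_le_one
  · push Not at hb
    have hcard : S.card ≤ 1 := by
      rw [Finset.card_le_one]
      intro γ hγ γ' hγ'
      apply hτ
      funext j
      have h1 : ∀ᶠ a in (U : Filter (Idx τ m)), ¬ a.1.2 ≤ j :=
        Ultrafilter.eventually_not.mpr (by simpa using hb j)
      obtain ⟨a, ha1, ha2⟩ := (hSsub.and h1).exists
      exact a.2.2 γ (ha1 γ hγ) γ' (ha1 γ' hγ') j (lt_of_not_ge ha2)
    rw [← ENNReal.ofReal_one]
    refine infEDist_le_of_forall F 0 zero_le_one fun φ => ?_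
    rw [map_zero, sub_zero]
    refine le_of_tendsto' (key φ).norm fun a => ?_
    have h1 := M.norm_sum_uu_le he hf S (fun _ => a.1.2) (fun _ => 1) (fun _ => by simp)
    simp only [one_smul] at h1
    have h2 : √(S.card : ℝ) ≤ 1 := Real.sqrt_le_one.mpr (by exact_mod_cast hcard)
    have h3 := φ.le_opNorm (∑ γ ∈ S, M.uu e f γ a.1.2)
    have := mul_le_mul_of_nonneg_left (h1.trans h2) (norm_nonneg φ)
    linarith

theorem inner_xx (he : Orthonormal ℂ fun p : (Σ _ : Γ, ℕ) => e p.1 p.2)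
    (hf : Orthonormal ℂ f) {τ : Γ → ℕ → Bool} {m : ℕ} (a : Idx τ m) {γ : Γ} (hγ : γ ∈ a.1.1)
    {j : ℕ} (hj : j < a.1.2) : ⟪e γ j, M.J (M.xx e f a) (f j)⟫_ℂ = 1 := by
  classical
  have h1 : ∀ γ', M.J (M.uu e f γ' a.1.2) (f j) = e γ' j := by
    intro γ'
    rw [uu_apply, Finset.sum_eq_single j]
    · rw [orthonormal_iff_ite.mp hf]; simp
    · intro i _ hij
      rw [orthonormal_iff_ite.mp hf, if_neg hij, zero_smul]
    · intro h; exact absurd (Finset.mem_range.mpr hj) h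
  simp only [xx, map_sum, sum_apply, h1, inner_sum]
  rw [Finset.sum_eq_single γ]
  · simpa using orthonormal_iff_ite.mp he ⟨γ, j⟩ ⟨γ, j⟩
  · intro γ' _ hne
    have := orthonormal_iff_ite.mp he ⟨γ, j⟩ ⟨γ', j⟩
    rw [if_neg (fun h => hne (congrArg Sigma.fst h).symm)] at this
    exact this
  · intro h; exact absurd hγ h

theorem le_omega [Uncountable Γ] (he : Orthonormal ℂ fun p : (Σ _ : Γ, ℕ) => e p.1 p.2)
    (hf : Orthonormal ℂ f) (τ : Γ → ℕ → Bool) {k : ℕ} (hk : 0 < k) :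
    (k : ℝ≥0∞) ≤ omega (range (M.xx e f : Idx τ (4 * k ^ 2) → X)) := by
  classical
  refine le_iInf₂ fun K hK => ?_
  by_contra hlt
  push Not at hlt
  have happ : ∀ a : Idx τ (4 * k ^ 2), ∃ y ∈ K, ‖M.xx e f a - y‖ < k := by
    intro a
    have h1 : infEDist (canon (M.xx e f a)) (canon '' K) < k :=
      lt_of_le_of_lt (le_iSup₂ (f := fun b (_ : b ∈ canon '' range (M.xx e f)) =>
        infEDist b (canon '' K)) _ ⟨_, mem_range_self a, rfl⟩) hlt
    rw [infEDist_image canon_isometry, infEDist_lt_iff] at h1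
    obtain ⟨y, hy, hd⟩ := h1
    refine ⟨y, hy, ?_⟩
    rw [edist_dist, dist_eq_norm, ← ENNReal.ofReal_natCast,
      ENNReal.ofReal_lt_ofReal_iff (by exact_mod_cast hk)] at hd
    exact hd
  set P : Γ → Finset ℕ → Prop := fun γ J =>
    ∃ y ∈ K, ∀ j ∈ J, 1 / 2 ≤ ‖M.vf (e γ j) (f j) y‖ with hP
  have he' : ∀ γ, Orthonormal ℂ (e γ) := fun γ =>
    he.comp (fun j => ⟨γ, j⟩) (fun i j h => by simpa using h)
  have claim1 : ∀ γ (J : Set ℕ), J.Infinite → ¬ ∀ J₀ : Finset ℕ, (J₀ : Set ℕ) ⊆ J → P γ J₀ := by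
    intro γ J hJ hall
    obtain ⟨y', ⟨y, hy, rfl⟩, hy2⟩ := hK.inter_iInter_nonempty
      (fun j : J => {y : WeakSpace ℂ X |
        1 / 2 ≤ ‖M.vf (e γ j) (f j) ((toWeakSpace ℂ X).symm y)‖})
      (fun j => isClosed_le continuous_const (continuous_weak _).norm)
      (fun u => by
        obtain ⟨y, hy, h⟩ := hall (u.image (↑)) (by
          intro j hj
          obtain ⟨i, -, rfl⟩ := Finset.mem_image.mp (Finset.mem_coe.mp hj)
          exact i.2)
        refine ⟨toWeakSpace ℂ X y, ⟨y, hy, rfl⟩, mem_iInter₂.mpr fun j hj => ?_⟩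
        exact h j (Finset.mem_image_of_mem _ hj))
    have ht := compact_entry_tendsto (he' γ) (fun j => (hf.1 j).le) (M.J y) (M.compact y)
    obtain ⟨N, hN⟩ := eventually_atTop.mp (ht.eventually (gt_mem_nhds (show (0 : ℝ) < 1 / 2 by
      norm_num)))
    obtain ⟨j, hjJ, hjN⟩ := hJ.exists_gt N
    exact absurd (mem_iInter.mp hy2 ⟨j, hjJ⟩) (not_le.mpr (hN j hjN.le))
  have claim2 : ∀ γ, ∃ n, ¬ ∃ col : ℕ → Fin (4 * k ^ 2),
      ∀ i, P γ ((Finset.range n).filter (col · = i)) := by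
    intro γ
    by_contra hcon
    push Not at hcon
    choose col hcol using hcon
    have h1 : ∀ j, ∃ i, ∀ᶠ n in (hyperfilter ℕ : Filter ℕ), col n j = i := fun j =>
      Ultrafilter.eventually_exists_iff.mp (Eventually.of_forall fun n => ⟨_, rfl⟩)
    choose c hc using h1
    obtain ⟨i, hi⟩ := Finite.exists_infinite_fiber c
    refine claim1 γ (c ⁻¹' {i}) (infinite_coe_iff.mp hi) fun J₀ hJ₀ => ?_
    have h2 : ∀ᶠ n in (hyperfilter ℕ : Filter ℕ), ∀ j ∈ J₀, j < n ∧ col n j = c j :=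
      (eventually_all_finset J₀).mpr fun j _ =>
        (Eventually.filter_mono Nat.hyperfilter_le_atTop (eventually_gt_atTop j)).and (hc j)
    obtain ⟨n, hn⟩ := h2.exists
    obtain ⟨y, hy, h⟩ := hcol n i
    refine ⟨y, hy, fun j hj => h j (Finset.mem_filter.mpr
      ⟨Finset.mem_range.mpr (hn j hj).1, (hn j hj).2.trans (hJ₀ hj)⟩)⟩
  choose n hn using claim2
  set inv : Γ → ℕ × Finset (Finset ℕ) × Finset ℕ := fun γ =>
    (n γ, (Finset.range (n γ)).powerset.filter (P γ),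
      (Finset.range (n γ)).filter (τ γ · = true)) with hinv
  obtain ⟨t, ht⟩ : ∃ t, (inv ⁻¹' {t}).Infinite := by
    by_contra hfin
    push Not at hfin
    have : (univ : Set Γ).Countable := by
      rw [← preimage_univ (f := inv), ← iUnion_of_singleton, preimage_iUnion]
      exact countable_iUnion fun t => (hfin t).countable
    exact not_countable (countable_univ_iff.mp this)
  obtain ⟨R, hR, hcard⟩ := ht.exists_subset_card_eq (4 * k ^ 2)
  have hRt : ∀ γ ∈ R, inv γ = t := fun γ hγ => hR hγ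
  have hn' : ∀ γ ∈ R, n γ = t.1 := fun γ hγ => congrArg Prod.fst (hRt γ hγ)
  have hP' : ∀ γ ∈ R, ∀ J ⊆ Finset.range t.1, P γ J ↔ J ∈ t.2.1 := by
    intro γ hγ J hJ
    rw [← hRt γ hγ]
    simp only [hinv, Finset.mem_filter, Finset.mem_powerset, hn' γ hγ, hJ, true_and]
  have hτ' : ∀ γ ∈ R, ∀ j < t.1, τ γ j = true ↔ j ∈ t.2.2 := by
    intro γ hγ j hj
    rw [← hRt γ hγ]
    simp only [hinv, Finset.mem_filter, Finset.mem_range, hn' γ hγ, hj, true_and]
  set a : Idx τ (4 * k ^ 2) := ⟨(R, t.1), hcard.le, fun γ hγ γ' hγ' j hj => by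
    rw [Bool.eq_iff_iff, hτ' γ hγ j hj, hτ' γ' hγ' j hj]⟩ with ha
  obtain ⟨y, hy, hd⟩ := happ a
  have hsel : ∀ j < t.1, ∃ γ ∈ R, 1 / 2 ≤ ‖M.vf (e γ j) (f j) y‖ := by
    intro j hj
    by_contra hcon
    push Not at hcon
    have h1 : ‖M.J (M.xx e f a - y) (f j)‖ < k := by
      have := (M.J (M.xx e f a - y)).le_opNorm (f j)
      rw [M.J.norm_map, hf.1 j, mul_one] at this
      exact this.trans_lt hd
    have he2 : Orthonormal ℂ fun γ => e γ j :=
      he.comp (fun γ => ⟨γ, j⟩) (fun i j h => congrArg Sigma.fst h)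
    have h2 := he2.sum_inner_products_le (s := R) (M.J (M.xx e f a - y) (f j))
    have h3 : R.card • (1 / 4 : ℝ) ≤ ∑ γ ∈ R, ‖⟪e γ j, M.J (M.xx e f a - y) (f j)⟫_ℂ‖ ^ 2 := by
      refine Finset.card_nsmul_le_sum _ _ _ fun γ hγ => ?_
      rw [map_sub, sub_apply, inner_sub_right, M.inner_xx he hf a hγ hj]
      have h4 := hcon γ hγ
      rw [vf_apply] at h4
      have h5 := norm_sub_norm_le (1 : ℂ) ⟪e γ j, M.J y (f j)⟫_ℂ
      rw [norm_one] at h5
      nlinarith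
    rw [hcard, nsmul_eq_mul] at h3
    push_cast at h3
    have h6 := norm_nonneg (M.J (M.xx e f a - y) (f j))
    nlinarith
  choose g hgR hg using hsel
  set eqv := Finset.equivFinOfCardEq hcard with heqv
  have hpos : 0 < 4 * k ^ 2 := by positivity
  obtain ⟨γ₀, hγ₀⟩ : R.Nonempty := Finset.card_pos.mp (hcard ▸ hpos)
  apply hn γ₀
  refine ⟨fun j => if h : j < t.1 then eqv ⟨g j h, hgR j h⟩ else ⟨0, hpos⟩, fun i => ?_⟩
  rw [hn' γ₀ hγ₀, hP' γ₀ hγ₀ _ (Finset.filter_subset _ _),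
    ← hP' (eqv.symm i) (eqv.symm i).2 _ (Finset.filter_subset _ _)]
  refine ⟨y, hy, fun j hj => ?_⟩
  obtain ⟨hj1, hj2⟩ := Finset.mem_filter.mp hj
  rw [Finset.mem_range] at hj1
  simp only [dif_pos hj1] at hj2
  have : ((eqv.symm i : R) : Γ) = g j hj1 := by rw [← hj2, Equiv.symm_apply_apply]
  rw [this]
  exact hg j hj1

include M in
theorem nonsep [CompleteSpace H] (hH : ¬ TopologicalSpace.SeparableSpace H) (k : ℕ) :
    ∃ A : Set X, A.Nonempty ∧ Bornology.IsBounded A ∧ wk A ≤ 1 ∧ (k : ℝ≥0∞) < omega A := by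
  obtain ⟨w, b, hb⟩ := exists_hilbertBasis ℂ H
  have hw : Uncountable w := by
    by_contra hc
    rw [not_uncountable_iff] at hc
    apply hH
    have h1 : TopologicalSpace.IsSeparable (Submodule.span ℂ (range b) : Set H) :=
      (countable_range b).isSeparable.span
    have h2 := h1.closure
    rw [← Submodule.topologicalClosure_coe, b.dense_span] at h2
    exact TopologicalSpace.isSeparable_univ_iff.mp h2
  -- an uncountable index set of size `ℵ₁`
  obtain ⟨Γ, hΓ, ⟨i₁⟩, ⟨i₂⟩⟩ : ∃ Γ : Type, Uncountable Γ ∧ Nonempty (Γ ↪ (ℕ → Bool)) ∧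
      Nonempty ((Σ _ : Γ, ℕ) ↪ w) := by
    refine ⟨(Cardinal.aleph 1 : Cardinal.{0}).out, ?_, ?_, ?_⟩
    · rw [← Cardinal.aleph0_lt_mk_iff, Cardinal.mk_out]; exact Cardinal.aleph0_lt_aleph_one
    · rw [← Cardinal.le_def, Cardinal.mk_out]
      simpa using Cardinal.aleph_one_le_continuum
    · rw [← Cardinal.lift_mk_le']
      simp
  obtain ⟨γ₀⟩ : Nonempty Γ := inferInstance
  have he : Orthonormal ℂ fun p : (Σ _ : Γ, ℕ) => (fun γ j => b (i₂ ⟨γ, j⟩)) p.1 p.2 :=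
    b.orthonormal.comp i₂ i₂.injective
  have hf : Orthonormal ℂ fun j => b (i₂ ⟨γ₀, j⟩) :=
    he.comp (fun j => ⟨γ₀, j⟩) (fun i j h => by simpa using h)
  refine ⟨range (M.xx (fun γ j => b (i₂ ⟨γ, j⟩)) (fun j => b (i₂ ⟨γ₀, j⟩)) :
    Idx i₁ (4 * (k + 1) ^ 2) → X), ⟨_, ⟨⟨(∅, 0), by simp⟩, rfl⟩⟩, ?_,
    M.wk_le_one he hf i₁.injective _, ?_⟩
  · rw [isBounded_iff_forall_norm_le]
    exact ⟨_, by rintro _ ⟨a, rfl⟩; exact M.norm_xx_le he hf a⟩
  · refine lt_of_lt_of_le ?_ (M.le_omega he hf i₁ (Nat.succ_pos k))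
    exact_mod_cast Nat.lt_succ_self k

end Model

end Pool.Agent.H402Z.Wk
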