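import Pool.Agent.H402Z.WkBasic

/-!
Orthogonal projections, filtrations by finite-rank projections, and weak convergence in `K(H)`.
-/

set_option autoImplicit false

open scoped ENNReal InnerProductSpace
open Metric Set Filter Topology InnerProductSpace

namespace Pool.Agent.H402Z.Wk

variable {H : Type*} [NormedAddCommGroup H] [InnerProductSpace ℂ H]

/-- Orthogonal projections. -/
structure IsProj (Q : H →L[ℂ] H) : Prop where
  idem : Q * Q = Q
  sym : ∀ u v, ⟪Q u, v⟫_ℂ = ⟪u, Q v⟫_ℂ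

theorem IsProj.norm_le {Q : H →L[ℂ] H} (h : IsProj Q) (v : H) : ‖Q v‖ ≤ ‖v‖ := by
  have h1 : ⟪Q v, Q v⟫_ℂ = ⟪v, Q v⟫_ℂ := by
    rw [h.sym, ← mul_apply_eq_comp, h.idem]
  have h2 := norm_inner_le_norm (𝕜 := ℂ) v (Q v)
  rw [← h1, inner_self_eq_norm_sq_to_K, norm_pow] at h2
  simp only [RCLike.norm_ofReal, abs_norm] at h2
  by_contra hlt
  push Not at hlt
  nlinarith [norm_nonneg v]

theorem IsProj.opNorm_le {Q : H →L[ℂ] H} (h : IsProj Q) : ‖Q‖ ≤ 1 :=
  ContinuousLinearMap.opNorm_le_bound _ zero_le_one fun v => by simpa using h.norm_le v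

theorem IsProj.one_sub {Q : H →L[ℂ] H} (h : IsProj Q) : IsProj (1 - Q) where
  idem := by rw [sub_mul, mul_sub, mul_sub, h.idem]; simp
  sym u v := by simp [h.sym]

theorem pythag {ι : Type*} (s : Finset ι) (w : ι → H)
    (h : ∀ i ∈ s, ∀ j ∈ s, i ≠ j → ⟪w i, w j⟫_ℂ = 0) :
    ‖∑ i ∈ s, w i‖ ^ 2 = ∑ i ∈ s, ‖w i‖ ^ 2 := by
  classical
  have h1 : ⟪∑ i ∈ s, w i, ∑ i ∈ s, w i⟫_ℂ = ∑ i ∈ s, ⟪w i, w i⟫_ℂ := by
    rw [sum_inner]
    refine Finset.sum_congr rfl fun i hi => ?_
    rw [inner_sum, Finset.sum_eq_single i (fun j hj hne => h i hi j hj hne.symm)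
      (fun hn => absurd hi hn)]
  rw [← @inner_self_eq_norm_sq ℂ, h1, map_sum]
  exact Finset.sum_congr rfl fun i _ => inner_self_eq_norm_sq _

section Family

variable {ι : Type*} {s : Finset ι} {Q : ι → H →L[ℂ] H} (hQ : ∀ i ∈ s, IsProj (Q i))
  (ho : ∀ i ∈ s, ∀ j ∈ s, i ≠ j → Q i * Q j = 0)
include hQ ho

theorem inner_family {i j : ι} (hi : i ∈ s) (hj : j ∈ s) (hij : i ≠ j) (u v : H) :
    ⟪Q i u, Q j v⟫_ℂ = 0 := by
  rw [(hQ i hi).sym, ← mul_apply_eq_comp, ho i hi j hj hij]; simp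

theorem sum_sq_family (v : H) : ∑ i ∈ s, ‖Q i v‖ ^ 2 ≤ ‖v‖ ^ 2 := by
  classical
  have hp : IsProj (∑ i ∈ s, Q i) := by
    constructor
    · rw [Finset.sum_mul]
      refine Finset.sum_congr rfl fun i hi => ?_
      rw [Finset.mul_sum, Finset.sum_eq_single i (fun j hj hne => ho i hi j hj hne.symm)
        (fun hn => absurd hi hn), (hQ i hi).idem]
    · intro u v
      simp only [sum_apply, sum_inner, inner_sum]
      exact Finset.sum_congr rfl fun i hi => (hQ i hi).sym u v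
  rw [← pythag s (fun i => Q i v) fun i hi j hj hij => inner_family hQ ho hi hj hij v v]
  have := hp.norm_le v
  rw [sum_apply] at this
  exact pow_le_pow_left₀ (norm_nonneg _) this 2

theorem norm_block_le (T : H →L[ℂ] H) {c : ℝ} (hc : 0 ≤ c)
    (hT : ∀ i ∈ s, ‖Q i * T * Q i‖ ≤ c) : ‖∑ i ∈ s, Q i * T * Q i‖ ≤ c := by
  refine ContinuousLinearMap.opNorm_le_bound _ hc fun v => le_of_sq_le_sq ?_ (by positivity)
  rw [sum_apply, pythag s _ fun i hi j hj hij => by
    simp only [mul_apply_eq_comp]; exact inner_family hQ ho hi hj hij _ _, mul_pow]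
  refine le_trans ?_ (mul_le_mul_of_nonneg_left (sum_sq_family hQ ho v) (sq_nonneg c))
  rw [Finset.mul_sum]
  refine Finset.sum_le_sum fun i hi => ?_
  have e : (Q i * T * Q i) v = (Q i * T * Q i) (Q i v) := by
    rw [← mul_apply_eq_comp _ (Q i), mul_assoc (Q i * T), (hQ i hi).idem]
  rw [e, ← mul_pow]
  exact pow_le_pow_left₀ (norm_nonneg _) (((Q i * T * Q i).le_opNorm _).trans
    (mul_le_mul_of_nonneg_right (hT i hi) (norm_nonneg _))) 2

theorem norm_left_le (z : ι → H →L[ℂ] H) (hz : ∀ i, ‖z i‖ ≤ 1) (θ : ι → ℂ)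
    (hθ : ∀ i, ‖θ i‖ ≤ 1) : ‖∑ i ∈ s, θ i • (Q i * z i)‖ ≤ √(s.card) := by
  refine ContinuousLinearMap.opNorm_le_bound _ (Real.sqrt_nonneg _) fun v =>
    le_of_sq_le_sq ?_ (by positivity)
  rw [sum_apply, pythag s _ fun i hi j hj hij => by
    simp only [smul_apply, mul_apply_eq_comp, inner_smul_left, inner_smul_right,
      inner_family hQ ho hi hj hij, mul_zero], mul_pow, Real.sq_sqrt (by positivity),
    ← nsmul_eq_mul]
  refine Finset.sum_le_card_nsmul _ _ _ fun i hi => pow_le_pow_left₀ (norm_nonneg _) ?_ 2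
  rw [smul_apply, norm_smul, mul_apply_eq_comp]
  have h1 := (hQ i hi).norm_le (z i v)
  have h2 := (z i).le_opNorm v
  have h3 := mul_le_of_le_one_left (norm_nonneg v) (hz i)
  exact (mul_le_of_le_one_left (norm_nonneg _) (hθ i)).trans (by linarith)

theorem norm_right_le (z : ι → H →L[ℂ] H) (hz : ∀ i, ‖z i‖ ≤ 1) (θ : ι → ℂ)
    (hθ : ∀ i, ‖θ i‖ ≤ 1) : ‖∑ i ∈ s, θ i • (z i * Q i)‖ ≤ √(s.card) := by
  refine ContinuousLinearMap.opNorm_le_bound _ (Real.sqrt_nonneg _) fun v =>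
    le_of_sq_le_sq ?_ (by positivity)
  have h1 : ‖(∑ i ∈ s, θ i • (z i * Q i)) v‖ ≤ ∑ i ∈ s, ‖Q i v‖ := by
    rw [sum_apply]
    refine (norm_sum_le _ _).trans (Finset.sum_le_sum fun i _ => ?_)
    rw [smul_apply, norm_smul, mul_apply_eq_comp]
    have h2 := (z i).le_opNorm (Q i v)
    have h3 := mul_le_of_le_one_left (norm_nonneg (Q i v)) (hz i)
    exact (mul_le_of_le_one_left (norm_nonneg _) (hθ i)).trans (by linarith)
  rw [mul_pow, Real.sq_sqrt (by positivity)]
  refine (pow_le_pow_left₀ (norm_nonneg _) h1 2).trans (sq_sum_le_card_mul_sum_sq.trans ?_)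
  exact mul_le_mul_of_nonneg_left (sum_sq_family hQ ho v) (by positivity)

end Family

/-- An increasing sequence of finite-rank projections tending strongly to the identity. -/
structure Filt (H : Type*) [NormedAddCommGroup H] [InnerProductSpace ℂ H] where
  P : ℕ → H →L[ℂ] H
  mul : ∀ a b, P a * P b = P (min a b)
  sym : ∀ a u v, ⟪P a u, v⟫_ℂ = ⟪u, P a v⟫_ℂ
  lim : ∀ v, Tendsto (fun n => P n v) atTop (𝓝 v)
  fin : ∀ a, ∃ (s : ℕ) (b : Fin s → H), P a = ∑ i, rankOne ℂ (b i) (b i)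

theorem exists_filt [TopologicalSpace.SeparableSpace H] : Nonempty (Filt H) := by
  classical
  obtain ⟨d, hd⟩ := TopologicalSpace.exists_dense_seq H
  set V : ℕ → Submodule ℂ H := fun n => Submodule.span ℂ (d '' (Finset.range n : Set ℕ)) with hV
  have hfin : ∀ n, FiniteDimensional ℂ (V n) := fun n =>
    FiniteDimensional.span_of_finite ℂ ((Finset.finite_toSet _).image _)
  have hmono : Monotone V := fun a b hab =>
    Submodule.span_mono (image_mono (by simpa using Iio_subset_Iio hab))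
  have htop : ⊤ ≤ (⨆ t, V t).topologicalClosure := by
    intro x _
    refine closure_mono (s := range d) ?_ (hd x)
    rintro _ ⟨n, rfl⟩
    exact Submodule.mem_iSup_of_mem (n + 1) (Submodule.subset_span ⟨n, by simp, rfl⟩)
  refine ⟨⟨fun n => (V n).starProjection, fun a b => ?_,
    fun a => (V a).inner_starProjection_left_eq_right,
    fun v => Submodule.starProjection_tendsto_self V hmono v htop, fun a => ?_⟩⟩
  · rcases le_total a b with h | h
    · rw [min_eq_left h]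
      exact Submodule.starProjection_comp_starProjection_of_le (hmono h)
    · rw [min_eq_right h]
      ext v
      exact Submodule.starProjection_eq_self_iff.mpr
        (hmono h (Submodule.starProjection_apply_mem _ _))
  · exact ⟨_, fun i => stdOrthonormalBasis ℂ (V a) i,
      (stdOrthonormalBasis ℂ (V a)).starProjection_eq_sum_rankOne⟩

namespace Filt

variable (F : Filt H)

theorem proj (a : ℕ) : IsProj (F.P a) := ⟨by rw [F.mul, min_self], F.sym a⟩

/-- The projection onto the interval `[a, b)`. -/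
def Q (a b : ℕ) : H →L[ℂ] H := F.P b - F.P a

theorem Q_mul (a b a' b' : ℕ) : F.Q a b * F.Q a' b' =
    F.P (min b b') - F.P (min b a') - F.P (min a b') + F.P (min a a') := by
  simp only [Q, sub_mul, mul_sub, F.mul]; abel

theorem Q_proj {a b : ℕ} (h : a ≤ b) : IsProj (F.Q a b) where
  idem := by
    rw [Q_mul, min_self, min_self, min_eq_right h, min_eq_left h, Q]; abel
  sym u v := by simp [Q, F.sym]

theorem Q_orth {a b a' b' : ℕ} (h : a ≤ b) (h' : a' ≤ b') (hb : b ≤ a') :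
    F.Q a b * F.Q a' b' = 0 ∧ F.Q a' b' * F.Q a b = 0 := by
  constructor
  · rw [Q_mul, min_eq_left (hb.trans h'), min_eq_left hb, min_eq_left (h.trans (hb.trans h')),
      min_eq_left (h.trans hb)]; abel
  · rw [Q_mul, min_eq_right (hb.trans h'), min_eq_right hb, min_eq_right (h.trans (hb.trans h')),
      min_eq_right (h.trans hb)]; abel

theorem Q_sub {a b b' : ℕ} (h : a ≤ b') (hb : b' ≤ b) :
    F.Q a b' * F.Q a b = F.Q a b' ∧ F.Q a b * F.Q a b' = F.Q a b' := by
  constructor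
  · rw [Q_mul, min_eq_left hb, min_eq_right h, min_eq_left (h.trans hb), min_self, Q]; abel
  · rw [Q_mul, min_eq_right hb, min_eq_right (h.trans hb), min_eq_left h, min_self, Q]; abel

theorem Q_P {a b n : ℕ} (h : a ≤ b) (hb : b ≤ n) :
    F.Q a b * F.P n = F.Q a b ∧ F.P n * F.Q a b = F.Q a b := by
  constructor
  · rw [Q, sub_mul, F.mul, F.mul, min_eq_left hb, min_eq_left (h.trans hb)]
  · rw [Q, mul_sub, F.mul, F.mul, min_eq_right hb, min_eq_right (h.trans hb)]

theorem Q_one_sub {m a b : ℕ} (hm : m ≤ a) (h : a ≤ b) :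
    F.Q a b * (1 - F.P m) = F.Q a b ∧ (1 - F.P m) * F.Q a b = F.Q a b := by
  constructor
  · rw [mul_sub, mul_one, Q, sub_mul, F.mul, F.mul, min_eq_right (hm.trans h), min_eq_right hm]
    abel
  · rw [sub_mul, one_mul, Q, mul_sub, F.mul, F.mul, min_eq_left (hm.trans h), min_eq_left hm]
    abel

theorem compact_P (a : ℕ) : IsCompactOperator (F.P a) := by
  obtain ⟨s, b, h⟩ := F.fin a
  rw [h]
  exact (compactOperator (RingHom.id ℂ) H H).sum_mem fun i _ => isCompactOperator_rankOne _ _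

theorem unif_on_compact {K : Set H} (hK : IsCompact K) {ε : ℝ} (hε : 0 < ε) :
    ∀ᶠ n in atTop, ∀ w ∈ K, ‖w - F.P n w‖ ≤ ε := by
  obtain ⟨t, -, htf, hcov⟩ := finite_cover_balls_of_compact hK (half_pos hε)
  have hev : ∀ᶠ n in atTop, ∀ v ∈ t, dist (F.P n v) v < ε / 2 :=
    (eventually_all_finite htf).mpr fun v _ => Metric.tendsto_nhds.mp (F.lim v) _ (half_pos hε)
  filter_upwards [hev] with n hn w hw
  obtain ⟨v, hv, hd⟩ := mem_iUnion₂.mp (hcov hw)
  rw [mem_ball, dist_eq_norm] at hd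
  have h1 := hn v hv
  rw [dist_comm, dist_eq_norm] at h1
  have h2 := (F.proj n).one_sub.norm_le (w - v)
  have e : w - F.P n w = (1 - F.P n) (w - v) + (v - F.P n v) := by
    simp only [sub_apply, one_apply_eq_self, map_sub]; abel
  rw [e]
  linarith [norm_add_le ((1 - F.P n) (w - v)) (v - F.P n v)]

theorem tendsto_left {y : H →L[ℂ] H} (hy : IsCompactOperator y) :
    Tendsto (fun n => F.P n * y) atTop (𝓝 y) := by
  obtain ⟨K, hK, hsub⟩ := IsCompactOperator.image_closedBall_subset_compact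
    (f := (y : H →ₗ[ℂ] H)) hy 1
  rw [Metric.tendsto_nhds]
  intro ε hε
  filter_upwards [F.unif_on_compact hK (half_pos hε)] with n hn
  rw [dist_comm, dist_eq_norm]
  refine lt_of_le_of_lt (ContinuousLinearMap.opNorm_le_of_unit_norm (half_pos hε).le
    fun v hv => ?_) (half_lt_self hε)
  exact hn _ (hsub ⟨v, by simp [hv], rfl⟩)

theorem tendsto_right [CompleteSpace H] {y : H →L[ℂ] H} (hy : IsCompactOperator y) :
    Tendsto (fun n => y * F.P n) atTop (𝓝 y) := by
  obtain ⟨K, hK, hsub⟩ := IsCompactOperator.image_closedBall_subset_compact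
    (f := (y : H →ₗ[ℂ] H)) hy 1
  rw [Metric.tendsto_nhds]
  intro ε hε
  filter_upwards [F.unif_on_compact (hK.image (ContinuousLinearMap.adjoint y).continuous)
    (show 0 < (ε / 2) ^ 2 by positivity)] with n hn
  rw [dist_comm, dist_eq_norm]
  refine lt_of_le_of_lt (ContinuousLinearMap.opNorm_le_of_unit_norm (half_pos hε).le
    fun v hv => ?_) (half_lt_self hε)
  have e : (y - y * F.P n) v = y ((1 - F.P n) v) := by simp
  have h1 : ‖(1 - F.P n) v‖ ≤ 1 := hv ▸ (F.proj n).one_sub.norm_le v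
  have h2 := hn _ ⟨_, hsub ⟨(1 - F.P n) v, by simpa using h1, rfl⟩, rfl⟩
  rw [e]
  refine le_of_sq_le_sq ?_ (half_pos hε).le
  set w := y ((1 - F.P n) v) with hw
  have h3 : ⟪w, w⟫_ℂ = ⟪(1 - F.P n) (ContinuousLinearMap.adjoint y w), v⟫_ℂ := by
    rw [(F.proj n).one_sub.sym, ContinuousLinearMap.adjoint_inner_left]
  have h4 := norm_inner_le_norm (𝕜 := ℂ) ((1 - F.P n) (ContinuousLinearMap.adjoint y w)) v
  rw [← h3, inner_self_eq_norm_sq_to_K, norm_pow, hv, mul_one] at h4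
  simp only [RCLike.norm_ofReal, abs_norm] at h4
  exact h4.trans h2

theorem tendsto_compress {α : Type*} {l : Filter α} {T : α → H →L[ℂ] H}
    (hT : ∀ u v, Tendsto (fun a => ⟪u, T a v⟫_ℂ) l (𝓝 0)) (m n : ℕ) :
    Tendsto (fun a => F.P m * T a * F.P n) l (𝓝 0) := by
  obtain ⟨s, b, hb⟩ := F.fin m
  obtain ⟨s', b', hb'⟩ := F.fin n
  have e : ∀ a, F.P m * T a * F.P n =
      ∑ i, ∑ j, ⟪b i, T a (b' j)⟫_ℂ • rankOne ℂ (b i) (b' j) := by
    intro a
    ext v
    simp only [hb, hb', mul_apply_eq_comp, sum_apply, rankOne_apply, map_sum, map_smul,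
      smul_apply, smul_smul, Finset.smul_sum]
    rw [Finset.sum_comm]
    exact Finset.sum_congr rfl fun i _ => Finset.sum_congr rfl fun j _ => by rw [mul_comm]
  simp_rw [e]
  have : Tendsto (fun a => ∑ i, ∑ j, ⟪b i, T a (b' j)⟫_ℂ • rankOne ℂ (b i) (b' j)) l
      (𝓝 (∑ i, ∑ j, (0 : ℂ) • rankOne ℂ (b i) (b' j))) :=
    tendsto_finsetSum _ fun i _ => tendsto_finsetSum _ fun j _ => (hT _ _).smul_const _
  simpa using this

end Filt

end Pool.Agent.H402Z.Wk
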