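import Pool.Agent.H402Z.WkWeak

/-!
On `K(H)` with `H` separable, `ω ≤ wck`.
-/

set_option autoImplicit false

open scoped ENNReal InnerProductSpace
open Metric Set Filter Topology InnerProductSpace

namespace Pool.Agent.H402Z.Wk

variable {H : Type*} [NormedAddCommGroup H] [InnerProductSpace ℂ H]

theorem ultra_const {α : Type*} (U : Ultrafilter α) {g : α → ℕ} {N : ℕ}
    (h : ∀ᶠ a in (U : Filter α), g a ≤ N) : ∃ n, ∀ᶠ a in (U : Filter α), g a = n := by
  have h1 : ∀ᶠ a in (U : Filter α), ∃ n ∈ (Finset.range (N + 1) : Set ℕ), g a = n :=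
    h.mono fun a ha => ⟨_, by simpa [Nat.lt_succ_iff] using ha, rfl⟩
  obtain ⟨n, -, hn⟩ := (Ultrafilter.eventually_exists_mem_iff (Finset.finite_toSet _)).mp h1
  exact ⟨n, hn⟩

namespace Filt

variable (F : Filt H) (T : H →L[ℂ] H) (c : ℝ) (n : ℕ)

theorem tt_ex (j : ℕ) :
    ∃ k, j ≤ k ∧ (n ≤ k ∨ c < ‖F.Q j (k + 1) * T * F.Q j (k + 1)‖) :=
  ⟨max j n, le_max_left _ _, Or.inl (le_max_right _ _)⟩

open Classical in
/-- End of the greedy block starting at `j`. -/
noncomputable def tt (j : ℕ) : ℕ := Nat.find (F.tt_ex T c n j)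

theorem tt_spec (j : ℕ) : j ≤ F.tt T c n j ∧ (n ≤ F.tt T c n j ∨
    c < ‖F.Q j (F.tt T c n j + 1) * T * F.Q j (F.tt T c n j + 1)‖) := by
  classical exact Nat.find_spec (F.tt_ex T c n j)

theorem tt_le (j : ℕ) : F.tt T c n j ≤ max j n := by
  classical exact Nat.find_min' (F.tt_ex T c n j) ⟨le_max_left _ _, Or.inl (le_max_right _ _)⟩

theorem tt_block (hc : 0 ≤ c) (j : ℕ) :
    ‖F.Q j (F.tt T c n j) * T * F.Q j (F.tt T c n j)‖ ≤ c := by
  classical
  rcases (F.tt_spec T c n j).1.eq_or_lt with h | h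
  · rw [← h]; simpa [Q] using hc
  · obtain ⟨k, hk⟩ : ∃ k, F.tt T c n j = k + 1 := ⟨F.tt T c n j - 1, by omega⟩
    have := Nat.find_min (F.tt_ex T c n j) (m := k) (by change k < F.tt T c n j; omega)
    push Not at this
    rw [hk]
    exact (this (by omega)).2

/-- Starting points of the greedy blocks. -/
noncomputable def ss : ℕ → ℕ
  | 0 => 0
  | i + 1 => F.tt T c n (ss i) + 1

theorem ss_strictMono : StrictMono (F.ss T c n) := strictMono_nat_of_lt_succ fun i => by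
  have := (F.tt_spec T c n (F.ss T c n i)).1
  simp only [ss]; omega

theorem tt_le_ss {i j : ℕ} (h : i < j) : F.tt T c n (F.ss T c n i) ≤ F.ss T c n j := by
  have := (F.ss_strictMono T c n).monotone (show i + 1 ≤ j from h)
  simp only [ss] at this; omega

/-- The greedy blocks. -/
noncomputable def blk (i : ℕ) : H →L[ℂ] H := F.Q (F.ss T c n i) (F.tt T c n (F.ss T c n i))

theorem blk_orth {i j : ℕ} (h : i ≠ j) : F.blk T c n i * F.blk T c n j = 0 := by
  rcases lt_or_gt_of_ne h with h | h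
  · exact (F.Q_orth (F.tt_spec T c n _).1 (F.tt_spec T c n _).1 (F.tt_le_ss T c n h)).1
  · exact (F.Q_orth (F.tt_spec T c n _).1 (F.tt_spec T c n _).1 (F.tt_le_ss T c n h)).2

/-- The block-diagonal part. -/
noncomputable def yy : H →L[ℂ] H := ∑ i ∈ Finset.range n, F.blk T c n i * T * F.blk T c n i

theorem norm_yy_le (hc : 0 ≤ c) : ‖F.yy T c n‖ ≤ c :=
  norm_block_le (fun _ _ => F.Q_proj (F.tt_spec T c n _).1)
    (fun _ _ _ _ h => F.blk_orth T c n h) T hc fun _ _ => F.tt_block T c n hc _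

theorem compact_Q (a b : ℕ) : IsCompactOperator (F.Q a b) :=
  (compactOperator (RingHom.id ℂ) H H).sub_mem (F.compact_P b) (F.compact_P a)

/-- The approximant. -/
noncomputable def Phi : H →L[ℂ] H := F.P n * T * F.P n - F.yy T c n

theorem compact_Phi : IsCompactOperator (F.Phi T c n) := by
  refine (compactOperator (RingHom.id ℂ) H H).sub_mem ((F.compact_P n).clm_comp (F.P n * T)) ?_
  exact (compactOperator (RingHom.id ℂ) H H).sum_mem fun i _ =>
    (F.compact_Q _ _).clm_comp (F.blk T c n i * T)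

theorem caseA {K : ℕ} (hK : n ≤ K) : F.Q n K * F.Phi T c n * F.Q n K = 0 := by
  have h1 : F.Q n K * F.P n = 0 := by
    rw [Q, sub_mul, F.mul, F.mul, min_eq_right hK, min_self, sub_self]
  have h2 : ∀ i, F.Q n K * F.blk T c n i = 0 := by
    intro i
    rcases le_total (F.ss T c n i) n with h | h
    · exact (F.Q_orth (F.tt_spec T c n _).1 hK ((F.tt_le T c n _).trans (max_le h le_rfl))).2
    · have : F.tt T c n (F.ss T c n i) = F.ss T c n i :=
        le_antisymm ((F.tt_le T c n _).trans (max_le le_rfl h)) (F.tt_spec T c n _).1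
      simp [blk, this, Q]
  simp only [Phi, yy, mul_sub, Finset.mul_sum, ← mul_assoc, h1, h2, zero_mul,
    Finset.sum_const_zero, sub_zero]

theorem caseB {i K : ℕ} (hi : i < n) (h1 : F.ss T c n i ≤ K)
    (h2 : K ≤ F.tt T c n (F.ss T c n i)) (h3 : K ≤ n) :
    F.Q (F.ss T c n i) K * F.Phi T c n * F.Q (F.ss T c n i) K = 0 := by
  obtain ⟨a1, a2⟩ := F.Q_P h1 h3
  obtain ⟨b1, b2⟩ := F.Q_sub h1 h2
  have e1 : F.Q (F.ss T c n i) K * (F.P n * T * F.P n) * F.Q (F.ss T c n i) K =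
      F.Q (F.ss T c n i) K * T * F.Q (F.ss T c n i) K := by
    rw [← mul_assoc, ← mul_assoc, a1, mul_assoc _ (F.P n), a2]
  have e2 : F.Q (F.ss T c n i) K * F.yy T c n * F.Q (F.ss T c n i) K =
      F.Q (F.ss T c n i) K * T * F.Q (F.ss T c n i) K := by
    rw [yy, Finset.mul_sum, Finset.sum_mul, Finset.sum_eq_single i]
    · rw [← mul_assoc, ← mul_assoc, blk, b1, mul_assoc _ (F.Q _ _), b2]
    · intro j _ hj
      have : F.Q (F.ss T c n i) K * F.blk T c n j = 0 := by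
        rw [← b1, mul_assoc]
        change _ * (F.blk T c n i * F.blk T c n j) = 0
        rw [F.blk_orth T c n hj.symm, mul_zero]
      rw [← mul_assoc, ← mul_assoc, this, zero_mul, zero_mul, zero_mul]
    · intro h; exact absurd (Finset.mem_range.mpr hi) h
  rw [Phi, mul_sub, sub_mul, e1, e2, sub_self]

theorem tendsto_Q_norm {α : Type*} {l : Filter α} {S : α → H →L[ℂ] H}
    (hS : ∀ u v, Tendsto (fun a => ⟪u, S a v⟫_ℂ) l (𝓝 ⟪u, T v⟫_ℂ)) {j k : ℕ} (h : j ≤ k) :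
    Tendsto (fun a => F.Q j k * S a * F.Q j k) l (𝓝 (F.Q j k * T * F.Q j k)) := by
  have h1 := F.tendsto_compress (T := fun a => S a - T) (l := l) (fun u v => by
    simpa [inner_sub_right] using tendsto_sub_nhds_zero_iff.mpr (hS u v)) k k
  have h2 := (h1.const_mul (F.Q j k)).mul_const (F.Q j k)
  obtain ⟨a1, a2⟩ := F.Q_P h le_rfl
  rw [mul_zero, zero_mul] at h2
  rw [← tendsto_sub_nhds_zero_iff]
  refine h2.congr fun a => ?_
  rw [← mul_assoc, ← mul_assoc, a1, mul_assoc _ (F.P k), a2, mul_sub, sub_mul]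

theorem exists_sigma {α : Type*} (U : Ultrafilter α) {S : α → H →L[ℂ] H} (n : α → ℕ)
    (hS : ∀ u v, Tendsto (fun a => ⟪u, S a v⟫_ℂ) U (𝓝 ⟪u, T v⟫_ℂ)) {m : ℕ}
    (hm : ‖(1 - F.P m) * T * (1 - F.P m)‖ < c) :
    ∃ σ, ∀ K ≥ σ, ∀ᶠ a in (U : Filter α), F.Q σ K * F.Phi (S a) c (n a) * F.Q σ K = 0 := by
  by_cases hA : ∃ N, ∀ᶠ a in (U : Filter α), n a ≤ N
  · obtain ⟨N, hN⟩ := hA
    obtain ⟨n₀, hn₀⟩ := ultra_const U hN
    refine ⟨n₀, fun K hK => hn₀.mono fun a ha => ?_⟩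
    rw [ha]; exact F.caseA _ _ _ hK
  have hB : ∀ N, ∀ᶠ a in (U : Filter α), N < n a := fun N =>
    (Ultrafilter.eventually_not.mpr fun h => hA ⟨N, h⟩).mono fun a ha => lt_of_not_ge ha
  by_contra hno
  have step : ∀ i σ, (∀ᶠ a in (U : Filter α), F.ss (S a) c (n a) i = σ) →
      ∃ k, ∀ᶠ a in (U : Filter α), F.tt (S a) c (n a) σ = k := by
    intro i σ hσ
    by_cases hb : ∃ K, ∀ᶠ a in (U : Filter α), F.tt (S a) c (n a) σ ≤ K
    · obtain ⟨K, hK⟩ := hb
      exact ultra_const U hK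
    · refine absurd ⟨σ, fun K hK => ?_⟩ hno
      have h1 := Ultrafilter.eventually_not.mpr fun h => hb ⟨K, h⟩
      filter_upwards [hσ, h1, hB i, hB K] with a ha1 ha2 ha3 ha4
      rw [← ha1] at hK ha2 ⊢
      exact F.caseB _ _ _ ha3 hK (le_of_not_ge ha2) ha4.le
  have all : ∀ i, ∃ σ, ∀ᶠ a in (U : Filter α), F.ss (S a) c (n a) i = σ := by
    intro i
    induction i with
    | zero => exact ⟨0, Eventually.of_forall fun _ => rfl⟩
    | succ i ih =>
      obtain ⟨σ, hσ⟩ := ih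
      obtain ⟨k, hk⟩ := step i σ hσ
      refine ⟨k + 1, ?_⟩
      filter_upwards [hσ, hk] with a ha1 ha2
      simp only [ss, ha1, ha2]
  obtain ⟨σ, hσ⟩ := all m
  obtain ⟨k, hk⟩ := step m σ hσ
  obtain ⟨a₀, ha₀, ha₀'⟩ := (hσ.and hk).exists
  have hmσ : m ≤ σ := ha₀ ▸ (F.ss_strictMono _ _ _).le_apply
  have hσk : σ ≤ k := ha₀' ▸ (F.tt_spec _ _ _ σ).1
  have hlt : ‖F.Q σ (k + 1) * T * F.Q σ (k + 1)‖ < c := by
    obtain ⟨a1, a2⟩ := F.Q_one_sub hmσ (hσk.trans (Nat.le_succ k))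
    have e : F.Q σ (k + 1) * T * F.Q σ (k + 1) =
        F.Q σ (k + 1) * ((1 - F.P m) * T * (1 - F.P m)) * F.Q σ (k + 1) := by
      rw [← mul_assoc, ← mul_assoc, a1, mul_assoc _ (1 - F.P m), a2]
    have hq := (F.Q_proj (hσk.trans (Nat.le_succ k))).opNorm_le
    rw [e]
    refine lt_of_le_of_lt ((norm_mul_le _ _).trans ?_) hm
    refine (mul_le_of_le_one_right (norm_nonneg _) hq).trans ((norm_mul_le _ _).trans ?_)
    exact mul_le_of_le_one_left (norm_nonneg _) hq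
  have h2 := ((F.tendsto_Q_norm T hS (hσk.trans (Nat.le_succ k))).norm).eventually
    (gt_mem_nhds hlt)
  obtain ⟨a, ⟨ha1, ha2⟩, ha3⟩ := ((hk.and (hB k)).and h2).exists
  rcases (F.tt_spec (S a) c (n a) σ).2 with h | h
  · omega
  · rw [ha1] at h
    exact absurd ha3 (not_lt.mpr h.le)

theorem compact_of_Q {Z : H →L[ℂ] H} {σ : ℕ}
    (h : ∀ K ≥ σ, ∀ u v, ⟪F.Q σ K u, Z (F.Q σ K v)⟫_ℂ = 0) [CompleteSpace H] :
    IsCompactOperator Z := by
  have hq : ∀ u, Tendsto (fun K => F.Q σ K u) atTop (𝓝 ((1 - F.P σ) u)) := fun u => by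
    simpa [Q] using (F.lim u).sub_const (F.P σ u)
  have h1 : (1 - F.P σ) * Z * (1 - F.P σ) = 0 := by
    ext v
    refine ext_inner_left ℂ fun u => ?_
    rw [mul_apply_eq_comp, mul_apply_eq_comp, ← (F.proj σ).one_sub.sym]
    have h2 := (hq u).inner (𝕜 := ℂ) ((Z.continuous.tendsto _).comp (hq v))
    have h3 : Tendsto (fun K => ⟪F.Q σ K u, Z (F.Q σ K v)⟫_ℂ) atTop (𝓝 0) :=
      tendsto_const_nhds.congr' ((eventually_ge_atTop σ).mono fun K hK => (h K hK u v).symm)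
    rw [tendsto_nhds_unique h2 h3]; simp
  have e : Z = F.P σ * Z + (1 - F.P σ) * Z * F.P σ := by
    have : Z = F.P σ * Z + (1 - F.P σ) * Z * F.P σ + (1 - F.P σ) * Z * (1 - F.P σ) := by
      noncomm_ring
    rwa [h1, add_zero] at this
  have c1 : IsCompactOperator (F.P σ * Z : H →L[ℂ] H) := (F.compact_P σ).comp_clm Z
  have c2 : IsCompactOperator ((1 - F.P σ) * Z * F.P σ : H →L[ℂ] H) :=
    (F.compact_P σ).clm_comp ((1 - F.P σ) * Z : H →L[ℂ] H)
  rw [e]
  exact c1.add c2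

theorem tendsto_cmp [CompleteSpace H] {y : H →L[ℂ] H} (hy : IsCompactOperator y) :
    Tendsto (fun n => F.P n * y * F.P n) atTop (𝓝 y) := by
  have h1 : Tendsto (fun n => F.P n * (y * F.P n - y)) atTop (𝓝 0) := by
    refine squeeze_zero_norm (fun n => (norm_mul_le _ _).trans
      (mul_le_of_le_one_left (norm_nonneg _) (F.proj n).opNorm_le)) ?_
    exact tendsto_iff_norm_sub_tendsto_zero.mp (F.tendsto_right hy)
  have h2 := h1.add (F.tendsto_left hy)
  rw [zero_add] at h2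
  refine h2.congr fun n => ?_
  noncomm_ring

theorem wot_of_compress {S : ℕ → H →L[ℂ] H} {C : ℝ} (hC : ∀ k, ‖S k‖ ≤ C)
    (h : Tendsto (fun k => F.P k * S k * F.P k) atTop (𝓝 0)) (u v : H) :
    Tendsto (fun k => ⟪u, S k v⟫_ℂ) atTop (𝓝 0) := by
  have hu : Tendsto (fun k => ‖u - F.P k u‖) atTop (𝓝 0) := by
    simpa [norm_sub_rev] using tendsto_iff_norm_sub_tendsto_zero.mp (F.lim u)
  have hv : Tendsto (fun k => ‖v - F.P k v‖) atTop (𝓝 0) := by
    simpa [norm_sub_rev] using tendsto_iff_norm_sub_tendsto_zero.mp (F.lim v)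
  have h0 := tendsto_zero_iff_norm_tendsto_zero.mp h
  have hlim : Tendsto (fun k => ‖F.P k * S k * F.P k‖ * ‖u‖ * ‖v‖ + C * ‖u - F.P k u‖ * ‖v‖ +
      C * ‖u‖ * ‖v - F.P k v‖) atTop (𝓝 (0 * ‖u‖ * ‖v‖ + C * 0 * ‖v‖ + C * ‖u‖ * 0)) :=
    (((h0.mul_const _).mul_const _).add ((hu.const_mul _).mul_const _)).add (hv.const_mul _)
  simp only [zero_mul, mul_zero, add_zero] at hlim
  refine squeeze_zero_norm (fun k => ?_) hlim
  have e : ⟪u, S k v⟫_ℂ = ⟪u, (F.P k * S k * F.P k) v⟫_ℂ + ⟪u - F.P k u, S k (F.P k v)⟫_ℂ +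
      ⟪u, S k (v - F.P k v)⟫_ℂ := by
    rw [mul_apply_eq_comp, mul_apply_eq_comp, ← F.sym, inner_sub_left, map_sub, inner_sub_right]
    ring
  rw [e]
  refine norm_add₃_le.trans (add_le_add (add_le_add (norm_inner_apply_le _ _ _) ?_) ?_)
  · refine (norm_inner_apply_le _ _ _).trans ?_
    have := (F.proj k).norm_le v
    have := hC k
    have := (norm_nonneg _).trans (hC k)
    gcongr
  · refine (norm_inner_apply_le _ _ _).trans ?_
    have := hC k
    gcongr

end Filt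

variable {X : Type*} [NormedAddCommGroup X] [NormedSpace ℂ X] (M : Model X H)

theorem exists_of_infEDist_lt {G : StrongDual ℂ (StrongDual ℂ X)} {c : ℝ}
    (h : infEDist G (range canon) < ENNReal.ofReal c) :
    ∃ (y : X) (c' : ℝ), 0 ≤ c' ∧ c' < c ∧ ∀ φ : StrongDual ℂ X, ‖G φ - φ y‖ ≤ c' * ‖φ‖ := by
  obtain ⟨_, ⟨y, rfl⟩, hy⟩ := infEDist_lt_iff.mp h
  rw [edist_dist, ENNReal.ofReal_lt_ofReal_iff_of_nonneg dist_nonneg, dist_eq_norm] at hy
  exact ⟨y, _, ContinuousLinearMap.opNorm_nonneg _, hy, fun φ => (G - canon y).le_opNorm φ⟩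

namespace Model

/-- Weak operator cluster points of `A` have small tails. -/
theorem tail_small [CompleteSpace H] (F : Filt H) {A : Set X} {C : ℝ} (hC : ∀ x ∈ A, ‖x‖ ≤ C)
    {c : ℝ} (hc : wck A < ENNReal.ofReal c) (U : Ultrafilter A) {T : H →L[ℂ] H}
    (hT : ∀ u v, Tendsto (fun a : A => ⟪u, M.J a v⟫_ℂ) U (𝓝 ⟪u, T v⟫_ℂ)) :
    ∃ m, ‖(1 - F.P m) * T * (1 - F.P m)‖ < c := by
  have h1 : ∀ k : ℕ, ∃ a : A, ‖F.P k * (M.J a - T) * F.P k‖ < 1 / (k + 1) := fun k =>
    (NormedAddGroup.tendsto_nhds_zero.mp (F.tendsto_compress (T := fun a : A => M.J a - T)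
      (l := U) (fun u v => by
        simpa [inner_sub_right] using tendsto_sub_nhds_zero_iff.mpr (hT u v)) k k) _
      (by positivity)).exists
  choose x hx using h1
  have h2 : ∀ u v, Tendsto (fun k => ⟪u, M.J (x k) v⟫_ℂ) atTop (𝓝 ⟪u, T v⟫_ℂ) := by
    intro u v
    have := F.wot_of_compress (S := fun k => M.J (x k) - T) (C := C + ‖T‖)
      (fun k => (norm_sub_le _ _).trans (by rw [M.J.norm_map]; linarith [hC _ (x k).2]))
      (squeeze_zero_norm (fun k => (hx k).le) tendsto_one_div_add_atTop_nhds_zero_nat) u v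
    rw [← tendsto_sub_nhds_zero_iff]
    simpa [inner_sub_right] using this
  have h3 : ⨅ G ∈ clust (fun k => (x k : X)), infEDist G (range canon) < ENNReal.ofReal c :=
    lt_of_le_of_lt (le_iSup₂ (f := fun (x : ℕ → X) (_ : ∀ n, x n ∈ A) =>
      ⨅ G ∈ clust x, infEDist G (range canon)) _ fun k => (x k).2) hc
  simp only [iInf_lt_iff] at h3
  obtain ⟨G, hG, h3⟩ := h3
  obtain ⟨y, c', hc0, hy, hyG⟩ := exists_of_infEDist_lt h3
  obtain ⟨V, hV, hVG⟩ := mapClusterPt_iff_ultrafilter.mp hG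
  have h4 : ∀ u v, G (M.vf u v) = ⟪u, T v⟫_ℂ := fun u v =>
    tendsto_nhds_unique (((WeakDual.eval_continuous (M.vf u v)).tendsto _).comp hVG)
      ((h2 u v).mono_left hV)
  have h5 : ‖T - M.J y‖ ≤ c' := by
    refine opNorm_le_of_inner hc0 fun u v => ?_
    rw [sub_apply, inner_sub_right, ← h4, mul_assoc]
    exact (hyG (M.vf u v)).trans (mul_le_mul_of_nonneg_left (M.norm_vf_le u v) hc0)
  have h6 := (tendsto_iff_norm_sub_tendsto_zero.mp (F.tendsto_left (M.compact y))).eventually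
    (gt_mem_nhds (show 0 < c - c' by linarith))
  obtain ⟨m, hm⟩ := h6.exists
  refine ⟨m, ?_⟩
  have hq := (F.proj m).one_sub.opNorm_le
  have e : (1 - F.P m) * T = (1 - F.P m) * (T - M.J y) - (F.P m * M.J y - M.J y) := by
    noncomm_ring
  have h7 := (norm_mul_le ((1 - F.P m) * T) (1 - F.P m)).trans
    (mul_le_of_le_one_right (norm_nonneg _) hq)
  have h8 := (norm_mul_le (1 - F.P m) (T - M.J y)).trans
    (mul_le_of_le_one_left (norm_nonneg _) hq)
  have h9 := norm_sub_le ((1 - F.P m) * (T - M.J y)) (F.P m * M.J y - M.J y)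
  rw [← e] at h9
  linarith

include M in
theorem omega_le_wck [CompleteSpace H] [TopologicalSpace.SeparableSpace H] {A : Set X}
    (hA : Bornology.IsBounded A) : omega A ≤ wck A := by
  obtain ⟨F⟩ := exists_filt (H := H)
  obtain ⟨C, hC⟩ := isBounded_iff_forall_norm_le.mp hA
  refine le_of_forall_gt fun d hd => ?_
  obtain ⟨d', hd1, hd2⟩ := ENNReal.lt_iff_exists_nnreal_btwn.mp hd
  obtain ⟨c, hc1, hc2⟩ := ENNReal.lt_iff_exists_nnreal_btwn.mp hd1
  refine lt_of_le_of_lt ?_ hd2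
  have hcd : (c : ℝ) < d' := by exact_mod_cast hc2
  rw [← ENNReal.ofReal_coe_nnreal] at hc1
  have h1 : ∀ a : A, ∃ n, ‖F.P n * M.J a * F.P n - M.J a‖ < d' - c := fun a =>
    ((tendsto_iff_norm_sub_tendsto_zero.mp (F.tendsto_cmp (M.compact a))).eventually
      (gt_mem_nhds (by linarith))).exists
  choose n hn using h1
  set Φ : A → X := fun a => M.mk' (F.Phi (M.J a) c (n a)) (F.compact_Phi _ _ _) with hΦ
  have hJΦ : ∀ a, M.J (Φ a) = F.Phi (M.J a) c (n a) := fun a => M.J_mk' _ _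
  have hclose : ∀ a : A, ‖(a : X) - Φ a‖ ≤ d' := by
    intro a
    rw [← M.J.norm_map, map_sub, hJΦ, Filt.Phi]
    have e : M.J a - (F.P (n a) * M.J a * F.P (n a) - F.yy (M.J a) c (n a)) =
        F.yy (M.J a) c (n a) - (F.P (n a) * M.J a * F.P (n a) - M.J a) := by abel
    rw [e]
    linarith [norm_sub_le (F.yy (M.J a) c (n a)) (F.P (n a) * M.J a * F.P (n a) - M.J a),
      F.norm_yy_le (M.J a) c (n a) c.2, hn a]
  have hbd : ∀ a : A, ‖Φ a‖ ≤ C + d' := fun a => by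
    have := norm_sub_le (a : X) ((a : X) - Φ a)
    rw [sub_sub_cancel] at this
    linarith [hC _ a.2, hclose a]
  have hK : IsCompact (closure (toWeakSpace ℂ X '' range Φ)) := by
    refine NormedSpace.isCompact_closure_of_isBounded ℂ X _ ?_ fun G hG => ?_
    · rw [preimage_image_eq _ (toWeakSpace ℂ X).injective, isBounded_iff_forall_norm_le]
      exact ⟨_, by rintro _ ⟨a, rfl⟩; exact hbd a⟩
    have hG' : WeakDual.toStrongDual G ∈ wstarClosure (range Φ) := by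
      rw [image_image] at hG
      exact hG
    obtain ⟨U, hU⟩ := exists_ultrafilter_of_mem_wstarClosure hG'
    obtain ⟨T, hT⟩ := exists_wot_limit U (fun a : A => M.J a) (C := C)
      (fun a => by rw [M.J.norm_map]; exact hC _ a.2)
    obtain ⟨Z, hZ⟩ := exists_wot_limit U (fun a : A => M.J (Φ a)) (C := C + d')
      (fun a => by rw [M.J.norm_map]; exact hbd a)
    obtain ⟨m, hm⟩ := M.tail_small F hC hc1 U hT
    obtain ⟨σ, hσ⟩ := F.exists_sigma T c U n hT hm
    have hZc : IsCompactOperator Z := F.compact_of_Q (σ := σ) fun K hK u v => by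
      refine tendsto_nhds_unique (hZ _ _) (tendsto_const_nhds.congr' ?_)
      filter_upwards [hσ K hK] with a ha
      rw [(F.Q_proj hK).sym, hJΦ, ← mul_apply_eq_comp, ← mul_apply_eq_comp, ha]
      simp
    obtain ⟨z, rfl⟩ := M.surj Z hZc
    refine ⟨toWeakSpace ℂ X z, ?_⟩
    apply WeakDual.toStrongDual.injective
    ext φ
    refine tendsto_nhds_unique ?_ (hU φ)
    have := M.weak_of_wot F (l := U) (z := fun a => Φ a - z) (C := C + d' + ‖z‖)
      (fun a => (norm_sub_le _ _).trans (by linarith [hbd a]))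
      (fun u v => by
        simpa [inner_sub_right] using tendsto_sub_nhds_zero_iff.mpr (hZ u v)) φ
    change Tendsto _ _ (𝓝 (φ z))
    rw [← tendsto_sub_nhds_zero_iff]
    simpa only [map_sub] using this
  refine (iInf₂_le ((toWeakSpace ℂ X) ⁻¹' closure (toWeakSpace ℂ X '' range Φ)) ?_).trans ?_
  · rwa [IsWeaklyCompact, image_preimage_eq _ (toWeakSpace ℂ X).surjective]
  · refine iSup₂_le ?_
    rintro _ ⟨a, ha, rfl⟩
    rw [infEDist_image canon_isometry]
    have hmem : Φ ⟨a, ha⟩ ∈ (toWeakSpace ℂ X) ⁻¹' closure (toWeakSpace ℂ X '' range Φ) :=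
      mem_preimage.mpr (subset_closure (X := WeakSpace ℂ X) (mem_image_of_mem _ (mem_range_self _)))
    refine (infEDist_le_edist_of_mem hmem).trans ?_
    rw [edist_dist, dist_eq_norm, ← ENNReal.ofReal_coe_nnreal]
    exact ENNReal.ofReal_le_ofReal (hclose ⟨a, ha⟩)

end Model

end Pool.Agent.H402Z.Wk
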