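import Pool.Agent.H402Z.WkProj

/-!
Weak convergence in `K(H)`, weak operator limits, and the general inequalities.
-/

set_option autoImplicit false

open scoped ENNReal InnerProductSpace
open Metric Set Filter Topology InnerProductSpace

namespace Pool.Agent.H402Z.Wk

section General

variable {X : Type*} [NormedAddCommGroup X] [NormedSpace ℂ X]

theorem shrink_abs (φ : StrongDual ℂ X) (L : ℕ → X → X)
    (hlim : ∀ z, Tendsto (fun n => L n z) atTop (𝓝 z))
    (hort : ∀ n : ℕ → ℕ, Monotone n → ∀ z : ℕ → X, (∀ i, ‖z i‖ ≤ 1) → ∀ θ : ℕ → ℂ,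
      (∀ i, ‖θ i‖ ≤ 1) → ∀ N : ℕ,
      ‖∑ i ∈ Finset.range N, θ i • (L (n (i + 1)) (z i) - L (n i) (z i))‖ ≤ √N)
    {ε : ℝ} (hε : 0 < ε) : ∃ n, ∀ z, ‖z‖ ≤ 1 → ‖φ (z - L n z)‖ ≤ ε := by
  by_contra hcon
  push Not at hcon
  choose z hz1 hz2 using hcon
  have : ∀ n, ∃ m, n ≤ m ∧ ε < ‖φ (L m (z n) - L n (z n))‖ := by
    intro n
    have h1 : Tendsto (fun m => ‖φ (L m (z n) - L n (z n))‖) atTop
        (𝓝 ‖φ (z n - L n (z n))‖) :=
      ((φ.continuous.tendsto _).comp ((hlim (z n)).sub_const _)).norm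
    obtain ⟨m, hm⟩ := ((eventually_ge_atTop n).and (h1.eventually (lt_mem_nhds (hz2 n)))).exists
    exact ⟨m, hm⟩
  choose g hg1 hg2 using this
  set n : ℕ → ℕ := fun i => g^[i] 0 with hn
  have hns : ∀ i, n (i + 1) = g (n i) := fun i => Function.iterate_succ_apply' g i 0
  have hmono : Monotone n := monotone_nat_of_le_succ fun i => by rw [hns]; exact hg1 _
  choose θ hθ1 hθ2 using fun i => Complex.exists_norm_eq_mul_self
    (φ (L (n (i + 1)) (z (n i)) - L (n i) (z (n i))))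
  obtain ⟨N, hN⟩ := exists_nat_gt ((‖φ‖ / ε) ^ 2)
  have h1 := hort n hmono (fun i => z (n i)) (fun i => hz1 _) θ (fun i => (hθ1 i).le) N
  have h2 : φ (∑ i ∈ Finset.range N, θ i • (L (n (i + 1)) (z (n i)) - L (n i) (z (n i)))) =
      ((∑ i ∈ Finset.range N, ‖φ (L (n (i + 1)) (z (n i)) - L (n i) (z (n i)))‖ : ℝ) : ℂ) := by
    rw [map_sum]; push_cast
    exact Finset.sum_congr rfl fun i _ => by rw [map_smul, hθ2, smul_eq_mul]
  have h3 := φ.le_opNorm
    (∑ i ∈ Finset.range N, θ i • (L (n (i + 1)) (z (n i)) - L (n i) (z (n i))))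
  rw [h2, Complex.norm_real, Real.norm_eq_abs,
    abs_of_nonneg (Finset.sum_nonneg fun _ _ => norm_nonneg _)] at h3
  have h4 : (Finset.range N).card • ε ≤
      ∑ i ∈ Finset.range N, ‖φ (L (n (i + 1)) (z (n i)) - L (n i) (z (n i)))‖ :=
    Finset.card_nsmul_le_sum _ _ _ fun i _ => by rw [hns]; exact (hg2 _).le
  rw [Finset.card_range, nsmul_eq_mul] at h4
  have h5 : (N : ℝ) * ε ≤ ‖φ‖ * √N := h4.trans (h3.trans (by gcongr))
  have hN0 : (0 : ℝ) < N := lt_of_le_of_lt (by positivity) hN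
  have h6 : ‖φ‖ / ε < √N := Real.lt_sqrt_of_sq_lt hN
  rw [div_lt_iff₀ hε] at h6
  have h7 : √N * √N = (N : ℝ) := Real.mul_self_sqrt hN0.le
  have h8 : 0 < √(N : ℝ) := Real.sqrt_pos.mpr hN0
  nlinarith

theorem wck_le_wk {A : Set X} (hA : Bornology.IsBounded A) : wck A ≤ wk A := by
  refine iSup₂_le fun x hx => ?_
  obtain ⟨C, hC⟩ := isBounded_iff_forall_norm_le.mp hA
  obtain ⟨G, -, hG⟩ := (WeakDual.isCompact_closedBall (𝕜 := ℂ) (E := StrongDual ℂ X)
    (canon (0 : X)) C).exists_mapClusterPt (f := atTop)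
    (u := fun n => StrongDual.toWeakDual (canon (x n))) (by
      rw [le_principal_iff, mem_map]
      refine univ_mem' fun n => ?_
      change canon (x n) ∈ closedBall (canon (0 : X)) C
      rw [mem_closedBall, canon_isometry.dist_eq, dist_zero_right]
      exact hC _ (hx n))
  have h1 : WeakDual.toStrongDual G ∈ clust x := hG
  have h2 : WeakDual.toStrongDual G ∈ wstarClosure A := by
    change G ∈ closure ((fun x => StrongDual.toWeakDual (canon x)) '' A)
    refine mem_closure_iff_clusterPt.mpr (ClusterPt.mono hG ?_)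
    rw [le_principal_iff, mem_map]
    exact univ_mem' fun n => ⟨x n, hx n, rfl⟩
  exact (iInf₂_le _ h1).trans (le_iSup₂ (f := fun F (_ : F ∈ wstarClosure A) =>
    infEDist F (range canon)) _ h2)

theorem wk_le_omega (A : Set X) : wk A ≤ omega A := by
  refine le_iInf₂ fun K hK => iSup₂_le fun F hF => le_of_forall_gt fun c hc => ?_
  obtain ⟨c', hc1, hc2⟩ := ENNReal.lt_iff_exists_nnreal_btwn.mp hc
  refine lt_of_le_of_lt ?_ hc2
  have happ : ∀ a : A, ∃ y ∈ K, ‖(a : X) - y‖ < c' := by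
    intro a
    have h1 : infEDist (canon (a : X)) (canon '' K) < c' :=
      lt_of_le_of_lt (le_iSup₂ (f := fun b (_ : b ∈ canon '' A) =>
        infEDist b (canon '' K)) _ ⟨_, a.2, rfl⟩) hc1
    rw [infEDist_image canon_isometry, infEDist_lt_iff] at h1
    obtain ⟨y, hy, hd⟩ := h1
    refine ⟨y, hy, ?_⟩
    rw [edist_nndist, ENNReal.coe_lt_coe, nndist_eq_nnnorm] at hd
    exact hd
  choose y hyK hy using happ
  rw [← Subtype.range_coe (s := A)] at hF
  obtain ⟨U, hU⟩ := exists_ultrafilter_of_mem_wstarClosure hF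
  obtain ⟨_, ⟨w, -, rfl⟩, hw⟩ := hK.ultrafilter_le_nhds' (U.map fun a => toWeakSpace ℂ X (y a))
    (by
      rw [Ultrafilter.mem_map]
      exact univ_mem' fun a => ⟨y a, hyK a, rfl⟩)
  rw [← ENNReal.ofReal_coe_nnreal]
  refine infEDist_le_of_forall F w c'.2 fun φ => ?_
  have h1 : Tendsto (fun a => φ (y a)) U (𝓝 (φ w)) := ((continuous_weak φ).tendsto _).comp hw
  refine le_of_tendsto' ((hU φ).sub h1).norm fun a => ?_
  rw [← map_sub, mul_comm]
  exact (φ.le_opNorm _).trans (mul_le_mul_of_nonneg_left (hy a).le (norm_nonneg _))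

end General

variable {H : Type*} [NormedAddCommGroup H] [InnerProductSpace ℂ H]

theorem opNorm_le_of_inner {T : H →L[ℂ] H} {C : ℝ} (hC : 0 ≤ C)
    (h : ∀ u v, ‖⟪u, T v⟫_ℂ‖ ≤ C * ‖u‖ * ‖v‖) : ‖T‖ ≤ C := by
  refine ContinuousLinearMap.opNorm_le_bound _ hC fun v => ?_
  have h1 := h (T v) v
  rw [inner_self_eq_norm_sq_to_K, norm_pow] at h1
  simp only [RCLike.norm_ofReal, abs_norm] at h1
  by_contra hlt
  push Not at hlt
  have : 0 ≤ C * ‖v‖ := by positivity
  nlinarith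

theorem norm_inner_apply_le (T : H →L[ℂ] H) (u v : H) : ‖⟪u, T v⟫_ℂ‖ ≤ ‖T‖ * ‖u‖ * ‖v‖ := by
  have h1 := norm_inner_le_norm (𝕜 := ℂ) u (T v)
  have h2 := mul_le_mul_of_nonneg_left (T.le_opNorm v) (norm_nonneg u)
  linarith

/-- Weak operator limits along ultrafilters. -/
theorem exists_wot_limit [CompleteSpace H] {α : Type*} (U : Ultrafilter α) (T : α → H →L[ℂ] H)
    {C : ℝ} (hC : ∀ a, ‖T a‖ ≤ C) :
    ∃ Z : H →L[ℂ] H, ∀ u v, Tendsto (fun a => ⟪u, T a v⟫_ℂ) U (𝓝 ⟪u, Z v⟫_ℂ) := by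
  have hb : ∀ a u v, ‖⟪u, T a v⟫_ℂ‖ ≤ C * ‖u‖ * ‖v‖ := fun a u v =>
    (norm_inner_apply_le _ u v).trans (by gcongr; exact hC a)
  have : ∀ u v, ∃ l, Tendsto (fun a => ⟪u, T a v⟫_ℂ) U (𝓝 l) := by
    intro u v
    obtain ⟨l, -, hl⟩ := (isCompact_closedBall (0 : ℂ) (C * ‖u‖ * ‖v‖)).ultrafilter_le_nhds'
      (U.map fun a => ⟪u, T a v⟫_ℂ) (by
        rw [Ultrafilter.mem_map]
        exact univ_mem' fun a => by simpa using hb a u v)
    exact ⟨l, hl⟩
  choose l hl using this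
  let B : H →ₗ⋆[ℂ] H →ₗ[ℂ] ℂ := LinearMap.mk₂'ₛₗ (starRingEnd ℂ) (RingHom.id ℂ) l
    (fun u u' v => tendsto_nhds_unique (hl _ _) (by
      simpa only [inner_add_left] using (hl u v).add (hl u' v)))
    (fun c u v => tendsto_nhds_unique (hl _ _) (by
      simpa only [inner_smul_left, smul_eq_mul] using (hl u v).const_mul ((starRingEnd ℂ) c)))
    (fun u v v' => tendsto_nhds_unique (hl _ _) (by
      simpa only [map_add, inner_add_right] using (hl u v).add (hl u v')))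
    (fun c u v => tendsto_nhds_unique (hl _ _) (by
      simpa only [map_smul, inner_smul_right, smul_eq_mul, RingHom.id_apply] using
        (hl u v).const_mul c))
  let B' : H →L⋆[ℂ] H →L[ℂ] ℂ := B.mkContinuous₂ C fun u v =>
    le_of_tendsto' (hl u v).norm fun a => hb a u v
  refine ⟨ContinuousLinearMap.adjoint (continuousLinearMapOfBilin B'), fun u v => ?_⟩
  rw [ContinuousLinearMap.adjoint_inner_right, continuousLinearMapOfBilin_apply]
  exact hl u v

variable {X : Type*} [NormedAddCommGroup X] [NormedSpace ℂ X] (M : Model X H)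

namespace Model

/-- Two-sided multiplication. -/
noncomputable def cmp (A B : H →L[ℂ] H) (z : X) : X :=
  M.mk' (A * M.J z * B) (((M.compact z).clm_comp A).comp_clm B)

@[simp] theorem J_cmp (A B : H →L[ℂ] H) (z : X) : M.J (M.cmp A B z) = A * M.J z * B :=
  M.J_mk' _ _

theorem norm_vf_le (u v : H) : ‖M.vf u v‖ ≤ ‖u‖ * ‖v‖ := by
  refine ContinuousLinearMap.opNorm_le_bound _ (by positivity) fun y => ?_
  have := norm_inner_apply_le (M.J y) u v
  rw [M.J.norm_map] at this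
  rw [vf_apply]; linarith

theorem tendsto_of_J {α : Type*} {l : Filter α} {z : α → X} {w : X}
    (h : Tendsto (fun a => M.J (z a)) l (𝓝 (M.J w))) : Tendsto z l (𝓝 w) :=
  M.J.isometry.isEmbedding.tendsto_nhds_iff.mpr h

/-- Bounded weak operator convergence in `K(H)` implies weak convergence. -/
theorem weak_of_wot [CompleteSpace H] (F : Filt H) {α : Type*} {l : Filter α} {z : α → X}
    {C : ℝ} (hC : ∀ a, ‖z a‖ ≤ C) (hz : ∀ u v, Tendsto (fun a => ⟪u, M.J (z a) v⟫_ℂ) l (𝓝 0))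
    (φ : StrongDual ℂ X) : Tendsto (fun a => φ (z a)) l (𝓝 0) := by
  have hQ : ∀ n : ℕ → ℕ, Monotone n → ∀ N, (∀ i ∈ Finset.range N,
      IsProj (F.Q (n i) (n (i + 1)))) ∧ ∀ i ∈ Finset.range N, ∀ j ∈ Finset.range N, i ≠ j →
        F.Q (n i) (n (i + 1)) * F.Q (n j) (n (j + 1)) = 0 := by
    intro n hn N
    refine ⟨fun i _ => F.Q_proj (hn (Nat.le_succ i)), fun i _ j _ hij => ?_⟩
    rcases lt_or_gt_of_ne hij with h | h
    · exact (F.Q_orth (hn (Nat.le_succ i)) (hn (Nat.le_succ j)) (hn h)).1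
    · exact (F.Q_orth (hn (Nat.le_succ j)) (hn (Nat.le_succ i)) (hn h)).2
  rw [NormedAddGroup.tendsto_nhds_zero]
  intro ε hε
  obtain ⟨C', hC', hC0⟩ : ∃ C' : ℝ, (∀ a, ‖z a‖ ≤ C') ∧ 0 < C' :=
    ⟨max C 1, fun a => (hC a).trans (le_max_left _ _), lt_max_of_lt_right one_pos⟩
  obtain ⟨m, hm⟩ := shrink_abs φ (fun n => M.cmp (F.P n) 1)
    (fun w => M.tendsto_of_J (by simpa using F.tendsto_left (M.compact w)))
    (fun n hn w hw θ hθ N => by
      have := norm_left_le (hQ n hn N).1 (hQ n hn N).2 (fun i => M.J (w i))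
        (fun i => by simpa using hw i) θ hθ
      rw [← M.J.norm_map]
      simpa [Filt.Q, sub_mul] using this) (show 0 < ε / (3 * C') by positivity)
  obtain ⟨n, hn⟩ := shrink_abs φ (fun n => M.cmp 1 (F.P n))
    (fun w => M.tendsto_of_J (by simpa using F.tendsto_right (M.compact w)))
    (fun n hn w hw θ hθ N => by
      have := norm_right_le (hQ n hn N).1 (hQ n hn N).2 (fun i => M.J (w i))
        (fun i => by simpa using hw i) θ hθ
      rw [← M.J.norm_map]
      simpa [Filt.Q, mul_sub] using this) (show 0 < ε / (3 * C') by positivity)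
  have scale : ∀ L : X → X, (∀ (c : ℂ) w, L (c • w) = c • L w) →
      (∀ w, ‖w‖ ≤ 1 → ‖φ (w - L w)‖ ≤ ε / (3 * C')) → ∀ w, ‖w‖ ≤ C' →
        ‖φ (w - L w)‖ ≤ ε / 3 := by
    intro L hL h w hw
    have h1 := h (((C'⁻¹ : ℝ) : ℂ) • w) (by
      rw [norm_smul, Complex.norm_real, Real.norm_eq_abs, abs_of_pos (inv_pos.mpr hC0),
        inv_mul_le_iff₀ hC0]; linarith)
    rw [hL, ← smul_sub, map_smul, norm_smul, Complex.norm_real, Real.norm_eq_abs,
      abs_of_pos (inv_pos.mpr hC0), inv_mul_le_iff₀ hC0] at h1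
    refine h1.trans (le_of_eq ?_)
    field_simp
  have hsm : ∀ A B (c : ℂ) w, M.cmp A B (c • w) = c • M.cmp A B w := fun A B c w =>
    M.J.injective (by simp)
  have h0 : Tendsto (fun a => M.cmp 1 (F.P n) (M.cmp (F.P m) 1 (z a))) l (𝓝 0) :=
    M.tendsto_of_J (by simpa using F.tendsto_compress hz m n)
  have h1 : Tendsto (fun a => φ (M.cmp 1 (F.P n) (M.cmp (F.P m) 1 (z a)))) l (𝓝 0) := by
    have := (φ.continuous.tendsto _).comp h0
    rwa [map_zero] at this
  filter_upwards [NormedAddGroup.tendsto_nhds_zero.mp h1 (ε / 3) (by positivity)] with a ha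
  have e1 := scale _ (hsm _ _) hm (z a) (hC' a)
  have e2 := scale _ (hsm _ _) hn (M.cmp (F.P m) 1 (z a)) (by
    rw [← M.J.norm_map, J_cmp, mul_one]
    refine (norm_mul_le _ _).trans ?_
    rw [M.J.norm_map]
    exact (mul_le_of_le_one_left (norm_nonneg _) (F.proj m).opNorm_le).trans (hC' a))
  have e3 : φ (z a) = φ (z a - M.cmp (F.P m) 1 (z a)) +
      φ (M.cmp (F.P m) 1 (z a) - M.cmp 1 (F.P n) (M.cmp (F.P m) 1 (z a))) +
      φ (M.cmp 1 (F.P n) (M.cmp (F.P m) 1 (z a))) := by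
    simp only [map_sub]; ring
  rw [e3]
  linarith [norm_add₃_le (a := φ (z a - M.cmp (F.P m) 1 (z a)))
    (b := φ (M.cmp (F.P m) 1 (z a) - M.cmp 1 (F.P n) (M.cmp (F.P m) 1 (z a))))
    (c := φ (M.cmp 1 (F.P n) (M.cmp (F.P m) 1 (z a))))]

end Model

end Pool.Agent.H402Z.Wk
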